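import Mathlib

/-!
Families of functionals on an abelian group with conformal decompositions.
-/

set_option autoImplicit false
set_option linter.unusedSectionVars false

namespace Pool.Agent.H758.TR

open Finset

variable {Λ : Type} [AddCommGroup Λ] {K : Type} [Fintype K]

/-- unit vectors of minimal support -/
def Elem (f : K → Λ →+ ℤ) (a : Λ) : Prop :=
  (∃ k, f k a ≠ 0) ∧ (∀ k, |f k a| ≤ 1) ∧
    ∀ b, (∃ k, f k b ≠ 0) → (∀ k, f k a = 0 → f k b = 0) → ∀ k, f k b = 0 → f k a = 0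

/-- `b` is a unit vector conformal to `a` -/
def Conf (f : K → Λ →+ ℤ) (b a : Λ) : Prop := ∀ k, f k b = 0 ∨ f k b = (f k a).sign

/-- conformal unit vectors exist -/
def Regular (f : K → Λ →+ ℤ) : Prop :=
  ∀ a, (∃ k, f k a ≠ 0) → ∃ b, (∃ k, f k b ≠ 0) ∧ Conf f b a

theorem sign_trich (a : ℤ) : (a = 0 ∧ a.sign = 0) ∨ (0 < a ∧ a.sign = 1) ∨ (a < 0 ∧ a.sign = -1) := by
  rcases lt_trichotomy a 0 with h1 | h1 | h1
  · right; right; exact ⟨h1, Int.sign_eq_neg_one_of_neg h1⟩
  · left; exact ⟨h1, by rw [h1]; rfl⟩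
  · right; left; exact ⟨h1, Int.sign_eq_one_of_pos h1⟩

theorem Conf.abs_le {f : K → Λ →+ ℤ} {b a : Λ} (h : Conf f b a) (k : K) : |f k b| ≤ 1 := by
  rcases h k with h1 | h1
  · rw [h1]; norm_num
  · rcases sign_trich (f k a) with h2 | h2 | h2 <;> rw [h1, h2.2] <;> norm_num

/-- the size of the support -/
def supp (f : K → Λ →+ ℤ) (a : Λ) : Finset K := univ.filter fun k => f k a ≠ 0

theorem mem_supp {f : K → Λ →+ ℤ} {a : Λ} {k : K} : k ∈ supp f a ↔ f k a ≠ 0 := by
  simp [supp]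

theorem exists_elem {f : K → Λ →+ ℤ} (hf : Regular f) {a : Λ} (ha : ∃ k, f k a ≠ 0) :
    ∃ b, Elem f b ∧ Conf f b a := by
  classical
  have hex : ∃ n : ℕ, ∃ b, (∃ k, f k b ≠ 0) ∧ Conf f b a ∧ (supp f b).card = n := by
    obtain ⟨b, h1, h2⟩ := hf a ha
    exact ⟨_, b, h1, h2, rfl⟩
  obtain ⟨b, hb1, hb2, hb3⟩ := Nat.find_spec hex
  have hmin : ∀ c, (∃ k, f k c ≠ 0) → Conf f c a → (supp f b).card ≤ (supp f c).card := by
    intro c h1 h2
    rw [hb3]
    exact Nat.find_min' hex ⟨c, h1, h2, rfl⟩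
  refine ⟨b, ⟨hb1, hb2.abs_le, fun c hc hcb k0 hk0 => ?_⟩, hb2⟩
  by_contra hbk0
  obtain ⟨c', ⟨k1, hk1⟩, hc'⟩ := hf c hc
  have hc'c : ∀ k, f k c = 0 → f k c' = 0 := by
    intro k hk
    rcases hc' k with h | h
    · exact h
    · rw [h, hk]; rfl
  have hc'b : ∀ k, f k b = 0 → f k c' = 0 := fun k hk => hc'c k (hcb k hk)
  have hbk1 : f k1 b ≠ 0 := fun h => hk1 (hc'b k1 h)
  have hu1 := hc'.abs_le
  have hub := hb2.abs_le
  -- a multiple of `c'` agreeing with `b` at `k1`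
  obtain ⟨c2, hc2, hc2u, hc2b⟩ : ∃ c2, f k1 c2 = f k1 b ∧ (∀ k, |f k c2| ≤ 1) ∧
      ∀ k, f k c' = 0 → f k c2 = 0 := by
    have h1 := abs_le.1 (hu1 k1)
    have h2 := abs_le.1 (hub k1)
    by_cases h3 : f k1 c' = f k1 b
    · exact ⟨c', h3, hu1, fun k hk => hk⟩
    · refine ⟨-c', ?_, fun k => ?_, fun k hk => ?_⟩
      · rw [map_neg]; omega
      · rw [map_neg, abs_neg]; exact hu1 k
      · rw [map_neg, hk, neg_zero]
  have hne : ∃ k, f k (b - c2) ≠ 0 := by
    refine ⟨k0, ?_⟩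
    rw [map_sub, hc2b k0 (hc'c k0 hk0), sub_zero]
    exact hbk0
  obtain ⟨d, hd1, hd2⟩ := hf _ hne
  have hsign : ∀ k, f k (b - c2) ≠ 0 → (f k (b - c2)).sign = (f k a).sign := by
    intro k hk
    have hbk : f k b ≠ 0 := by
      intro h
      apply hk
      rw [map_sub, h, hc2b k (hc'b k h), sub_zero]
    rcases hb2 k with h | h
    · exact absurd h hbk
    · rw [← h]
      rw [map_sub] at hk ⊢
      have h1 := abs_le.1 (hub k)
      have h2 := abs_le.1 (hc2u k)
      rcases sign_trich (f k b - f k c2) with h3 | h3 | h3 <;> omega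
  have hdconf : Conf f d a := by
    intro k
    by_cases hk : f k (b - c2) = 0
    · left
      rcases hd2 k with h | h
      · exact h
      · rw [h, hk]; rfl
    · rcases hd2 k with h | h
      · left; exact h
      · right; rw [h, hsign k hk]
  have hlt : (supp f d).card < (supp f b).card := by
    apply card_lt_card
    rw [ssubset_iff_of_subset]
    · refine ⟨k1, mem_supp.2 hbk1, ?_⟩
      rw [mem_supp, not_not]
      have h1 : f k1 (b - c2) = 0 := by rw [map_sub, hc2, sub_self]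
      rcases hd2 k1 with h | h
      · exact h
      · rw [h, h1]; rfl
    · intro k hk
      rw [mem_supp] at hk ⊢
      intro h
      apply hk
      have h1 : f k (b - c2) = 0 := by rw [map_sub, h, hc2b k (hc'b k h), sub_zero]
      rcases hd2 k with h | h
      · exact h
      · rw [h, h1]; rfl
  have := hmin d hd1 hdconf
  omega

/-- conformal decomposition -/
def IsDec (f : K → Λ →+ ℤ) (a : Λ) {n : ℕ} (b : Fin n → Λ) : Prop :=
  (∀ i, Elem f (b i) ∧ Conf f (b i) a) ∧ ∀ k, ∑ i, f k (b i) = f k a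

theorem exists_dec_aux {f : K → Λ →+ ℤ} (hf : Regular f) : ∀ (m : ℕ) (a : Λ),
    ∑ k, (f k a).natAbs ≤ m → ∃ (n : ℕ) (b : Fin n → Λ), IsDec f a b := by
  intro m
  induction m with
  | zero =>
    intro a ha
    refine ⟨0, Fin.elim0, fun i => i.elim0, fun k => ?_⟩
    have := single_le_sum (f := fun k => (f k a).natAbs) (fun i _ => Nat.zero_le _) (mem_univ k)
    simp only [univ_eq_empty, sum_empty]
    omega
  | succ m ih =>
    intro a ha
    by_cases h0 : ∃ k, f k a ≠ 0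
    · obtain ⟨c, hc1, hc2⟩ := exists_elem hf h0
      have hle : ∀ k, (f k (a - c)).natAbs ≤ (f k a).natAbs := by
        intro k
        rw [map_sub]
        rcases hc2 k with h | h
        · rw [h]; simp
        · rcases sign_trich (f k a) with h1 | h1 | h1 <;> rw [h, h1.2] <;> omega
      obtain ⟨k0, hk0⟩ := hc1.1
      have hlt : (f k0 (a - c)).natAbs < (f k0 a).natAbs := by
        rw [map_sub]
        rcases hc2 k0 with h | h
        · exact absurd h hk0
        · rcases sign_trich (f k0 a) with h1 | h1 | h1 <;> rw [h, h1.2] <;> rw [h, h1.2] at hk0 <;>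
            omega
      have hsum := sum_lt_sum (fun k _ => hle k) ⟨k0, mem_univ k0, hlt⟩
      obtain ⟨n, b, hb1, hb2⟩ := ih (a - c) (by omega)
      refine ⟨n + 1, Fin.cons c b, fun i => ?_, fun k => ?_⟩
      · refine Fin.cases ?_ (fun i => ?_) i
        · rw [Fin.cons_zero]; exact ⟨hc1, hc2⟩
        · rw [Fin.cons_succ]
          refine ⟨(hb1 i).1, fun k => ?_⟩
          rcases (hb1 i).2 k with h | h
          · left; exact h
          · rw [map_sub] at h
            rcases hc2 k with h' | h'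
            · right; rw [h, h', sub_zero]
            · rcases sign_trich (f k a) with h1 | h1 | h1
              · left; rw [h, h', h1.2, h1.1]; rfl
              · rw [h', h1.2] at h
                rw [h1.2]
                rcases sign_trich (f k a - 1) with h2 | h2 | h2 <;> omega
              · rw [h', h1.2] at h
                rw [h1.2]
                rcases sign_trich (f k a - -1) with h2 | h2 | h2 <;> omega
      · rw [Fin.sum_univ_succ]
        simp only [Fin.cons_zero, Fin.cons_succ]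
        rw [hb2, map_sub]
        ring
    · push Not at h0
      exact ⟨0, Fin.elim0, fun i => i.elim0, fun k => by simp [h0 k]⟩

theorem exists_dec {f : K → Λ →+ ℤ} (hf : Regular f) (a : Λ) :
    ∃ (n : ℕ) (b : Fin n → Λ), IsDec f a b := exists_dec_aux hf _ a le_rfl

theorem Conf.sq {f : K → Λ →+ ℤ} {b a : Λ} (h : Conf f b a) (k : K) :
    f k b * f k b = f k b * (f k a).sign := by
  rcases h k with h1 | h1
  · rw [h1]; ring
  · rw [← h1]

theorem IsDec.sum_sq {f : K → Λ →+ ℤ} {a : Λ} {n : ℕ} {b : Fin n → Λ} (h : IsDec f a b) (k : K) :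
    ∑ i, f k (b i) * f k (b i) = |f k a| := by
  rw [sum_congr rfl fun i _ => (h.1 i).2.sq k, ← sum_mul, h.2]
  rcases sign_trich (f k a) with h1 | h1 | h1
  · rw [h1.1]; simp
  · rw [h1.2, abs_of_pos h1.1]; ring
  · rw [h1.2, abs_of_neg h1.1]; ring

/-- the scalar product -/
def ip (p : K → ℤ) (f : K → Λ →+ ℤ) (a b : Λ) : ℤ := ∑ k, p k * (f k a * f k b)

theorem ip_comm (p : K → ℤ) (f : K → Λ →+ ℤ) (a b : Λ) : ip p f a b = ip p f b a :=
  sum_congr rfl fun k _ => by ring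

theorem ip_add (p : K → ℤ) (f : K → Λ →+ ℤ) (a b c : Λ) :
    ip p f (a + b) c = ip p f a c + ip p f b c := by
  rw [ip, ip, ip, ← sum_add_distrib]
  exact sum_congr rfl fun k _ => by rw [map_add]; ring

theorem ip_sub (p : K → ℤ) (f : K → Λ →+ ℤ) (a b c : Λ) :
    ip p f a (b - c) = ip p f a b - ip p f a c := by
  rw [ip, ip, ip, ← sum_sub_distrib]
  exact sum_congr rfl fun k _ => by rw [map_sub]; ring

theorem ip_nonneg {p : K → ℤ} (hp : ∀ k, 3 ≤ p k) (f : K → Λ →+ ℤ) (a : Λ) : 0 ≤ ip p f a a :=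
  sum_nonneg fun k _ => mul_nonneg (by linarith [hp k]) (mul_self_nonneg _)

theorem ip_pos {p : K → ℤ} (hp : ∀ k, 3 ≤ p k) {f : K → Λ →+ ℤ} {a : Λ} (h : ∃ k, f k a ≠ 0) :
    3 ≤ ip p f a a := by
  obtain ⟨k, hk⟩ := h
  have h1 : p k * (f k a * f k a) ≤ ip p f a a :=
    single_le_sum (f := fun k => p k * (f k a * f k a))
      (fun k _ => mul_nonneg (by linarith [hp k]) (mul_self_nonneg _)) (mem_univ k)
  have h2 : 1 ≤ f k a * f k a := by
    rcases lt_or_gt_of_ne hk with h | h <;> nlinarith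
  nlinarith [hp k]

/-- the norm of a sum of conformal vectors -/
theorem IsDec.norm {p : K → ℤ} {f : K → Λ →+ ℤ} {a : Λ} {n : ℕ} {b : Fin n → Λ}
    (h : IsDec f a b) : ip p f a a - ∑ i, ip p f (b i) (b i) =
      ∑ k, p k * (f k a * f k a - |f k a|) := by
  have h1 : ∑ i, ip p f (b i) (b i) = ∑ k, p k * |f k a| := by
    simp only [ip]
    rw [sum_comm]
    refine sum_congr rfl fun k _ => ?_
    rw [← mul_sum, h.sum_sq]
  rw [h1, ip, ← sum_sub_distrib]
  exact sum_congr rfl fun k _ => by ring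

theorem abs_le_sq (x : ℤ) : |x| ≤ x * x := by
  rcases eq_or_ne x 0 with h | h
  · rw [h]; simp
  · have := Int.one_le_abs h
    rw [← abs_mul_abs_self]
    nlinarith

theorem IsDec.norm_le {p : K → ℤ} (hp : ∀ k, 3 ≤ p k) {f : K → Λ →+ ℤ} {a : Λ} {n : ℕ}
    {b : Fin n → Λ} (h : IsDec f a b) : ∑ i, ip p f (b i) (b i) ≤ ip p f a a := by
  have h1 := h.norm (p := p)
  have h2 : 0 ≤ ∑ k, p k * (f k a * f k a - |f k a|) :=
    sum_nonneg fun k _ => mul_nonneg (by linarith [hp k]) (by linarith [abs_le_sq (f k a)])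
  linarith

/-- the norm of one part -/
theorem IsDec.norm_part {p : K → ℤ} (hp : ∀ k, 3 ≤ p k) {f : K → Λ →+ ℤ} {a : Λ} {n : ℕ}
    {b : Fin n → Λ} (h : IsDec f a b) (i : Fin n) :
    ip p f (b i) (b i) + 3 * ((n : ℤ) - 1) ≤ ip p f a a := by
  classical
  have h1 := h.norm_le hp
  rw [← add_sum_erase univ _ (mem_univ i)] at h1
  have h2 : ∑ _l ∈ (univ : Finset (Fin n)).erase i, (3 : ℤ) ≤
      ∑ l ∈ univ.erase i, ip p f (b l) (b l) :=
    sum_le_sum fun l _ => ip_pos hp (h.1 l).1.1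
  rw [sum_const, card_erase_of_mem (mem_univ i), card_univ, Fintype.card_fin,
    nsmul_eq_mul, Nat.cast_sub (by have := i.2; omega)] at h2
  push_cast at h2
  linarith

/-- the norm of two parts -/
theorem IsDec.norm_two {p : K → ℤ} (hp : ∀ k, 3 ≤ p k) {f : K → Λ →+ ℤ} {a : Λ} {n : ℕ}
    {b : Fin n → Λ} (h : IsDec f a b) {i j : Fin n} (hij : i ≠ j) :
    ip p f (b i) (b i) + ip p f (b j) (b j) + 3 * ((n : ℤ) - 2) ≤ ip p f a a := by
  classical
  have h1 := h.norm_le hp
  rw [← add_sum_erase univ _ (mem_univ i),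
    ← add_sum_erase (univ.erase i) _ (mem_erase.2 ⟨hij.symm, mem_univ j⟩)] at h1
  have h2 : ∑ _l ∈ ((univ : Finset (Fin n)).erase i).erase j, (3 : ℤ) ≤
      ∑ l ∈ (univ.erase i).erase j, ip p f (b l) (b l) :=
    sum_le_sum fun l _ => ip_pos hp (h.1 l).1.1
  have hn : 2 ≤ n := by
    have h3 := i.2
    have h4 := j.2
    have h5 : (i : ℕ) ≠ j := fun h' => hij (Fin.ext h')
    omega
  rw [sum_const, card_erase_of_mem (mem_erase.2 ⟨hij.symm, mem_univ j⟩),
    card_erase_of_mem (mem_univ i), card_univ, Fintype.card_fin, nsmul_eq_mul,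
    Nat.sub_sub, Nat.cast_sub (by omega)] at h2
  push_cast at h2
  linarith

theorem elem_congr {f : K → Λ →+ ℤ} {a b : Λ} (h : ∀ k, f k a = f k b)
    (ha : Elem f a) : Elem f b := by
  obtain ⟨⟨k, hk⟩, h2, h3⟩ := ha
  refine ⟨⟨k, by rwa [← h]⟩, fun k => by rw [← h]; exact h2 k, fun c hc hcb k hk => ?_⟩
  rw [← h]
  exact h3 c hc (fun k hk => hcb k (by rw [← h]; exact hk)) k hk

/-- a vector which is not elementary has at least two parts -/
theorem IsDec.two_le {f : K → Λ →+ ℤ} {a : Λ} {n : ℕ} {b : Fin n → Λ} (hb : IsDec f a b)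
    (h : ∃ i, f i a ≠ 0) (hna : ¬ Elem f a) : 2 ≤ n := by
  by_contra hcon
  have : n = 0 ∨ n = 1 := by omega
  rcases this with rfl | rfl
  · obtain ⟨i, hi⟩ := h
    apply hi
    rw [← hb.2 i]
    simp
  · apply hna
    refine elem_congr (fun i => ?_) (hb.1 0).1
    rw [← hb.2 i]
    simp

/-- the other parts do not cancel -/
theorem IsDec.rest {f : K → Λ →+ ℤ} {a : Λ} {n : ℕ} {b : Fin n → Λ} (hb : IsDec f a b)
    (hn : 2 ≤ n) (k : Fin n) : ∃ i, f i (a - b k) ≠ 0 := by
  classical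
  obtain ⟨l, hl⟩ : ∃ l : Fin n, l ≠ k := by
    by_cases h0 : (k : ℕ) = 0
    · exact ⟨⟨1, by omega⟩, fun h' => by rw [← h'] at h0; simp at h0⟩
    · exact ⟨⟨0, by omega⟩, fun h' => by rw [← h'] at h0; simp at h0⟩
  obtain ⟨i, hi⟩ := (hb.1 l).1.1
  refine ⟨i, ?_⟩
  rw [map_sub, ← hb.2 i, ← add_sum_erase univ _ (mem_univ k), add_sub_cancel_left]
  have hs : ∀ m, 0 ≤ f i (b m) * (f i a).sign := by
    intro m
    rw [← (hb.1 m).2.sq i]
    exact mul_self_nonneg _
  intro h0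
  have h1 : ∑ m ∈ univ.erase k, f i (b m) * (f i a).sign = 0 := by
    rw [← sum_mul, h0, zero_mul]
  have h2 := (sum_eq_zero_iff_of_nonneg fun m _ => hs m).1 h1 l (mem_erase.2 ⟨hl, mem_univ l⟩)
  rw [← (hb.1 l).2.sq i] at h2
  exact hi (mul_self_eq_zero.1 h2)

/-- parts of a conformal decomposition have nonnegative products -/
theorem IsDec.prod_nonneg {f : K → Λ →+ ℤ} {a : Λ} {n : ℕ} {b : Fin n → Λ} (hb : IsDec f a b)
    (k l : Fin n) (i : K) : 0 ≤ f i (b k) * f i (b l) := by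
  rcases (hb.1 k).2 i with h1 | h1
  · rw [h1, zero_mul]
  · rcases (hb.1 l).2 i with h2 | h2
    · rw [h2, mul_zero]
    · rw [h1, h2]
      exact mul_self_nonneg _

end Pool.Agent.H758.TR
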