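import Pool.Agent.H762.TG.Conf
import Pool.Agent.H758.TR.Elem

/-!
Lemmas on the cuts and flows of a graph.
-/

set_option autoImplicit false
set_option linter.unusedSectionVars false

namespace Pool.Agent.H758.TR

open Finset Matrix
open Pool.Agent.H762.TG

variable {V E : Type} [Fintype V] [Fintype E] [DecidableEq V] [DecidableEq E]
  (G : Multigraph V E)

/-- `u` and `v` are joined by a chain in `A` -/
def ConnIn (A : Finset E) (u v : V) : Prop :=
  ∃ w : E → ℤ, (∀ e, e ∉ A → w e = 0) ∧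
    ∀ z, G.bd w z = (if z = v then 1 else 0) - (if z = u then 1 else 0)

/-- connectedness is an equivalence relation -/
def connInSetoid (A : Finset E) : Setoid V where
  r := ConnIn G A
  iseqv := by
    refine ⟨fun u => ⟨0, fun _ _ => rfl, fun z => by simp [Multigraph.bd]⟩, ?_, ?_⟩
    · rintro u v ⟨w, h, hw⟩
      refine ⟨-w, fun e he => by rw [Pi.neg_apply, h e he, neg_zero], fun z => ?_⟩
      rw [Multigraph.bd_neg, Pi.neg_apply, hw]; ring
    · rintro u v v' ⟨w, h, hw⟩ ⟨w', h', hw'⟩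
      refine ⟨w + w', fun e he => by rw [Pi.add_apply, h e he, h' e he, add_zero], fun z => ?_⟩
      rw [Multigraph.bd_add, Pi.add_apply, hw, hw']; ring

/-- representatives of the components -/
theorem exists_reps (A : Finset E) : ∃ (r : V → V) (w : V → E → ℤ),
    (∀ e ∈ A, r (G.src e) = r (G.tgt e)) ∧ (∀ v e, e ∉ A → w v e = 0) ∧
    ∀ v z, G.bd (w v) z = (if z = v then 1 else 0) - (if z = r v then 1 else 0) := by
  classical
  let r : V → V := fun v => (Quotient.mk (connInSetoid G A) v).out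
  have hr : ∀ v, ConnIn G A (r v) v := fun v =>
    Quotient.exact (s := connInSetoid G A) (Quotient.out_eq _)
  choose w hw0 hw using hr
  refine ⟨r, w, fun e he => ?_, hw0, hw⟩
  have h1 : ConnIn G A (G.src e) (G.tgt e) :=
    ⟨Pi.single e 1, fun f hf => Pi.single_eq_of_ne (fun h : f = e => hf (by rw [h]; exact he)) _,
      G.bd_single e⟩
  change (Quotient.mk (connInSetoid G A) (G.src e)).out =
    (Quotient.mk (connInSetoid G A) (G.tgt e)).out
  rw [Quotient.sound (s := connInSetoid G A) h1]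

/-- boundaries of chains in `A` -/
theorem bd_of_orth (A : Finset E) (d : V → ℤ)
    (h : ∀ f : V → ℤ, (∀ e ∈ A, f (G.tgt e) = f (G.src e)) → f ⬝ᵥ d = 0) :
    ∃ w : E → ℤ, (∀ e, e ∉ A → w e = 0) ∧ G.bd w = d := by
  classical
  obtain ⟨r, w, hr, hw0, hw⟩ := exists_reps G A
  refine ⟨∑ u, d u • w u, fun e he => ?_, ?_⟩
  · rw [Finset.sum_apply]
    exact sum_eq_zero fun u _ => by rw [Pi.smul_apply, hw0 u e he, smul_zero]
  · funext z
    have h1 : G.bd (∑ u, d u • w u) = ∑ u, d u • G.bd (w u) := by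
      change G.bdL (∑ u, d u • w u) = ∑ u, d u • G.bdL (w u)
      rw [map_sum]
      exact sum_congr rfl fun u _ => map_smul _ _ _
    rw [h1, Finset.sum_apply]
    have h2 : ∀ u, (d u • G.bd (w u)) z = (if z = u then d u else 0) -
        (if z = r u then 1 else 0) * d u := by
      intro u
      rw [Pi.smul_apply, hw, smul_eq_mul]
      split_ifs <;> ring
    rw [sum_congr rfl fun u _ => h2 u, sum_sub_distrib, sum_ite_eq univ z, if_pos (mem_univ z)]
    have h3 := h (fun u => if z = r u then 1 else 0) fun e he => by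
      simp only [hr e he]
    rw [dotProduct] at h3
    rw [h3, sub_zero]

/-- A chain can be completed to a flow on `A`. -/
theorem exists_flow (A : Finset E) (y : E → ℤ)
    (h : ∀ x ∈ G.cuts, (∀ e ∈ A, x e = 0) → x ⬝ᵥ y = 0) :
    ∃ z, G.IsFlow z ∧ ∀ e, e ∉ A → z e = y e := by
  obtain ⟨w, hw0, hw⟩ := bd_of_orth G A (-G.bd y) fun f hf => by
    rw [dotProduct_neg, ← G.cut_dot, neg_eq_zero]
    exact h _ (G.mem_cuts.2 ⟨f, rfl⟩) fun e he => by rw [Multigraph.cut, hf e he, sub_self]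
  refine ⟨y + w, ?_, fun e he => by rw [Pi.add_apply, hw0 e he, add_zero]⟩
  rw [G.isFlow_iff, G.bd_add, hw, add_neg_cancel]

/-- A function on `A` can be completed to a cut. -/
theorem exists_cut (A : Finset E) (y : E → ℤ)
    (h : ∀ z, G.IsFlow z → (∀ e, e ∉ A → z e = 0) → y ⬝ᵥ z = 0) :
    ∃ x ∈ G.cuts, ∀ e ∈ A, x e = y e := by
  classical
  obtain ⟨r, w, hr, hw0, hw⟩ := exists_reps G A
  refine ⟨G.cut fun v => y ⬝ᵥ w v, G.mem_cuts.2 ⟨_, rfl⟩, fun e he => ?_⟩
  have h1 := h (w (G.tgt e) - w (G.src e) - Pi.single e 1) (by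
    rw [G.isFlow_iff]
    funext z
    rw [G.bd_sub, G.bd_sub, Pi.sub_apply, Pi.sub_apply, hw, hw, G.bd_single, hr e he]
    simp) (fun f hf => by
      have hfe : f ≠ e := fun h' => hf (by rw [h']; exact he)
      rw [Pi.sub_apply, Pi.sub_apply, hw0 _ f hf, hw0 _ f hf, Pi.single_eq_of_ne hfe]
      simp)
  rw [dotProduct_sub, dotProduct_sub, dotProduct_single, mul_one] at h1
  rw [Multigraph.cut]
  linarith

/-- the coboundary as a map to the lattice of cuts -/
def cutM : (V → ℤ) →ₗ[ℤ] G.cuts := G.cutL.codRestrict G.cuts fun y => G.mem_cuts.2 ⟨y, rfl⟩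

theorem cutM_apply (y : V → ℤ) : (cutM G y : E → ℤ) = G.cut y := rfl

/-- a functional on the lattice of cuts in terms of potentials -/
theorem functional_eq (s : G.cuts →ₗ[ℤ] ℤ) (y : V → ℤ) :
    s (cutM G y) = ∑ v, y v * s (cutM G (Pi.single v 1)) := by
  have h1 : y = ∑ v, y v • (Pi.single v (1 : ℤ) : V → ℤ) := by
    funext u
    rw [Finset.sum_apply]
    simp only [Pi.smul_apply, Pi.single_apply, smul_eq_mul, mul_ite, mul_one, mul_zero,
      sum_ite_eq, mem_univ, if_true]
  conv_lhs => rw [h1]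
  rw [map_sum, map_sum]
  exact sum_congr rfl fun v _ => by rw [map_smul, map_smul, smul_eq_mul]

/-- functionals on the lattice of cuts which vanish on the cuts vanishing on `A` -/
theorem exists_repr (A : Finset E) (s : G.cuts →ₗ[ℤ] ℤ)
    (h : ∀ x : G.cuts, (∀ e ∈ A, (x : E → ℤ) e = 0) → s x = 0) :
    ∃ β : E → ℤ, (∀ e, e ∉ A → β e = 0) ∧ ∀ x : G.cuts, s x = (x : E → ℤ) ⬝ᵥ β := by
  obtain ⟨β, hβ0, hβ⟩ := bd_of_orth G A (fun v => s (cutM G (Pi.single v 1))) fun f hf => by
    rw [dotProduct, ← functional_eq]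
    exact h _ fun e he => by rw [cutM_apply, Multigraph.cut, hf e he, sub_self]
  refine ⟨β, hβ0, fun x => ?_⟩
  obtain ⟨x, hx⟩ := x
  obtain ⟨y, rfl⟩ := G.mem_cuts.1 hx
  change s (cutM G y) = G.cut y ⬝ᵥ β
  rw [functional_eq, G.cut_dot, hβ]
  rfl

/-- conformal unit cuts -/
theorem exists_conf_cut {x : E → ℤ} (hx : x ∈ G.cuts) {e : E} (he : x e ≠ 0) :
    ∃ u ∈ G.cuts, (∀ f, u f = 0 ∨ u f = (x f).sign) ∧ u e = (x e).sign := by
  obtain ⟨y, rfl⟩ := G.mem_cuts.1 hx
  let t : ℤ := max (y (G.tgt e)) (y (G.src e))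
  refine ⟨G.cut fun v => if t ≤ y v then 1 else 0, G.mem_cuts.2 ⟨_, rfl⟩, fun f => ?_, ?_⟩
  · simp only [Multigraph.cut]
    rcases sign_trich (y (G.tgt f) - y (G.src f)) with h | h | h <;> rw [h.2] <;>
      split_ifs <;> omega
  · simp only [Multigraph.cut] at he ⊢
    rcases sign_trich (y (G.tgt e) - y (G.src e)) with h | h | h
    · exact absurd h.1 he
    · rw [h.2, if_pos, if_neg]
      · norm_num
      · simp only [t]
        rw [max_eq_left (by omega)]
        omega
      · simp only [t]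
        rw [max_eq_left (by omega)]
    · rw [h.2, if_neg, if_pos]
      · norm_num
      · simp only [t]
        rw [max_eq_right (by omega)]
      · simp only [t]
        rw [max_eq_right (by omega)]
        omega

/-- Functionals on the lattice of cuts which are bounded by `1` on the cuts bounded by `1` on `T`
are given by edges of `T`. -/
theorem functional_edge (T : Finset E) (s : G.cuts →ₗ[ℤ] ℤ) (hs : s ≠ 0)
    (h : ∀ x : G.cuts, (∀ P ∈ T, |(x : E → ℤ) P| ≤ 1) → |s x| ≤ 1) :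
    ∃ P ∈ T, (∀ x : G.cuts, s x = (x : E → ℤ) P) ∨ ∀ x : G.cuts, s x = -(x : E → ℤ) P := by
  classical
  let σ : V → ℤ := fun v => s (cutM G (Pi.single v 1))
  have hσ : ∀ y : V → ℤ, s (cutM G y) = ∑ v, y v * σ v := functional_eq G s
  -- sets
  have hX : ∀ X : Finset V, |∑ v ∈ X, σ v| ≤ 1 := by
    intro X
    have h1 : s (cutM G fun v => if v ∈ X then 1 else 0) = ∑ v ∈ X, σ v := by
      rw [hσ]
      simp only [ite_mul, one_mul, zero_mul]
      rw [← sum_filter]
      congr 1
      ext v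
      simp
    rw [← h1]
    apply h
    intro P _
    rw [cutM_apply, Multigraph.cut]
    split_ifs <;> norm_num
  have htot : ∑ v, σ v = 0 := by
    have h1 : s (cutM G fun _ => 1) = ∑ v, σ v := by rw [hσ]; simp
    rw [← h1]
    have h2 : cutM G (fun _ => (1 : ℤ)) = 0 := by
      apply Subtype.ext
      funext e
      rw [cutM_apply, Multigraph.cut, sub_self]
      rfl
    rw [h2, map_zero]
  -- a vertex with a nonzero value
  have hne : ∃ v, σ v ≠ 0 := by
    by_contra hcon
    push Not at hcon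
    apply hs
    ext ⟨x, hx⟩
    obtain ⟨y, rfl⟩ := G.mem_cuts.1 hx
    change s (cutM G y) = 0
    rw [hσ]
    exact sum_eq_zero fun v _ => by rw [hcon v, mul_zero]
  have hone : ∀ v, |σ v| ≤ 1 := fun v => by
    have := hX {v}
    rwa [sum_singleton] at this
  have huniq : ∀ u v, u ≠ v → σ u = σ v → σ u = 0 := by
    intro u v huv he
    have h1 := hX {u, v}
    rw [sum_pair huv, ← he, abs_le] at h1
    omega
  -- exactly one positive and one negative vertex
  obtain ⟨b, hb⟩ : ∃ b, σ b = 1 := by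
    by_contra hcon
    push Not at hcon
    have h1 : ∀ v ∈ (univ : Finset V), σ v ≤ 0 := fun v _ => by
      have := abs_le.1 (hone v)
      have := hcon v
      omega
    obtain ⟨v, hv⟩ := hne
    exact hv ((sum_eq_zero_iff_of_nonpos h1).1 htot v (mem_univ v))
  obtain ⟨a, ha⟩ : ∃ a, σ a = -1 := by
    by_contra hcon
    push Not at hcon
    have h1 : ∀ v ∈ (univ : Finset V), 0 ≤ σ v := fun v _ => by
      have := abs_le.1 (hone v)
      have := hcon v
      omega
    have := (sum_eq_zero_iff_of_nonneg h1).1 htot b (mem_univ b)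
    omega
  have hab : a ≠ b := fun h' => by rw [h'] at ha; omega
  have hz : ∀ v, v ≠ a → v ≠ b → σ v = 0 := by
    intro v hva hvb
    have h1 := abs_le.1 (hone v)
    by_contra h0
    have h2 : σ v = 1 ∨ σ v = -1 := by omega
    rcases h2 with h2 | h2
    · exact h0 (huniq v b hvb (by rw [h2, hb]))
    · exact h0 (huniq v a hva (by rw [h2, ha]))
  have hval : ∀ y : V → ℤ, s (cutM G y) = y b - y a := by
    intro y
    rw [hσ, ← add_sum_erase univ _ (mem_univ b),
      ← add_sum_erase (univ.erase b) _ (mem_erase.2 ⟨hab, mem_univ a⟩), sum_eq_zero, ha, hb]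
    · ring
    · intro v hv
      rw [mem_erase, mem_erase] at hv
      rw [hz v hv.1 hv.2.1, mul_zero]
  -- the distance
  let adj : V → Prop := fun v => ∃ P ∈ T, (G.src P = a ∧ G.tgt P = v) ∨ (G.tgt P = a ∧ G.src P = v)
  let dst : V → ℤ := fun v => if v = a then 0 else if adj v then 1 else 2
  have h1 := h (cutM G dst) (by
    intro P hP
    rw [cutM_apply, Multigraph.cut]
    simp only [dst]
    by_cases h1 : G.src P = a
    · have h2 : adj (G.tgt P) := ⟨P, hP, Or.inl ⟨h1, rfl⟩⟩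
      rw [if_pos h1, if_pos h2]
      split_ifs <;> norm_num
    · by_cases h3 : G.tgt P = a
      · have h2 : adj (G.src P) := ⟨P, hP, Or.inr ⟨h3, rfl⟩⟩
        rw [if_pos h3, if_neg h1, if_pos h2]
        norm_num
      · rw [if_neg h1, if_neg h3]
        split_ifs <;> norm_num)
  rw [hval] at h1
  have h2 : adj b := by
    by_contra hcon
    have e1 : dst b = 2 := by simp only [dst]; rw [if_neg hab.symm, if_neg hcon]
    have e2 : dst a = 0 := if_pos rfl
    rw [e1, e2] at h1
    norm_num at h1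
  obtain ⟨P, hP, h3 | h3⟩ := h2
  · refine ⟨P, hP, Or.inl fun ⟨x, hx⟩ => ?_⟩
    obtain ⟨y, rfl⟩ := G.mem_cuts.1 hx
    change s (cutM G y) = G.cut y P
    rw [hval, Multigraph.cut, h3.1, h3.2]
  · refine ⟨P, hP, Or.inr fun ⟨x, hx⟩ => ?_⟩
    obtain ⟨y, rfl⟩ := G.mem_cuts.1 hx
    change s (cutM G y) = -G.cut y P
    rw [hval, Multigraph.cut, h3.1, h3.2]
    ring

/-- Two unit cuts which meet in `T` only in the edge `P₀`. -/
theorem exists_two_cuts (T : Finset E) {P₀ : E} (hloop : G.src P₀ ≠ G.tgt P₀)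
    (hpar : ∀ P ∈ T, P ≠ P₀ → ¬ ((G.src P = G.src P₀ ∧ G.tgt P = G.tgt P₀) ∨
      (G.src P = G.tgt P₀ ∧ G.tgt P = G.src P₀))) :
    ∃ w w' : E → ℤ, w ∈ G.cuts ∧ w' ∈ G.cuts ∧ (∀ e, |w e| ≤ 1) ∧ (∀ e, |w' e| ≤ 1) ∧
      w P₀ = 1 ∧ w' P₀ = 1 ∧ ∀ P ∈ T, P ≠ P₀ → w P = 0 ∨ w' P = 0 := by
  classical
  set a := G.src P₀ with ha
  set b := G.tgt P₀ with hb
  let nb : V → Prop := fun v => ∃ P ∈ T, P ≠ P₀ ∧
    ((G.src P = a ∧ G.tgt P = v) ∨ (G.tgt P = a ∧ G.src P = v))
  have hnb : ¬ nb b := by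
    rintro ⟨P, hP, hne, h | h⟩
    · exact hpar P hP hne (Or.inl h)
    · exact hpar P hP hne (Or.inr ⟨h.2, h.1⟩)
  refine ⟨G.cut fun v => if v = a then 0 else 1, G.cut fun v => if v = a ∨ nb v then 0 else 1,
    G.mem_cuts.2 ⟨_, rfl⟩, G.mem_cuts.2 ⟨_, rfl⟩, fun e => ?_, fun e => ?_, ?_, ?_,
    fun P hP hne => ?_⟩
  · simp only [Multigraph.cut]
    split_ifs <;> norm_num
  · simp only [Multigraph.cut]
    split_ifs <;> norm_num
  · simp only [Multigraph.cut]
    rw [if_pos ha.symm, if_neg]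
    · norm_num
    · exact fun h => hloop h.symm
  · simp only [Multigraph.cut]
    rw [if_pos (Or.inl ha.symm), if_neg]
    · norm_num
    · rintro (h | h)
      · exact hloop h.symm
      · exact hnb h
  · simp only [Multigraph.cut]
    by_cases h1 : G.src P = a
    · right
      have h2 : nb (G.tgt P) := ⟨P, hP, hne, Or.inl ⟨h1, rfl⟩⟩
      rw [if_pos (Or.inl h1), if_pos (Or.inr h2), sub_self]
    · by_cases h3 : G.tgt P = a
      · right
        have h2 : nb (G.src P) := ⟨P, hP, hne, Or.inr ⟨h3, rfl⟩⟩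
        rw [if_pos (Or.inl h3), if_pos (Or.inr h2), sub_self]
      · left
        rw [if_neg h1, if_neg h3, sub_self]

end Pool.Agent.H758.TR
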