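import Pool.Agent.H762.MX.Emb

/-!
The form of an isometric embedding of a blown up lattice.
-/

set_option autoImplicit false
set_option linter.unusedSectionVars false

namespace Pool.Agent.H758.TR

open Finset Matrix
open Pool.Agent.H762.MX
open Pool.Agent.H762.TG (chains)

variable {E : Type} [Fintype E] [DecidableEq E]

/-- the projection to `L` -/
def pr (L : Submodule ℤ (E → ℤ)) (S : Finset E) (ℓ : E → ℕ) (hpos : ∀ e, 0 < ℓ e) :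
    blowup L S ℓ →ₗ[ℤ] L :=
  ((rho S ℓ hpos) ∘ₗ (blowup L S ℓ).subtype).codRestrict L fun z => rho_mem L S ℓ hpos z

theorem pr_in {L : Submodule ℤ (E → ℤ)} {S : Finset E} {ℓ : E → ℕ} {hpos : ∀ e, 0 < ℓ e}
    (z : blowup L S ℓ) {e : E} (he : e ∈ S) :
    ∑ i, (z : (Σ e, Fin (ℓ e)) → ℤ) ⟨e, i⟩ = (pr L S ℓ hpos z : E → ℤ) e := by
  change _ = rho S ℓ hpos z e
  change _ = if e ∈ S then _ else _
  rw [if_pos he]

theorem pr_out {L : Submodule ℤ (E → ℤ)} {S : Finset E} {ℓ : E → ℕ} {hpos : ∀ e, 0 < ℓ e}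
    (z : blowup L S ℓ) {e : E} (he : e ∉ S) (i : Fin (ℓ e)) :
    (z : (Σ e, Fin (ℓ e)) → ℤ) ⟨e, i⟩ = (pr L S ℓ hpos z : E → ℤ) e := by
  obtain ⟨x, hx, h1, h2⟩ := z.2
  change _ = rho S ℓ hpos z e
  rw [rho_eq (L := L) S ℓ hpos h1 h2]
  exact h2 e he i

theorem pr_sec {L : Submodule ℤ (E → ℤ)} {S : Finset E} {ℓ : E → ℕ} {hpos : ∀ e, 0 < ℓ e}
    (x : L) : pr L S ℓ hpos (sec L S ℓ hpos x) = x := by
  apply Subtype.ext
  funext e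
  by_cases he : e ∈ S
  · rw [← pr_in _ he, sum_eq_single (⟨0, hpos e⟩ : Fin (ℓ e))]
    · rw [sec_apply, if_neg]; simp
    · intro j _ hj
      rw [sec_apply, if_pos]
      exact ⟨he, fun h => hj (Fin.ext h)⟩
    · intro h'; exact absurd (mem_univ _) h'
  · rw [← pr_out _ he ⟨0, hpos e⟩, sec_apply, if_neg]
    exact fun h => he h.1

/-- The block form of an embedding. -/
structure IsBlock {L : Submodule ℤ (E → ℤ)} {S : Finset E} {ℓ : E → ℕ} (hpos : ∀ e, 0 < ℓ e)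
    {ι : Type} (φ : blowup L S ℓ →ₗ[ℤ] (ι → ℤ)) (c : E → L →ₗ[ℤ] ℤ)
    (B : (Σ e : S, Fin (ℓ e)) ≃ ι) (ε : (Σ e : S, Fin (ℓ e)) → ℤ) : Prop where
  sq : ∀ k, ε k * ε k = 1
  form : ∀ (z : blowup L S ℓ) k, ε k * φ z (B k) =
    (z : (Σ e, Fin (ℓ e)) → ℤ) ⟨k.1, k.2⟩ + c k.1 (pr L S ℓ hpos z)

theorem sum_over {L : Submodule ℤ (E → ℤ)} {S : Finset E} {ℓ : E → ℕ} {hpos : ∀ e, 0 < ℓ e}
    {ι : Type} [Fintype ι] {φ : blowup L S ℓ →ₗ[ℤ] (ι → ℤ)} {c : E → L →ₗ[ℤ] ℤ}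
    {B : (Σ e : S, Fin (ℓ e)) ≃ ι} {ε : (Σ e : S, Fin (ℓ e)) → ℤ} (h : IsBlock hpos φ c B ε)
    (z z' : blowup L S ℓ) : φ z ⬝ᵥ φ z' = ∑ e : S, ∑ i : Fin (ℓ e),
      ((z : (Σ e, Fin (ℓ e)) → ℤ) ⟨e, i⟩ + c e (pr L S ℓ hpos z)) *
      ((z' : (Σ e, Fin (ℓ e)) → ℤ) ⟨e, i⟩ + c e (pr L S ℓ hpos z')) := by
  rw [dotProduct, ← B.sum_comp, Fintype.sum_sigma]
  refine sum_congr rfl fun e _ => sum_congr rfl fun i _ => ?_
  have h1 := h.form z ⟨e, i⟩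
  have h2 := h.form z' ⟨e, i⟩
  simp only at h1 h2
  rw [← h1, ← h2]
  have h3 := h.sq ⟨e, i⟩
  calc φ z (B ⟨e, i⟩) * φ z' (B ⟨e, i⟩) =
      (ε ⟨e, i⟩ * ε ⟨e, i⟩) * (φ z (B ⟨e, i⟩) * φ z' (B ⟨e, i⟩)) := by rw [h3, one_mul]
    _ = _ := by ring

theorem dot_split {S T : Finset E} (hST : ∀ e, e ∈ T ↔ e ∉ S) {ℓ : E → ℕ}
    (z z' : (Σ e, Fin (ℓ e)) → ℤ) : z ⬝ᵥ z' = ∑ e : S, ∑ i : Fin (ℓ e), z ⟨e, i⟩ * z' ⟨e, i⟩ +
      ∑ e ∈ T, ∑ i : Fin (ℓ e), z ⟨e, i⟩ * z' ⟨e, i⟩ := by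
  rw [dotProduct, Fintype.sum_sigma]
  have hdisj : Disjoint S T := by
    rw [disjoint_left]
    intro e he he'
    exact (hST e).1 he' he
  have huniv : (univ : Finset E) = S ∪ T := by
    ext e
    rw [mem_union, hST e]
    simp [em]
  rw [huniv, sum_union hdisj]
  congr 1
  exact (sum_coe_sort S fun e => ∑ i : Fin (ℓ e), z ⟨e, i⟩ * z' ⟨e, i⟩).symm

/-- the norm identity -/
theorem IsBlock.quad {L : Submodule ℤ (E → ℤ)} {S T : Finset E} (hST : ∀ e, e ∈ T ↔ e ∉ S)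
    {ℓ : E → ℕ} {hpos : ∀ e, 0 < ℓ e} {ι : Type} [Fintype ι]
    {φ : blowup L S ℓ →ₗ[ℤ] (ι → ℤ)}
    (hφ : ∀ a b, φ a ⬝ᵥ φ b = (a : (Σ e, Fin (ℓ e)) → ℤ) ⬝ᵥ (b : (Σ e, Fin (ℓ e)) → ℤ))
    {c : E → L →ₗ[ℤ] ℤ} {B : (Σ e : S, Fin (ℓ e)) ≃ ι} {ε : (Σ e : S, Fin (ℓ e)) → ℤ}
    (h : IsBlock hpos φ c B ε) (x : L) : ∑ P ∈ T, (ℓ P : ℤ) * (x : E → ℤ) P ^ 2 =
      ∑ e ∈ S, ((ℓ e : ℤ) * c e x ^ 2 + 2 * (x : E → ℤ) e * c e x) := by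
  set z := sec L S ℓ hpos x with hz
  have h1 := hφ z z
  rw [sum_over h, dot_split hST] at h1
  have hpr : pr L S ℓ hpos z = x := pr_sec x
  rw [hpr] at h1
  have h2 : ∑ e ∈ T, ∑ i : Fin (ℓ e), (z : (Σ e, Fin (ℓ e)) → ℤ) ⟨e, i⟩ *
      (z : (Σ e, Fin (ℓ e)) → ℤ) ⟨e, i⟩ = ∑ P ∈ T, (ℓ P : ℤ) * (x : E → ℤ) P ^ 2 := by
    refine sum_congr rfl fun e he => ?_
    have he' := (hST e).1 he
    rw [sum_congr rfl fun i _ => by rw [pr_out (hpos := hpos) z he' i, hpr], sum_const,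
      card_univ, Fintype.card_fin, nsmul_eq_mul]
    ring
  rw [h2] at h1
  have h3 : ∑ e : S, ∑ i : Fin (ℓ e), ((z : (Σ e, Fin (ℓ e)) → ℤ) ⟨e, i⟩ + c e x) *
      ((z : (Σ e, Fin (ℓ e)) → ℤ) ⟨e, i⟩ + c e x) =
      ∑ e : S, ∑ i : Fin (ℓ e), (z : (Σ e, Fin (ℓ e)) → ℤ) ⟨e, i⟩ *
      (z : (Σ e, Fin (ℓ e)) → ℤ) ⟨e, i⟩ +
      ∑ e : S, ((ℓ e : ℤ) * c e x ^ 2 + 2 * (x : E → ℤ) e * c e x) := by
    rw [← sum_add_distrib]
    refine sum_congr rfl fun e _ => ?_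
    have h4 : ∀ i : Fin (ℓ e), ((z : (Σ e, Fin (ℓ e)) → ℤ) ⟨e, i⟩ + c e x) *
        ((z : (Σ e, Fin (ℓ e)) → ℤ) ⟨e, i⟩ + c e x) =
        (z : (Σ e, Fin (ℓ e)) → ℤ) ⟨e, i⟩ * (z : (Σ e, Fin (ℓ e)) → ℤ) ⟨e, i⟩ +
        2 * c e x * (z : (Σ e, Fin (ℓ e)) → ℤ) ⟨e, i⟩ + c e x ^ 2 := fun i => by ring
    rw [sum_congr rfl fun i _ => h4 i, sum_add_distrib, sum_add_distrib, ← mul_sum,
      pr_in (hpos := hpos) z e.2, hpr, sum_const, card_univ, Fintype.card_fin, nsmul_eq_mul]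
    ring
  rw [h3, sum_coe_sort S fun e => ((ℓ e : ℤ) * c e x ^ 2 + 2 * (x : E → ℤ) e * c e x)] at h1
  linarith

/-- Isometric embeddings have block form. -/
theorem exists_block {L : Submodule ℤ (E → ℤ)} {S T : Finset E} (hST : ∀ e, e ∈ T ↔ e ∉ S)
    {ℓ : E → ℕ} (hℓ : ∀ e, 3 ≤ ℓ e) (hpos : ∀ e, 0 < ℓ e)
    (h4 : ∀ e ∈ S, ℓ e = 4 → ∃ x : L, Odd ((x : E → ℤ) e))
    {ι : Type} [Fintype ι] [DecidableEq ι]
    (φ : blowup L S ℓ →ₗ[ℤ] (ι → ℤ))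
    (hφ : ∀ a b, φ a ⬝ᵥ φ b = (a : (Σ e, Fin (ℓ e)) → ℤ) ⬝ᵥ (b : (Σ e, Fin (ℓ e)) → ℤ)) :
    (∑ e ∈ S, ℓ e ≤ Fintype.card ι) ∧
    (Fintype.card ι = ∑ e ∈ S, ℓ e → ∃ (c : E → L →ₗ[ℤ] ℤ) (B : (Σ e : S, Fin (ℓ e)) ≃ ι)
      (ε : (Σ e : S, Fin (ℓ e)) → ℤ), IsBlock hpos φ c B ε) := by
  classical
  let v : S → ℕ → ι → ℤ := fun e s =>
    if h : s + 1 < ℓ e then φ ⟨rt ℓ e s h, rt_mem e.2 s h⟩ else 0
  have hv : ∀ (e : S) (s : ℕ) (h : s + 1 < ℓ e), v e s = φ ⟨rt ℓ e s h, rt_mem e.2 s h⟩ :=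
    fun e s h => dif_pos h
  have hvv : ∀ (e f : S) (s r : ℕ) (h : s + 1 < ℓ e) (h' : r + 1 < ℓ f),
      v e s ⬝ᵥ v f r = (if e = f then (if s = r then 1 else 0) -
      (if s = r + 1 then 1 else 0) else 0) - (if e = f then (if s + 1 = r then 1 else 0) -
      (if s + 1 = r + 1 then 1 else 0) else 0) := by
    intro e f s r h h'
    rw [hv e s h, hv f r h', hφ]
    change rt ℓ e s h ⬝ᵥ rt ℓ f r h' = _
    rw [rt_dot, rt_apply, rt_apply]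
    simp only [Subtype.ext_iff]
  obtain ⟨b, ε, hg, hb⟩ := chains (J := S) (q := fun e => ℓ e) (v := v)
    (fun j => by have := hℓ j; omega)
    (by
      intro j s hs
      rw [hvv j j s s (by omega) (by omega)]
      simp)
    (by
      intro j s hs
      rw [hvv j j s (s + 1) (by omega) (by omega), if_pos rfl, if_pos rfl, if_neg (by omega),
        if_neg (by omega), if_pos rfl, if_neg (by omega)]
      ring)
    (by
      intro j s r hs hr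
      rw [hvv j j s r (by omega) (by omega), if_pos rfl, if_pos rfl, if_neg (by omega),
        if_neg (by omega), if_neg (by omega), if_neg (by omega)]
      ring)
    (by
      intro j l s r hjl hs hr
      rw [hvv j l s r (by omega) (by omega), if_neg hjl, if_neg hjl, sub_zero])
    (by
      intro j hj
      obtain ⟨x, hx⟩ := h4 j j.2 hj
      refine ⟨φ (sec L S ℓ hpos x), ?_⟩
      rw [hv j 0 (by omega), hv j 2 (by omega), hφ, hφ]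
      change Odd ((sec L S ℓ hpos x : (Σ e, Fin (ℓ e)) → ℤ) ⬝ᵥ rt ℓ j 0 _ +
        (sec L S ℓ hpos x : (Σ e, Fin (ℓ e)) → ℤ) ⬝ᵥ rt ℓ j 2 _)
      rw [dotProduct_comm, rt_dot, dotProduct_comm _ (rt ℓ j 2 _), rt_dot, sec_apply, sec_apply,
        sec_apply, sec_apply, if_neg (by simp), if_pos (by simp), if_pos (by simp),
        if_pos (by simp)]
      simpa using hx)
    (by intro j l _ hj; have := hℓ j; omega)
  let B : (Σ e : S, Fin (ℓ e)) → ι := fun k => b k.1 k.2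
  have hB : Function.Injective B := by
    rintro ⟨e, i⟩ ⟨f, j⟩ h
    obtain ⟨h1, h2⟩ := hb e f i j i.2 j.2 h
    subst h1
    rw [Fin.ext h2]
  have hcard : Fintype.card (Σ e : S, Fin (ℓ e)) = ∑ e ∈ S, ℓ e := by
    rw [Fintype.card_sigma, ← sum_coe_sort S fun e => ℓ e]
    simp
  refine ⟨by rw [← hcard]; exact Fintype.card_le_of_injective B hB, fun hc => ?_⟩
  have hBb : Function.Bijective B :=
    (Fintype.bijective_iff_injective_and_card B).2 ⟨hB, by rw [hcard, hc]⟩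
  have hεsq : ∀ (e : S) (s : ℕ), s < ℓ e → ε e s * ε e s = 1 := by
    intro e s hs
    rcases (hg e).1 s (by omega) with h | h <;> rw [h] <;> rfl
  -- the differences are constant along a class
  have hconst : ∀ (z : blowup L S ℓ) (e : S) (s : ℕ) (hs : s < ℓ e),
      ε e s * φ z (b e s) - (z : (Σ e, Fin (ℓ e)) → ℤ) ⟨e, ⟨s, hs⟩⟩ =
      ε e 0 * φ z (b e 0) - (z : (Σ e, Fin (ℓ e)) → ℤ) ⟨e, ⟨0, hpos e⟩⟩ := by
    intro z e s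
    induction s with
    | zero => intro _; rfl
    | succ s ih =>
      intro hs
      rw [← ih (by omega)]
      have h1 := (hg e).dot (φ z) (s := s) (by omega)
      have h2 : v e s ⬝ᵥ φ z = rt ℓ e s hs ⬝ᵥ (z : (Σ e, Fin (ℓ e)) → ℤ) := by
        rw [hv e s hs]
        exact hφ _ _
      rw [h2, rt_dot] at h1
      linarith
  -- the functionals on the blown up lattice
  let ev0 : E → blowup L S ℓ →ₗ[ℤ] ℤ := fun e =>
    (LinearMap.proj (⟨e, ⟨0, hpos e⟩⟩ : Σ e, Fin (ℓ e))) ∘ₗ (blowup L S ℓ).subtype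
  let d : E → blowup L S ℓ →ₗ[ℤ] ℤ := fun e => if h : e ∈ S then
    (ε ⟨e, h⟩ 0) • (LinearMap.proj (b ⟨e, h⟩ 0) ∘ₗ φ) - ev0 e else 0
  have hde : ∀ (e : S) (z : blowup L S ℓ), d e z =
      ε e 0 * φ z (b e 0) - (z : (Σ e, Fin (ℓ e)) → ℤ) ⟨e, ⟨0, hpos e⟩⟩ := by
    intro e z
    simp only [d, dif_pos e.2]
    rfl
  have hform : ∀ (z : blowup L S ℓ) (e : S) (i : Fin (ℓ e)), ε e i * φ z (b e i) =
      (z : (Σ e, Fin (ℓ e)) → ℤ) ⟨e, i⟩ + d e z := by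
    intro z e i
    have h1 := hconst z e i i.2
    rw [hde]
    have : (⟨(i : ℕ), i.2⟩ : Fin (ℓ e)) = i := rfl
    rw [this] at h1
    linarith
  -- they vanish on the kernel of the projection
  have hker : ∀ z : blowup L S ℓ, pr L S ℓ hpos z = 0 → ∀ e ∈ S, d e z = 0 := by
    intro z hz
    have h1 := hφ z z
    have hl : φ z ⬝ᵥ φ z = ∑ e : S, ∑ i : Fin (ℓ e),
        ((z : (Σ e, Fin (ℓ e)) → ℤ) ⟨e, i⟩ + d e z) *
        ((z : (Σ e, Fin (ℓ e)) → ℤ) ⟨e, i⟩ + d e z) := by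
      rw [dotProduct, ← (Equiv.ofBijective B hBb).sum_comp, Fintype.sum_sigma]
      refine sum_congr rfl fun e _ => sum_congr rfl fun i _ => ?_
      rw [← hform]
      change φ z (b e i) * φ z (b e i) = _
      have h3 := hεsq e i i.2
      calc φ z (b e i) * φ z (b e i) = (ε e i * ε e i) * (φ z (b e i) * φ z (b e i)) := by
            rw [h3, one_mul]
        _ = _ := by ring
    rw [hl, dot_split hST] at h1
    have hT : ∑ e ∈ T, ∑ i : Fin (ℓ e), (z : (Σ e, Fin (ℓ e)) → ℤ) ⟨e, i⟩ *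
        (z : (Σ e, Fin (ℓ e)) → ℤ) ⟨e, i⟩ = 0 := by
      refine sum_eq_zero fun e he => sum_eq_zero fun i _ => ?_
      rw [pr_out (hpos := hpos) z ((hST e).1 he) i, hz]
      simp
    rw [hT, add_zero] at h1
    have h3 : ∑ e : S, ∑ i : Fin (ℓ e), ((z : (Σ e, Fin (ℓ e)) → ℤ) ⟨e, i⟩ + d e z) *
        ((z : (Σ e, Fin (ℓ e)) → ℤ) ⟨e, i⟩ + d e z) =
        ∑ e : S, ∑ i : Fin (ℓ e), (z : (Σ e, Fin (ℓ e)) → ℤ) ⟨e, i⟩ *
        (z : (Σ e, Fin (ℓ e)) → ℤ) ⟨e, i⟩ + ∑ e : S, (ℓ e : ℤ) * d e z ^ 2 := by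
      rw [← sum_add_distrib]
      refine sum_congr rfl fun e _ => ?_
      have h4 : ∀ i : Fin (ℓ e), ((z : (Σ e, Fin (ℓ e)) → ℤ) ⟨e, i⟩ + d e z) *
          ((z : (Σ e, Fin (ℓ e)) → ℤ) ⟨e, i⟩ + d e z) =
          (z : (Σ e, Fin (ℓ e)) → ℤ) ⟨e, i⟩ * (z : (Σ e, Fin (ℓ e)) → ℤ) ⟨e, i⟩ +
          2 * d e z * (z : (Σ e, Fin (ℓ e)) → ℤ) ⟨e, i⟩ + d e z ^ 2 := fun i => by ring
      rw [sum_congr rfl fun i _ => h4 i, sum_add_distrib, sum_add_distrib, ← mul_sum,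
        pr_in (hpos := hpos) z e.2, hz, sum_const, card_univ, Fintype.card_fin, nsmul_eq_mul]
      simp
    rw [h3] at h1
    have h5 : ∑ e : S, (ℓ e : ℤ) * d e z ^ 2 = 0 := by linarith
    intro e he
    have h6 := (sum_eq_zero_iff_of_nonneg (fun e _ =>
      mul_nonneg (Int.natCast_nonneg _) (sq_nonneg _))).1 h5 ⟨e, he⟩ (mem_univ _)
    rcases mul_eq_zero.1 h6 with h7 | h7
    · have := hpos e
      simp only at h7
      omega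
    · exact pow_eq_zero_iff (two_ne_zero) |>.1 h7
  let c : E → L →ₗ[ℤ] ℤ := fun e => d e ∘ₗ sec L S ℓ hpos
  refine ⟨c, Equiv.ofBijective B hBb, fun k => ε k.1 k.2, fun k => hεsq k.1 k.2 k.2.2,
    fun z k => ?_⟩
  obtain ⟨e, i⟩ := k
  change ε e i * φ z (b e i) = (z : (Σ e, Fin (ℓ e)) → ℤ) ⟨e, i⟩ +
    d e (sec L S ℓ hpos (pr L S ℓ hpos z))
  rw [hform]
  congr 1
  rw [← sub_eq_zero, ← map_sub]
  exact hker _ (by rw [map_sub, pr_sec, sub_self]) e e.2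

end Pool.Agent.H758.TR
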