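import Pool.Agent.H762.MX.Conv
import Pool.Agent.H758.SR.Defs
import Pool.Agent.H758.TR.Block

/-!
A pairing of the regions gives glued embeddings.
-/

set_option autoImplicit false
set_option linter.unusedSectionVars false
set_option maxHeartbeats 400000

namespace Pool.Agent.H758.TR

open Finset Matrix
open Pool.Agent.H762.MX
open Pool.Agent.H758.SR (rank IsIsometry Extends)

variable {E : Type} [Fintype E] [DecidableEq E]

/-- the embedding given by a pairing -/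
def gmap {S T : Finset E} {ℓ : E → ℕ} (hpos : ∀ e, 0 < ℓ e) (π : S ≃ T) (η : S → ℤˣ)
    (z : (Σ e, Fin (ℓ e)) → ℤ) (k : Σ e : S, Fin (ℓ e)) : ℤ :=
  z ⟨k.1, k.2⟩ + η k.1 * z ⟨π k.1, ⟨0, hpos _⟩⟩

/-- the form on `L` -/
def FormZero (L : Submodule ℤ (E → ℤ)) {S T : Finset E} (ℓ : E → ℕ) (π : S ≃ T) (η : S → ℤˣ) :
    Prop :=
  ∀ x ∈ L, ∑ e : S, (((ℓ (π e) : ℤ) - ℓ e) * x (π e) ^ 2 - 2 * (η e * x e * x (π e))) = 0

theorem gmap_dot {L : Submodule ℤ (E → ℤ)} {S T : Finset E}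
    (hST : ∀ e, e ∈ T ↔ e ∉ S) {ℓ : E → ℕ} (hpos : ∀ e, 0 < ℓ e) {π : S ≃ T} {η : S → ℤˣ}
    (h : FormZero L ℓ π η) {z z' : (Σ e, Fin (ℓ e)) → ℤ} (hz : z ∈ blowup L S ℓ)
    (hz' : z' ∈ blowup L S ℓ) : gmap hpos π η z ⬝ᵥ gmap hpos π η z' = z ⬝ᵥ z' := by
  obtain ⟨x, hx, h1, h2⟩ := hz
  obtain ⟨x', hx', h1', h2'⟩ := hz'
  have hT : ∀ P : T, (P : E) ∉ S := fun P => (hST _).1 P.2
  have hl : gmap hpos π η z ⬝ᵥ gmap hpos π η z' =
      ∑ e : S, (∑ i, z ⟨e, i⟩ * z' ⟨e, i⟩ + η e * x e * x' (π e) + η e * x' e * x (π e) +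
        ℓ e * (x (π e) * x' (π e))) := by
    rw [dotProduct, Fintype.sum_sigma]
    apply sum_congr rfl
    intro e _
    simp only [gmap, h2 _ (hT (π e)), h2' _ (hT (π e))]
    have h3 : ∀ i : Fin (ℓ e), (z ⟨e, i⟩ + η e * x (π e)) * (z' ⟨e, i⟩ + η e * x' (π e)) =
        z ⟨e, i⟩ * z' ⟨e, i⟩ + (η e * x' (π e)) * z ⟨e, i⟩ + (η e * x (π e)) * z' ⟨e, i⟩ +
        ((η e : ℤ) * η e) * (x (π e) * x' (π e)) := fun i => by ring
    rw [sum_congr rfl fun i _ => h3 i, sum_add_distrib, sum_add_distrib, sum_add_distrib,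
      ← mul_sum, ← mul_sum, h1 e e.2, h1' e e.2, sum_const, card_univ, Fintype.card_fin,
      nsmul_eq_mul, unit_sq]
    ring
  have hrr : z ⬝ᵥ z' = ∑ e : S, ∑ i, z ⟨e, i⟩ * z' ⟨e, i⟩ +
      ∑ e : S, ℓ (π e) * (x (π e) * x' (π e)) := by
    rw [dotProduct, Fintype.sum_sigma, sum_split hST]
    congr 1
    · exact (sum_coe_sort S fun e => ∑ i, z ⟨e, i⟩ * z' ⟨e, i⟩).symm
    · have h3 : ∑ e ∈ T, ∑ i, z ⟨e, i⟩ * z' ⟨e, i⟩ = ∑ e ∈ T, ℓ e * (x e * x' e) := by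
        apply sum_congr rfl
        intro e he
        have he' := (hST e).1 he
        rw [sum_congr rfl fun i _ => by rw [h2 e he' i, h2' e he' i], sum_const, card_univ,
          Fintype.card_fin, nsmul_eq_mul]
      rw [h3, ← sum_coe_sort T fun e => (ℓ e : ℤ) * (x e * x' e)]
      exact (Equiv.sum_comp π fun P : T => (ℓ P : ℤ) * (x P * x' P)).symm
  rw [hl, hrr, ← sub_eq_zero, ← sum_add_distrib, ← sum_sub_distrib]
  have h3 := polar (ℓ := fun e => (ℓ e : ℤ)) h hx hx'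
  rw [← neg_eq_zero, ← sum_neg_distrib] at h3
  rw [← h3]
  apply sum_congr rfl
  intro e _
  ring

/-- the functionals which extend -/
theorem extends_iff {L : Submodule ℤ (E → ℤ)} {S T : Finset E}
    (hST : ∀ e, e ∈ T ↔ e ∉ S) {ℓ : E → ℕ} (hpos : ∀ e, 0 < ℓ e) (π : S ≃ T) (η : S → ℤˣ)
    (ζ : (Σ e, Fin (ℓ e)) → ℤ) :
    (∃ a, ∀ z ∈ blowup L S ℓ, gmap hpos π η z ⬝ᵥ a = z ⬝ᵥ ζ) ↔
      ∃ ξ : S → ℤ, ∀ x ∈ L, ∑ e : S, (ξ e * x e + (η e * (∑ i, ζ ⟨e, i⟩ + ℓ e * ξ e) -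
        ∑ i, ζ ⟨π e, i⟩) * x (π e)) = 0 := by
  have hT : ∀ P : T, (P : E) ∉ S := fun P => (hST _).1 P.2
  -- the functional of `a = ζ + ξ`
  have key : ∀ (ξ : S → ℤ) (z : (Σ e, Fin (ℓ e)) → ℤ) (x : E → ℤ),
      (∀ e ∈ S, ∑ i, z ⟨e, i⟩ = x e) → (∀ e, e ∉ S → ∀ i, z ⟨e, i⟩ = x e) →
      gmap hpos π η z ⬝ᵥ (fun k => ζ ⟨k.1, k.2⟩ + ξ k.1) - z ⬝ᵥ ζ =
      ∑ e : S, (ξ e * x e + (η e * (∑ i, ζ ⟨e, i⟩ + ℓ e * ξ e) - ∑ i, ζ ⟨π e, i⟩) * x (π e)) := by
    intro ξ z x h1 h2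
    have e1 : gmap hpos π η z ⬝ᵥ (fun k => ζ ⟨k.1, k.2⟩ + ξ k.1) =
        ∑ e : S, (∑ i, z ⟨e, i⟩ * ζ ⟨e, i⟩ + ξ e * x e +
          η e * (∑ i, ζ ⟨e, i⟩ + ℓ e * ξ e) * x (π e)) := by
      rw [dotProduct, Fintype.sum_sigma]
      apply sum_congr rfl
      intro e _
      simp only [gmap, h2 _ (hT (π e))]
      have h3 : ∀ i : Fin (ℓ e), (z ⟨e, i⟩ + η e * x (π e)) * (ζ ⟨e, i⟩ + ξ e) =
          z ⟨e, i⟩ * ζ ⟨e, i⟩ + ξ e * z ⟨e, i⟩ + (η e * x (π e)) * ζ ⟨e, i⟩ +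
          (η e * x (π e)) * ξ e := fun i => by ring
      rw [sum_congr rfl fun i _ => h3 i, sum_add_distrib, sum_add_distrib, sum_add_distrib,
        ← mul_sum, ← mul_sum, h1 e e.2, sum_const, card_univ, Fintype.card_fin, nsmul_eq_mul]
      ring
    have e2 : z ⬝ᵥ ζ = ∑ e : S, ∑ i, z ⟨e, i⟩ * ζ ⟨e, i⟩ +
        ∑ e : S, x (π e) * ∑ i, ζ ⟨π e, i⟩ := by
      rw [dotProduct, Fintype.sum_sigma, sum_split hST]
      congr 1
      · exact (sum_coe_sort S fun e => ∑ i, z ⟨e, i⟩ * ζ ⟨e, i⟩).symm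
      · have h3 : ∑ e ∈ T, ∑ i, z ⟨e, i⟩ * ζ ⟨e, i⟩ = ∑ e ∈ T, x e * ∑ i, ζ ⟨e, i⟩ := by
          apply sum_congr rfl
          intro e he
          rw [mul_sum]
          exact sum_congr rfl fun i _ => by rw [h2 e ((hST e).1 he) i]
        rw [h3, ← sum_coe_sort T fun e => x e * ∑ i, ζ ⟨e, i⟩]
        exact (Equiv.sum_comp π fun P : T => x P * ∑ i, ζ ⟨P, i⟩).symm
    rw [e1, e2, ← sum_add_distrib, ← sum_sub_distrib]
    apply sum_congr rfl
    intro e _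
    ring
  constructor
  · rintro ⟨a, ha⟩
    -- `a - ζ` is constant on each class
    have hconst : ∀ (e : S) (s : ℕ) (hs : s < ℓ e), a ⟨e, ⟨s, hs⟩⟩ - ζ ⟨e, ⟨s, hs⟩⟩ =
        a ⟨e, ⟨0, hpos e⟩⟩ - ζ ⟨e, ⟨0, hpos e⟩⟩ := by
      intro e s
      induction s with
      | zero => intro _; rfl
      | succ s ih =>
        intro hs
        rw [← ih (by omega)]
        have h1 := ha _ (rt_mem (L := L) e.2 s hs)
        rw [rt_dot] at h1
        have h2 : gmap hpos π η (rt ℓ e s hs) ⬝ᵥ a =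
            a ⟨e, ⟨s, Nat.lt_of_succ_lt hs⟩⟩ - a ⟨e, ⟨s + 1, hs⟩⟩ := by
          rw [dotProduct, Fintype.sum_sigma, sum_eq_single e]
          · have h3 : ∀ i : Fin (ℓ e), gmap hpos π η (rt ℓ e s hs) ⟨e, i⟩ =
                (if (i : ℕ) = s then 1 else 0) - (if (i : ℕ) = s + 1 then 1 else 0) := by
              intro i
              simp only [gmap]
              have h4 : ¬ ((π e : T) : E) = (e : E) := fun h' => hT (π e) (by rw [h']; exact e.2)
              rw [rt_apply, rt_apply, if_pos rfl, if_neg h4, mul_zero, add_zero]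
            rw [sum_congr rfl fun i _ => by rw [h3 i]]
            simp only [sub_mul, ite_mul, one_mul, zero_mul]
            rw [sum_sub_distrib, sum_eq_single (⟨s, Nat.lt_of_succ_lt hs⟩ : Fin (ℓ e)),
              sum_eq_single (⟨s + 1, hs⟩ : Fin (ℓ e))]
            · simp
            · intro j _ hj
              rw [if_neg]
              intro h'; exact hj (Fin.ext h')
            · intro h'; exact absurd (mem_univ _) h'
            · intro j _ hj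
              rw [if_neg]
              intro h'; exact hj (Fin.ext h')
            · intro h'; exact absurd (mem_univ _) h'
          · intro f _ hf
            refine sum_eq_zero fun i _ => ?_
            simp only [gmap]
            have h4 : ¬ ((π f : T) : E) = (e : E) := fun h' => hT (π f) (by rw [h']; exact e.2)
            rw [rt_apply, rt_apply, if_neg (fun h => hf (Subtype.ext h)), if_neg h4, mul_zero,
              add_zero, zero_mul]
          · intro h'; exact absurd (mem_univ _) h'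
        rw [h2] at h1
        linarith
    refine ⟨fun e => a ⟨e, ⟨0, hpos e⟩⟩ - ζ ⟨e, ⟨0, hpos e⟩⟩, fun x hx => ?_⟩
    have hmem := (sec L S ℓ hpos ⟨x, hx⟩).2
    have hz := ha _ hmem
    have h1 : ∀ e ∈ S, ∑ i, (sec L S ℓ hpos ⟨x, hx⟩ : (Σ e, Fin (ℓ e)) → ℤ) ⟨e, i⟩ = x e := by
      intro e he
      have := pr_in (hpos := hpos) (sec L S ℓ hpos ⟨x, hx⟩) he
      rw [pr_sec] at this
      exact this
    have h2 : ∀ e, e ∉ S → ∀ i, (sec L S ℓ hpos ⟨x, hx⟩ : (Σ e, Fin (ℓ e)) → ℤ) ⟨e, i⟩ = x e := by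
      intro e he i
      have := pr_out (hpos := hpos) (sec L S ℓ hpos ⟨x, hx⟩) he i
      rw [pr_sec] at this
      exact this
    rw [← key _ _ x h1 h2, ← hz, sub_eq_zero]
    congr 1
    funext k
    obtain ⟨e, i⟩ := k
    have h3 := hconst e i i.2
    simp only [Fin.eta] at h3
    simp only
    linarith
  · rintro ⟨ξ, hξ⟩
    refine ⟨fun k => ζ ⟨k.1, k.2⟩ + ξ k.1, fun z hz => ?_⟩
    obtain ⟨x, hx, h1, h2⟩ := hz
    rw [← sub_eq_zero, key ξ z x h1 h2]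
    exact hξ x hx

/-- one direction of the gluing condition -/
theorem glue_aux {L F : Submodule ℤ (E → ℤ)} {S T : Finset E}
    (hST : ∀ e, e ∈ T ↔ e ∉ S) {ℓ : E → ℕ}
    (hperp : ∀ y, (∀ x ∈ L, x ⬝ᵥ y = 0) → y ∈ F) {π : S ≃ T} {η : S → ℤˣ}
    (hF : FormZero F ℓ π.symm fun P => η (π.symm P)) {α : S → ℤ} {β : T → ℤ}
    (h : ∃ ξ : S → ℤ, ∀ x ∈ L, ∑ e : S, (ξ e * x e + (η e * (α e + ℓ e * ξ e) -
        β (π e)) * x (π e)) = 0) :
    ∃ ω : T → ℤ, ∀ y ∈ F, ∑ P : T, (ω P * y P + (η (π.symm P) * (β P + ℓ P * ω P) -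
        α (π.symm P)) * y (π.symm P)) = 0 := by
  obtain ⟨ξ, hξ⟩ := h
  let u : E → ℤ := fun e => if h : e ∈ S then ξ ⟨e, h⟩ else
    η (π.symm ⟨e, (hST e).2 h⟩) * (α (π.symm ⟨e, (hST e).2 h⟩) +
      ℓ (π.symm ⟨e, (hST e).2 h⟩) * ξ (π.symm ⟨e, (hST e).2 h⟩)) - β ⟨e, (hST e).2 h⟩
  have huS : ∀ e : S, u e = ξ e := fun e => dif_pos e.2
  have huT : ∀ e : S, u (π e) = η e * (α e + ℓ e * ξ e) - β (π e) := by
    intro e
    have h1 : ((π e : T) : E) ∉ S := (hST _).1 (π e).2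
    have h3 : (⟨((π e : T) : E), (hST _).2 h1⟩ : T) = π e := Subtype.ext rfl
    have h2 : π.symm ⟨(π e : T), (hST _).2 h1⟩ = e := by
      rw [h3, Equiv.symm_apply_apply]
    change dite _ _ _ = _
    rw [dif_neg h1, h2, h3]
  have huF : u ∈ F := by
    apply hperp
    intro x hx
    rw [dotProduct, sum_split hST, ← sum_coe_sort S fun e => x e * u e,
      ← sum_coe_sort T fun e => x e * u e, ← Equiv.sum_comp π, ← sum_add_distrib, ← hξ x hx]
    apply sum_congr rfl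
    intro e _
    rw [huS, huT]
    ring
  refine ⟨fun P => -(η (π.symm P) * ξ (π.symm P)), fun y hy => ?_⟩
  have h1 := polar (ℓ := fun e => (ℓ e : ℤ)) hF huF hy
  rw [← h1]
  rw [← Equiv.sum_comp π, ← Equiv.sum_comp π]
  apply sum_congr rfl
  intro e _
  simp only [Equiv.symm_apply_apply]
  rw [huS, huT]
  have h2 := unit_sq (η e)
  calc -((η e : ℤ) * ξ e) * y (π e) + ((η e : ℤ) * (β (π e) + ℓ (π e) * -((η e : ℤ) * ξ e)) -
        α e) * y e = -((η e : ℤ) * ξ e) * y (π e) + ((η e : ℤ) * β (π e) -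
        ((η e : ℤ) * η e) * (ℓ (π e) * ξ e) - α e) * y e := by ring
    _ = -((η e : ℤ) * ξ e) * y (π e) + ((η e : ℤ) * β (π e) -
        (ℓ (π e) * ξ e) - ((η e : ℤ) * η e) * α e + (1 - ((η e : ℤ) * η e)) * (ℓ e * ξ e)) * y e := by
        rw [h2]; ring
    _ = ((ℓ e : ℤ) - ℓ (π e)) * (ξ e * y e) - (η e : ℤ) * ((η e : ℤ) * (α e + ℓ e * ξ e) -
        β (π e)) * y e - (η e : ℤ) * y (π e) * ξ e := by ring

/-- the form on the dual lattice -/
theorem form_dual {L F : Submodule ℤ (E → ℤ)} {S T : Finset E}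
    (hST : ∀ e, e ∈ T ↔ e ∉ S) {ℓ : E → ℕ}
    (hperp : ∀ y, (∀ x ∈ L, x ⬝ᵥ y = 0) → y ∈ F)
    (hr : Module.finrank ℤ L = Module.finrank ℤ F) {π : S ≃ T} {η : S → ℤˣ}
    (h : FormZero L ℓ π η) : FormZero F ℓ π.symm fun P => η (π.symm P) := by
  classical
  intro y hy
  rw [← Equiv.sum_comp π]
  simp only [Equiv.symm_apply_apply]
  -- the map `J`
  let J : (E → ℤ) →ₗ[ℤ] (E → ℤ) :=
    { toFun := fun x e => if h : e ∈ S then -(η ⟨e, h⟩ * x (π ⟨e, h⟩)) else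
        ((ℓ e : ℤ) - ℓ (π.symm ⟨e, (hST e).2 h⟩)) * x e -
          η (π.symm ⟨e, (hST e).2 h⟩) * x (π.symm ⟨e, (hST e).2 h⟩)
      map_add' := fun x x' => by
        funext e
        simp only [Pi.add_apply]
        split_ifs <;> ring
      map_smul' := fun c x => by
        funext e
        simp only [Pi.smul_apply, smul_eq_mul, RingHom.id_apply]
        split_ifs <;> ring }
  have hJS : ∀ x (e : S), J x e = -(η e * x (π e)) := fun x e => dif_pos e.2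
  have hJT : ∀ x (e : S), J x (π e) = ((ℓ (π e) : ℤ) - ℓ e) * x (π e) - η e * x e := by
    intro x e
    have h1 : ((π e : T) : E) ∉ S := (hST _).1 (π e).2
    change dite _ _ _ = _
    rw [dif_neg h1]
    have h2 : π.symm ⟨(π e : T), (hST _).2 h1⟩ = e := by
      have : (⟨((π e : T) : E), (hST _).2 h1⟩ : T) = π e := Subtype.ext rfl
      rw [this, Equiv.symm_apply_apply]
    rw [h2]
  have hJF : ∀ x ∈ L, J x ∈ F := by
    intro x hx
    apply hperp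
    intro x' hx'
    rw [dotProduct, sum_split hST, ← sum_coe_sort S fun e => x' e * J x e,
      ← sum_coe_sort T fun e => x' e * J x e, ← Equiv.sum_comp π, ← sum_add_distrib,
      ← polar (ℓ := fun e => (ℓ e : ℤ)) h hx hx']
    apply sum_congr rfl
    intro e _
    rw [hJS, hJT]
    ring
  let JL : L →ₗ[ℤ] F := (J ∘ₗ L.subtype).codRestrict F fun x => hJF x x.2
  have hJL : ∀ x : L, (JL x : E → ℤ) = J x := fun x => rfl
  have hinj : Function.Injective JL := by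
    rw [← LinearMap.ker_eq_bot, LinearMap.ker_eq_bot']
    intro x hx
    have h0 : ∀ e, J x e = 0 := fun e => by
      rw [← hJL, hx]; rfl
    have h1 : ∀ e : S, (x : E → ℤ) (π e) = 0 := by
      intro e
      have h2 := h0 e
      rw [hJS] at h2
      rcases Int.units_eq_one_or (η e) with h | h <;> rw [h] at h2 <;> push_cast at h2 <;> linarith
    have h3 : ∀ e : S, (x : E → ℤ) e = 0 := by
      intro e
      have h2 := h0 (π e)
      rw [hJT, h1, mul_zero, zero_sub] at h2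
      rcases Int.units_eq_one_or (η e) with h | h <;> rw [h] at h2 <;> push_cast at h2 <;> linarith
    apply Subtype.ext
    funext e
    by_cases he : e ∈ S
    · exact h3 ⟨e, he⟩
    · have h4 := h1 (π.symm ⟨e, (hST e).2 he⟩)
      rw [Equiv.apply_symm_apply] at h4
      exact h4
  obtain ⟨k, hk, x, hx⟩ := full_rank JL hinj hr ⟨y, hy⟩
  have hky : ∀ e, k * y e = J x e := by
    intro e
    rw [← hJL, hx]
    rfl
  have hmul : k ^ 2 * ∑ e : S, (((ℓ e : ℤ) - ℓ (π e)) * y e ^ 2 -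
      2 * (η e * y (π e) * y e)) = 0 := by
    rw [mul_sum, ← h x x.2]
    apply sum_congr rfl
    intro e _
    have h1 := hky e
    have h2 := hky (π e)
    rw [hJS] at h1
    rw [hJT] at h2
    calc k ^ 2 * (((ℓ e : ℤ) - ℓ (π e)) * y e ^ 2 - 2 * (η e * y (π e) * y e))
        = ((ℓ e : ℤ) - ℓ (π e)) * (k * y e) ^ 2 - 2 * (η e * (k * y (π e)) * (k * y e)) := by ring
      _ = ((ℓ e : ℤ) - ℓ (π e)) * (((η e : ℤ) * η e) * (x : E → ℤ) (π e) ^ 2) +
          2 * (((η e : ℤ) * η e) * (((ℓ (π e) : ℤ) - ℓ e) * (x : E → ℤ) (π e) ^ 2) -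
            ((η e : ℤ) * η e) * (η e * (x : E → ℤ) e * (x : E → ℤ) (π e))) := by
          rw [h1, h2]; ring
      _ = _ := by rw [unit_sq]; ring
  rcases mul_eq_zero.1 hmul with h1 | h1
  · exact absurd (pow_eq_zero_iff (by norm_num) |>.1 h1) hk
  · exact h1

theorem form_symm {L : Submodule ℤ (E → ℤ)} {S T : Finset E} {ℓ : E → ℕ} {π : S ≃ T}
    {η : S → ℤˣ} (h : FormZero L ℓ π η) :
    FormZero L ℓ π.symm.symm fun e => (fun P => η (π.symm P)) (π.symm.symm e) := by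
  intro x hx
  simp only [Equiv.symm_symm, Equiv.symm_apply_apply]
  exact h x hx

/-- **The gluing condition.** -/
theorem glue_iff {L F : Submodule ℤ (E → ℤ)} {S T : Finset E}
    (hST : ∀ e, e ∈ T ↔ e ∉ S) {ℓ : E → ℕ} (hpos : ∀ e, 0 < ℓ e)
    (hperp : ∀ y, (∀ x ∈ L, x ⬝ᵥ y = 0) → y ∈ F) (hperp' : ∀ x, (∀ y ∈ F, y ⬝ᵥ x = 0) → x ∈ L)
    {π : S ≃ T} {η : S → ℤˣ} (hL : FormZero L ℓ π η)
    (hF : FormZero F ℓ π.symm fun P => η (π.symm P)) (ζ : (Σ e, Fin (ℓ e)) → ℤ) :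
    (∃ a, ∀ z ∈ blowup L S ℓ, gmap hpos π η z ⬝ᵥ a = z ⬝ᵥ ζ) ↔
    ∃ a, ∀ z ∈ blowup F T ℓ, gmap hpos π.symm (fun P => η (π.symm P)) z ⬝ᵥ a = z ⬝ᵥ ζ := by
  have hST' : ∀ e, e ∈ S ↔ e ∉ T := fun e => by rw [hST, not_not]
  rw [extends_iff hST hpos, extends_iff hST' hpos]
  constructor
  · intro h
    exact glue_aux hST hperp hF (α := fun e => ∑ i, ζ ⟨e, i⟩) (β := fun P => ∑ i, ζ ⟨P, i⟩) h
  · intro h
    obtain ⟨ω, hω⟩ := glue_aux hST' hperp' (π := π.symm) (η := fun P => η (π.symm P))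
      (form_symm hL) (α := fun P => ∑ i, ζ ⟨P, i⟩) (β := fun e => ∑ i, ζ ⟨e, i⟩) h
    refine ⟨ω, fun x hx => ?_⟩
    have h1 := hω x hx
    simp only [Equiv.symm_symm, Equiv.symm_apply_apply] at h1
    exact h1

/-- the isometry in the standard lattice of the same rank -/
theorem isometry_of_form {L : Submodule ℤ (E → ℤ)} {S T : Finset E}
    (hST : ∀ e, e ∈ T ↔ e ∉ S) {ℓ : E → ℕ} (hpos : ∀ e, 0 < ℓ e)
    (hr : Module.finrank ℤ L = S.card) {π : S ≃ T} {η : S → ℤˣ} (h : FormZero L ℓ π η) :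
    ∃ θ : (Σ e : S, Fin (ℓ e)) ≃ Fin (rank (blowup L S ℓ)),
      IsIsometry (blowup L S ℓ) (fun z k => gmap hpos π η z (θ.symm k)) ∧
      ∀ ζ, Extends (blowup L S ℓ) (fun z k => gmap hpos π η z (θ.symm k)) ζ ↔
        ∃ a, ∀ z ∈ blowup L S ℓ, gmap hpos π η z ⬝ᵥ a = z ⬝ᵥ ζ := by
  have hN : Fintype.card (Σ e : S, Fin (ℓ e)) = rank (blowup L S ℓ) := by
    have h1 := finrank_blowup L S ℓ hpos
    rw [Fintype.card_sigma]
    simp only [Fintype.card_fin]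
    rw [sum_coe_sort S fun e => ℓ e]
    change _ = Module.finrank ℤ (blowup L S ℓ)
    omega
  let θ := Fintype.equivFinOfCardEq hN
  refine ⟨θ, ?_, ?_⟩
  · intro z hz z' hz'
    refine ⟨?_, ?_⟩
    · funext k
      simp only [Pi.add_apply, gmap]
      ring
    · rw [← gmap_dot hST hpos h hz hz']
      exact Equiv.sum_comp θ.symm fun k => gmap hpos π η z k * gmap hpos π η z' k
  · intro ζ
    constructor
    · rintro ⟨a, ha⟩
      refine ⟨fun k => a (θ k), fun z hz => ?_⟩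
      rw [← ha z hz, dotProduct, dotProduct, ← Equiv.sum_comp θ]
      simp only [Equiv.symm_apply_apply]
    · rintro ⟨a, ha⟩
      refine ⟨fun k => a (θ.symm k), fun z hz => ?_⟩
      rw [← ha z hz]
      exact Equiv.sum_comp θ.symm fun k => gmap hpos π η z k * a k

end Pool.Agent.H758.TR
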