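import Pool.Agent.H758.TR.Inv

/-!
The main relation between the functionals of the two embeddings.
-/

set_option autoImplicit false
set_option linter.unusedSectionVars false

namespace Pool.Agent.H758.TR

open Finset Matrix
open Pool.Agent.H762.TG (Multigraph IsUnit')
open Pool.Agent.H762.MX

variable {V E : Type} [Fintype E] [DecidableEq E] [Fintype V] [DecidableEq V]
  {G : Multigraph V E} {S T : Finset E} {ℓ : E → ℕ} {c : E → G.cuts →ₗ[ℤ] ℤ}
  {d : E → G.flows →ₗ[ℤ] ℤ}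

/-- The main relation: the functional of the edge `e₀` at the cut of a flow. -/
theorem Data.d2 (h : Data G S T ℓ c d) (y : G.flows) (x : G.cuts)
    (hx : ∀ P ∈ T, (x : E → ℤ) P = d P y) {e₀ : E} (he₀ : e₀ ∈ S) : c e₀ x = (y : E → ℤ) e₀ := by
  obtain ⟨β, hβ0, hβ⟩ := exists_repr G T (c e₀) fun x hx => h.kill1 hx he₀
  obtain ⟨η, hη⟩ := h.glue e₀ he₀ β hβ0 hβ
  have hβT : ∀ x : G.cuts, c e₀ x = ∑ P ∈ T, β P * (x : E → ℤ) P := by
    intro x
    rw [hβ, dotProduct, h.split, sum_eq_zero (s := S) (fun e he => by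
      rw [hβ0 e ((h.hST' e).1 he), mul_zero]), zero_add]
    exact sum_congr rfl fun P _ => mul_comm _ _
  -- the cut `h₀`
  obtain ⟨t, ht⟩ : ∃ t : G.cuts, ∀ P ∈ T, (t : E → ℤ) P = η P := by
    obtain ⟨t, ht, ht'⟩ := exists_cut G T η fun z hz h0 => by
      have h0' : ∀ e ∈ S, z e = 0 := fun e he => h0 e ((h.hST' e).1 he)
      have h1 := hη ⟨z, hz⟩
      rw [dotProduct, h.split, sum_eq_zero (s := S) (fun e he => by
        rw [h0' e he, mul_zero]), zero_add]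
      have h3 : (((⟨z, hz⟩ : G.flows) : E → ℤ)) e₀ = 0 := h0' e₀ he₀
      rw [h3] at h1
      rw [← h1]
      refine sum_congr rfl fun P hP => ?_
      have h2 : d P ⟨z, hz⟩ = 0 := h.kill2 (y := ⟨z, hz⟩) h0' hP
      rw [h2]
      change _ = η P * z P + (β P + ℓ P * η P) * 0
      ring
    exact ⟨⟨t, ht⟩, ht'⟩
  -- the relation `E2'`
  have hE2 : ∀ (y : G.flows) (g : G.cuts), (∀ P ∈ T, (g : E → ℤ) P = d P y) →
      c e₀ g + (∑ P ∈ T, (ℓ P : ℤ) * ((t : E → ℤ) P * d P y) -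
        ∑ e ∈ S, (t : E → ℤ) e * (y : E → ℤ) e) = (y : E → ℤ) e₀ := by
    intro y g hg
    rw [← hη y, hβT]
    have h1 := h.orth t y
    have h2 : ∑ P ∈ T, (η P * (y : E → ℤ) P + (β P + ℓ P * η P) * d P y) =
        ∑ P ∈ T, (t : E → ℤ) P * (y : E → ℤ) P + ∑ P ∈ T, β P * (g : E → ℤ) P +
        ∑ P ∈ T, (ℓ P : ℤ) * ((t : E → ℤ) P * d P y) := by
      rw [← sum_add_distrib, ← sum_add_distrib]
      refine sum_congr rfl fun P hP => ?_
      rw [ht P hP, hg P hP]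
      ring
    rw [h2]
    linarith
  -- the vectors `w`, `y⁰`, `g⁰`
  obtain ⟨m, hm, w, hw⟩ := full_gen h.hST h.three h.q1 h.r1 (Pi.single e₀ 1)
  obtain ⟨y0, hy0⟩ := h.flow_of w
  obtain ⟨g0, hg0⟩ := h.cut_of y0
  have hW : ∀ x : G.cuts, m * c e₀ x = ∑ P ∈ T, (ℓ P : ℤ) * ((x : E → ℤ) P * (w : E → ℤ) P) -
      ∑ e ∈ S, (x : E → ℤ) e * (y0 : E → ℤ) e := by
    intro x
    rw [polar_gen h.q1 x w, ← sum_sub_distrib]
    have h1 : ∀ e ∈ S, (ℓ e : ℤ) * (c e x * c e w) + (x : E → ℤ) e * c e w +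
        (w : E → ℤ) e * c e x - (x : E → ℤ) e * (y0 : E → ℤ) e =
        if e = e₀ then m * c e₀ x else 0 := by
      intro e he
      rw [hy0 e he]
      have h2 := hw e he
      split_ifs with h3
      · subst h3
        rw [Pi.single_eq_same, mul_one] at h2
        rw [← h2]
        ring
      · rw [Pi.single_eq_of_ne h3, mul_zero] at h2
        calc _ = ((w : E → ℤ) e + ℓ e * c e w) * c e x := by ring
          _ = 0 := by rw [h2, zero_mul]
    rw [sum_congr rfl h1, sum_ite_eq' S e₀, if_pos he₀]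
  -- the cut `r` vanishes on `T`
  have hr : ∀ P ∈ T, m * (t : E → ℤ) P - (g0 : E → ℤ) P + (w : E → ℤ) P = 0 := by
    have hR : ∀ y : G.flows, ∑ P ∈ T, (m * (t : E → ℤ) P - (g0 : E → ℤ) P + (w : E → ℤ) P) *
        ((y : E → ℤ) P + ℓ P * d P y) = 0 := by
      intro y
      obtain ⟨g, hg⟩ := h.cut_of y
      have k1 := hE2 y g hg
      have k2 := hW g
      have k3 := polar_gen h.q2 y y0
      have k4 := h.orth g0 y
      have k5 := h.orth g y0
      have k6 := h.orth t y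
      have k7 := h.orth w y
      have k8 : ∑ P ∈ T, (ℓ P : ℤ) * ((g : E → ℤ) P * (w : E → ℤ) P) =
          ∑ P ∈ T, (ℓ P : ℤ) * ((w : E → ℤ) P * d P y) := sum_congr rfl fun P hP => by
        rw [hg P hP]; ring
      have k9 : ∑ P ∈ T, (g : E → ℤ) P * (y0 : E → ℤ) P = ∑ P ∈ T, (y0 : E → ℤ) P * d P y :=
        sum_congr rfl fun P hP => by rw [hg P hP]; ring
      have k10 : ∑ P ∈ T, ((ℓ P : ℤ) * (d P y * d P y0) + (y : E → ℤ) P * d P y0 +
          (y0 : E → ℤ) P * d P y) = ∑ P ∈ T, (ℓ P : ℤ) * ((g0 : E → ℤ) P * d P y) +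
          ∑ P ∈ T, (g0 : E → ℤ) P * (y : E → ℤ) P + ∑ P ∈ T, (y0 : E → ℤ) P * d P y := by
        rw [← sum_add_distrib, ← sum_add_distrib]
        refine sum_congr rfl fun P hP => ?_
        rw [hg0 P hP]
        ring
      have k11 : ∑ e ∈ S, (ℓ e : ℤ) * ((y : E → ℤ) e * (y0 : E → ℤ) e) +
          ∑ e ∈ S, (w : E → ℤ) e * (y : E → ℤ) e = m * (y : E → ℤ) e₀ := by
        rw [← sum_add_distrib]
        have h1 : ∀ e ∈ S, (ℓ e : ℤ) * ((y : E → ℤ) e * (y0 : E → ℤ) e) +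
            (w : E → ℤ) e * (y : E → ℤ) e = if e = e₀ then m * (y : E → ℤ) e₀ else 0 := by
          intro e he
          rw [hy0 e he]
          have h2 := hw e he
          split_ifs with h3
          · subst h3
            rw [Pi.single_eq_same, mul_one] at h2
            rw [← h2]
            ring
          · rw [Pi.single_eq_of_ne h3, mul_zero] at h2
            calc _ = ((w : E → ℤ) e + ℓ e * c e w) * (y : E → ℤ) e := by ring
              _ = 0 := by rw [h2, zero_mul]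
        rw [sum_congr rfl h1, sum_ite_eq' S e₀, if_pos he₀]
      have k12 : ∑ P ∈ T, (m * (t : E → ℤ) P - (g0 : E → ℤ) P + (w : E → ℤ) P) *
          ((y : E → ℤ) P + ℓ P * d P y) =
          m * ∑ P ∈ T, (t : E → ℤ) P * (y : E → ℤ) P -
          ∑ P ∈ T, (g0 : E → ℤ) P * (y : E → ℤ) P + ∑ P ∈ T, (w : E → ℤ) P * (y : E → ℤ) P +
          (m * ∑ P ∈ T, (ℓ P : ℤ) * ((t : E → ℤ) P * d P y) -
          ∑ P ∈ T, (ℓ P : ℤ) * ((g0 : E → ℤ) P * d P y) +
          ∑ P ∈ T, (ℓ P : ℤ) * ((w : E → ℤ) P * d P y)) := by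
        rw [mul_sum, mul_sum, ← sum_sub_distrib, ← sum_add_distrib, ← sum_sub_distrib,
          ← sum_add_distrib, ← sum_add_distrib]
        refine sum_congr rfl fun P hP => ?_
        ring
      rw [k12]
      rw [k8] at k2
      rw [k9] at k5
      rw [k10] at k3
      have k13 : m * (c e₀ g + (∑ P ∈ T, (ℓ P : ℤ) * ((t : E → ℤ) P * d P y) -
        ∑ e ∈ S, (t : E → ℤ) e * (y : E → ℤ) e)) = m * (y : E → ℤ) e₀ := by rw [k1]
      have k14 : m * (∑ e ∈ S, (t : E → ℤ) e * (y : E → ℤ) e +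
        ∑ P ∈ T, (t : E → ℤ) P * (y : E → ℤ) P) = m * 0 := by rw [k6]
      linarith
    obtain ⟨k, hk, y, hy⟩ := full_gen h.hST' h.three h.q2 h.r2
      (fun P => m * (t : E → ℤ) P - (g0 : E → ℤ) P + (w : E → ℤ) P)
    have h1 := hR y
    rw [sum_congr rfl fun P hP => by rw [hy P hP]] at h1
    have h2 : k * ∑ P ∈ T, (m * (t : E → ℤ) P - (g0 : E → ℤ) P + (w : E → ℤ) P) ^ 2 = 0 := by
      rw [← h1, mul_sum]
      exact sum_congr rfl fun P _ => by ring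
    rcases mul_eq_zero.1 h2 with h3 | h3
    · exact absurd h3 hk
    · intro P hP
      exact pow_eq_zero_iff (two_ne_zero) |>.1
        ((sum_eq_zero_iff_of_nonneg fun P _ => sq_nonneg _).1 h3 P hP)
  -- the norm of `t`
  have hstar : ∑ P ∈ T, (ℓ P : ℤ) * (t : E → ℤ) P ^ 2 + 2 * c e₀ t = 0 := by
    have k1 := hW t
    have k2 := h.q1 w
    have k3 := h.q2 y0
    have k4 := h.orth w y0
    have k5 := h.orth t y0
    have hr' : ∀ P ∈ T, m * (t : E → ℤ) P = (g0 : E → ℤ) P - (w : E → ℤ) P := fun P hP => by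
      have := hr P hP
      linarith
    have k6 : m ^ 2 * ∑ P ∈ T, (ℓ P : ℤ) * (t : E → ℤ) P ^ 2 =
        ∑ P ∈ T, (ℓ P : ℤ) * (g0 : E → ℤ) P ^ 2 -
        2 * ∑ P ∈ T, (ℓ P : ℤ) * ((g0 : E → ℤ) P * (w : E → ℤ) P) +
        ∑ P ∈ T, (ℓ P : ℤ) * (w : E → ℤ) P ^ 2 := by
      rw [mul_sum, mul_sum, ← sum_sub_distrib, ← sum_add_distrib]
      refine sum_congr rfl fun P hP => ?_
      calc m ^ 2 * ((ℓ P : ℤ) * (t : E → ℤ) P ^ 2) = (ℓ P : ℤ) * (m * (t : E → ℤ) P) ^ 2 := by ring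
        _ = _ := by rw [hr' P hP]; ring
    have k7 : m * ∑ P ∈ T, (ℓ P : ℤ) * ((t : E → ℤ) P * (w : E → ℤ) P) =
        ∑ P ∈ T, (ℓ P : ℤ) * ((g0 : E → ℤ) P * (w : E → ℤ) P) -
        ∑ P ∈ T, (ℓ P : ℤ) * (w : E → ℤ) P ^ 2 := by
      rw [mul_sum, ← sum_sub_distrib]
      refine sum_congr rfl fun P hP => ?_
      calc m * ((ℓ P : ℤ) * ((t : E → ℤ) P * (w : E → ℤ) P)) =
          (ℓ P : ℤ) * ((m * (t : E → ℤ) P) * (w : E → ℤ) P) := by ring
        _ = _ := by rw [hr' P hP]; ring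
    have k8 : m * ∑ P ∈ T, (t : E → ℤ) P * (y0 : E → ℤ) P =
        ∑ P ∈ T, (g0 : E → ℤ) P * (y0 : E → ℤ) P - ∑ P ∈ T, (w : E → ℤ) P * (y0 : E → ℤ) P := by
      rw [mul_sum, ← sum_sub_distrib]
      refine sum_congr rfl fun P hP => ?_
      calc m * ((t : E → ℤ) P * (y0 : E → ℤ) P) = (m * (t : E → ℤ) P) * (y0 : E → ℤ) P := by ring
        _ = _ := by rw [hr' P hP]; ring
    have k9 : ∑ P ∈ T, ((ℓ P : ℤ) * d P y0 ^ 2 + 2 * (y0 : E → ℤ) P * d P y0) =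
        ∑ P ∈ T, (ℓ P : ℤ) * (g0 : E → ℤ) P ^ 2 +
        2 * ∑ P ∈ T, (g0 : E → ℤ) P * (y0 : E → ℤ) P := by
      rw [mul_sum, ← sum_add_distrib]
      refine sum_congr rfl fun P hP => ?_
      rw [hg0 P hP]
      ring
    have k10 : ∑ e ∈ S, ((ℓ e : ℤ) * c e w ^ 2 + 2 * (w : E → ℤ) e * c e w) =
        ∑ e ∈ S, (ℓ e : ℤ) * (y0 : E → ℤ) e ^ 2 +
        2 * ∑ e ∈ S, (w : E → ℤ) e * (y0 : E → ℤ) e := by
      rw [mul_sum, ← sum_add_distrib]
      refine sum_congr rfl fun e he => ?_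
      rw [hy0 e he]
      ring
    rw [k9] at k3
    rw [k10] at k2
    have k11 : m ^ 2 * (2 * c e₀ t) = 2 * (m * ∑ P ∈ T, (ℓ P : ℤ) *
        ((t : E → ℤ) P * (w : E → ℤ) P)) + 2 * (m * ∑ P ∈ T, (t : E → ℤ) P * (y0 : E → ℤ) P) := by
      have : m ^ 2 * (2 * c e₀ t) = 2 * (m * (m * c e₀ t)) := by ring
      rw [this, k1]
      have h5 : ∑ e ∈ S, (t : E → ℤ) e * (y0 : E → ℤ) e =
        -∑ P ∈ T, (t : E → ℤ) P * (y0 : E → ℤ) P := by linarith
      rw [h5]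
      ring
    have k12 : m ^ 2 * (∑ P ∈ T, (ℓ P : ℤ) * (t : E → ℤ) P ^ 2 + 2 * c e₀ t) = 0 := by
      rw [mul_add, k6, k11, k7, k8]
      linarith
    rcases mul_eq_zero.1 k12 with h1 | h1
    · exact absurd (pow_eq_zero_iff (two_ne_zero) |>.1 h1) hm
    · exact h1
  have ht0 := h.zero_of t he₀ hstar
  have h1 := hE2 y x hx
  rw [← h1]
  have h2 : ∑ P ∈ T, (ℓ P : ℤ) * ((t : E → ℤ) P * d P y) = 0 :=
    sum_eq_zero fun P hP => by rw [ht0 P hP]; ring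
  have h3 := h.orth t y
  have h4 : ∑ P ∈ T, (t : E → ℤ) P * (y : E → ℤ) P = 0 :=
    sum_eq_zero fun P hP => by rw [ht0 P hP]; ring
  rw [h2]
  linarith

end Pool.Agent.H758.TR
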