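import Pool.Agent.H762.MX.Defs
import Pool.Agent.H758.SR.Defs

/-!
# Sums of alternating knots and their twist regions: definitions

Alternating diagrams given by their twist regions, the slice condition given by Donaldson's theorem
for the two lattices of the diagram, self-mirror and mirror diagrams.
-/

set_option autoImplicit false

namespace Pool.Agent.H758.TR

open Finset Matrix
open Pool.Agent.H762.TG (Multigraph)
open Pool.Agent.H762.MX (Parallel blowup)
open Pool.Agent.H758.SR (rank IsIsometry Extends)

/-- An alternating diagram given by its twist regions: a graph whose edges are the twist regions,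
the set of the regions of the first type, and the numbers of crossings of the regions. The Tait
graph of the diagram is obtained from `graph` by replacing each edge `e ∈ first` by a path of
`num e` edges and each edge `e ∉ first` by `num e` parallel edges. -/
structure Diagram (V E : Type) where
  /-- the graph whose edges are the twist regions -/
  graph : Multigraph V E
  /-- the twist regions of the first type -/
  first : Finset E
  /-- the numbers of crossings -/
  num : E → ℕ

namespace Diagram

variable {V E : Type} [Fintype E] [DecidableEq V] [DecidableEq E]

/-- The crossings. -/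
abbrev Crossing (D : Diagram V E) : Type := Σ e, Fin (D.num e)

/-- The lattice of integral cuts of the Tait graph. -/
def cuts (D : Diagram V E) : Submodule ℤ (D.Crossing → ℤ) := blowup D.graph.cuts D.first D.num

/-- The lattice of integral flows of the Tait graph. -/
def flows (D : Diagram V E) : Submodule ℤ (D.Crossing → ℤ) := blowup D.graph.flows D.firstᶜ D.num

/-- The diagram is reduced, the twist regions are the maximal ones, each of them has at least three
crossings, and the diagram has no summand `T(2,4)`. -/
structure Three (D : Diagram V E) : Prop where
  /-- no bridges -/
  flow : ∀ e ∈ D.first, ∃ y ∈ D.graph.flows, y e ≠ 0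
  /-- no loops -/
  cut : ∀ e ∉ D.first, ∃ x ∈ D.graph.cuts, x e ≠ 0
  /-- different regions of the first type are not in series -/
  series : ∀ e ∈ D.first, ∀ f ∈ D.first, D.graph.Series e f → e = f
  /-- different regions of the second type are not parallel -/
  parallel : ∀ e ∉ D.first, ∀ f ∉ D.first, Parallel D.graph e f → e = f
  /-- the numbers are at least three -/
  three : ∀ e, 3 ≤ D.num e
  /-- an edge with four crossings is neither a loop nor a bridge -/
  four : ∀ e, D.num e = 4 → (∃ x ∈ D.graph.cuts, x e ≠ 0) ∧ ∃ y ∈ D.graph.flows, y e ≠ 0

/-- The graph is not empty and the lattice of its cuts is indecomposable: if the restrictions of all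
cuts to `A` (and zero outside `A`) are cuts then `A` is empty or the set of all edges. -/
def Prime (D : Diagram V E) : Prop :=
  Nonempty E ∧ ∀ A : Finset E, (∀ x ∈ D.graph.cuts, (fun e => if e ∈ A then x e else 0) ∈
    D.graph.cuts) → A = ∅ ∨ A = univ

/-- The condition imposed by Donaldson's theorem if the link bounds a disc (more generally, if its
double branched cover bounds a rational homology ball): the lattices of cuts and of flows embed
isometrically in the standard lattices of their ranks, and an integral function `z` on the
crossings defines on the lattice of cuts a functional which extends to the first standard lattice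
if and only if it defines on the lattice of flows a functional which extends to the second one. -/
def LatticeSlice (D : Diagram V E) : Prop :=
  ∃ (φ : (D.Crossing → ℤ) → Fin (rank D.cuts) → ℤ) (ψ : (D.Crossing → ℤ) → Fin (rank D.flows) → ℤ),
    IsIsometry D.cuts φ ∧ IsIsometry D.flows ψ ∧ ∀ z, Extends D.cuts φ z ↔ Extends D.flows ψ z

/-- The diagram is twisted self-mirror: there are an involution `τ` of the set of twist regions
exchanging the two types and signs `η` such that `e` and `τ e` have numbers of crossings which
differ by at most two, and an integral function `x` is a cut if and only if the function with the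
values `η e * x (τ e)` for `e` of the first type and `η e * x (τ e) - (num e - num (τ e)) * x e`
for the others is a flow. -/
def SelfMirror (D : Diagram V E) : Prop :=
  ∃ (τ : E → E) (η : E → ℤˣ), (∀ e, τ (τ e) = e ∧ (τ e ∈ D.first ↔ e ∉ D.first) ∧
    η (τ e) = η e ∧ D.num (τ e) ≤ D.num e + 2) ∧ ∀ x : E → ℤ, x ∈ D.graph.cuts ↔
      (fun e => η e * x (τ e) - if e ∈ D.first then 0 else ((D.num e : ℤ) - D.num (τ e)) * x e) ∈
        D.graph.flows

/-- The link of `D'` is the mirror image of the link of `D`, up to mutation: there is a bijection
`φ` of the sets of twist regions which exchanges the types, keeps the numbers of crossings, and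
takes the flows of `D` to the cuts of `D'`, up to signs. -/
def Mirror {V' E' : Type} (D : Diagram V E) (D' : Diagram V' E') : Prop :=
  ∃ (φ : E ≃ E') (ε : E → ℤˣ), (∀ e, φ e ∈ D'.first ↔ e ∉ D.first) ∧
    (∀ e, D'.num (φ e) = D.num e) ∧ ∀ x : E' → ℤ, x ∈ D'.graph.cuts ↔
      (fun e => ε e * x (φ e)) ∈ D.graph.flows

/-- The sum of finitely many diagrams. -/
def sum {n : ℕ} {V E : Fin n → Type} (D : ∀ i, Diagram (V i) (E i)) :
    Diagram (Σ i, V i) (Σ i, E i) where
  graph := ⟨fun e => ⟨e.1, (D e.1).graph.src e.2⟩, fun e => ⟨e.1, (D e.1).graph.tgt e.2⟩⟩
  first := univ.sigma fun i => (D i).first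
  num e := (D e.1).num e.2

end Diagram

end Pool.Agent.H758.TR
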