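import Pool.Agent.H758.TR.Block

/-!
The consequence of the gluing condition.
-/

set_option autoImplicit false
set_option linter.unusedSectionVars false

namespace Pool.Agent.H758.TR

open Finset Matrix
open Pool.Agent.H762.MX

variable {E : Type} [Fintype E] [DecidableEq E]

theorem pr_rt {L : Submodule ℤ (E → ℤ)} {S : Finset E} {ℓ : E → ℕ} {hpos : ∀ e, 0 < ℓ e}
    {e : E} (he : e ∈ S) (s : ℕ) (h : s + 1 < ℓ e) :
    pr L S ℓ hpos ⟨rt ℓ e s h, rt_mem he s h⟩ = 0 := by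
  have hmem := rt_mem (L := (⊥ : Submodule ℤ (E → ℤ))) he s h
  obtain ⟨x, hx, h1, h2⟩ := hmem
  rw [Submodule.mem_bot] at hx
  subst hx
  apply Subtype.ext
  change rho S ℓ hpos (rt ℓ e s h) = 0
  exact rho_eq (L := L) S ℓ hpos h1 h2

theorem exists_eta {L F : Submodule ℤ (E → ℤ)} {S T : Finset E} (hST : ∀ e, e ∈ T ↔ e ∉ S)
    {ℓ : E → ℕ} {hpos : ∀ e, 0 < ℓ e} {ι κ : Type} [Fintype ι] [DecidableEq ι] [Fintype κ]
    {φ : blowup L S ℓ →ₗ[ℤ] (ι → ℤ)} {ψ : blowup F T ℓ →ₗ[ℤ] (κ → ℤ)}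
    {c : E → L →ₗ[ℤ] ℤ} {d : E → F →ₗ[ℤ] ℤ} {B : (Σ e : S, Fin (ℓ e)) ≃ ι}
    {B' : (Σ e : T, Fin (ℓ e)) ≃ κ} {ε : (Σ e : S, Fin (ℓ e)) → ℤ}
    {ε' : (Σ e : T, Fin (ℓ e)) → ℤ} (hb : IsBlock hpos φ c B ε) (hb' : IsBlock hpos ψ d B' ε')
    (hglue : ∀ ζ : (Σ e, Fin (ℓ e)) → ℤ,
      (∃ a, ∀ z : blowup L S ℓ, φ z ⬝ᵥ a = (z : (Σ e, Fin (ℓ e)) → ℤ) ⬝ᵥ ζ) →
      ∃ b, ∀ z : blowup F T ℓ, ψ z ⬝ᵥ b = (z : (Σ e, Fin (ℓ e)) → ℤ) ⬝ᵥ ζ)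
    {e₀ : E} (he₀ : e₀ ∈ S) {β : E → ℤ} (hβ0 : ∀ e, e ∉ T → β e = 0)
    (hβ : ∀ x : L, c e₀ x = (x : E → ℤ) ⬝ᵥ β) :
    ∃ η : E → ℤ, ∀ y : F, ∑ P ∈ T, (η P * (y : E → ℤ) P + (β P + ℓ P * η P) * d P y) =
      (y : E → ℤ) e₀ := by
  classical
  let k : E → ℤ := fun e => if e = e₀ then 1 else β e
  let ζ : (Σ e, Fin (ℓ e)) → ℤ := fun r => if (r.2 : ℕ) = 0 then k r.1 else 0
  have hζ : ∀ e (i : Fin (ℓ e)), ζ ⟨e, i⟩ = if (i : ℕ) = 0 then k e else 0 := fun e i => rfl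
  have hsum : ∀ (e : E) (u : Fin (ℓ e) → ℤ), ∑ i, u i * ζ ⟨e, i⟩ = u ⟨0, hpos e⟩ * k e := by
    intro e u
    rw [sum_eq_single (⟨0, hpos e⟩ : Fin (ℓ e))]
    · rw [hζ, if_pos rfl]
    · intro j _ hj
      rw [hζ, if_neg (fun h => hj (Fin.ext h)), mul_zero]
    · intro h'; exact absurd (mem_univ _) h'
  have hζs : ∀ e, ∑ i, ζ ⟨e, i⟩ = k e := by
    intro e
    have := hsum e (fun _ => 1)
    simpa using this
  have hT0 : e₀ ∉ T := fun h => (hST _).1 h he₀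
  have hkT : ∀ P ∈ T, k P = β P := fun P hP => if_neg (fun h : P = e₀ => hT0 (by rw [← h]; exact hP))
  have hkS : ∀ e ∈ S, k e = if e = e₀ then 1 else 0 := by
    intro e he
    simp only [k]
    rw [hβ0 e (fun h => (hST _).1 h he)]
  -- the functional extends to the first lattice
  obtain ⟨b, hbb⟩ := hglue ζ ⟨Pi.single (B ⟨⟨e₀, he₀⟩, ⟨0, hpos e₀⟩⟩)
    (ε ⟨⟨e₀, he₀⟩, ⟨0, hpos e₀⟩⟩), fun z => by
      rw [dotProduct_single, mul_comm, hb.form, dot_split hST]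
      have e1 : ∑ e : S, ∑ i : Fin (ℓ e), (z : (Σ e, Fin (ℓ e)) → ℤ) ⟨e, i⟩ * ζ ⟨e, i⟩ =
          (z : (Σ e, Fin (ℓ e)) → ℤ) ⟨e₀, ⟨0, hpos e₀⟩⟩ := by
        rw [sum_congr rfl fun (e : S) _ => hsum (e : E)
          (fun i => (z : (Σ e, Fin (ℓ e)) → ℤ) ⟨(e : E), i⟩), sum_eq_single (⟨e₀, he₀⟩ : S)]
        · rw [hkS e₀ he₀, if_pos rfl, mul_one]
        · intro e _ he
          rw [hkS e e.2, if_neg (fun h => he (Subtype.ext h)), mul_zero]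
        · intro h'; exact absurd (mem_univ _) h'
      have e2 : ∑ e ∈ T, ∑ i : Fin (ℓ e), (z : (Σ e, Fin (ℓ e)) → ℤ) ⟨e, i⟩ * ζ ⟨e, i⟩ =
          c e₀ (pr L S ℓ hpos z) := by
        rw [hβ, dotProduct, ← sum_subset (subset_univ T)
          (fun e _ he => by rw [hβ0 e he, mul_zero])]
        refine sum_congr rfl fun P hP => ?_
        rw [hsum P (fun i => (z : (Σ e, Fin (ℓ e)) → ℤ) ⟨P, i⟩), hkT P hP,
          pr_out (hpos := hpos) z ((hST P).1 hP)]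
      rw [e1, e2]⟩
  -- the coefficients
  let b' : (Σ e : T, Fin (ℓ e)) → ℤ := fun r => ε' r * b (B' r)
  have hST' : ∀ e, e ∈ S ↔ e ∉ T := fun e => by rw [hST, not_not]
  have hdot : ∀ z : blowup F T ℓ, ψ z ⬝ᵥ b = ∑ P : T, ∑ i : Fin (ℓ P),
      ((z : (Σ e, Fin (ℓ e)) → ℤ) ⟨P, i⟩ + d P (pr F T ℓ hpos z)) * b' ⟨P, i⟩ := by
    intro z
    rw [dotProduct, ← B'.sum_comp, Fintype.sum_sigma]
    refine sum_congr rfl fun P _ => sum_congr rfl fun i _ => ?_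
    have h1 := hb'.form z ⟨P, i⟩
    simp only at h1
    rw [← h1]
    have h2 := hb'.sq ⟨P, i⟩
    calc ψ z (B' ⟨P, i⟩) * b (B' ⟨P, i⟩) =
        (ε' ⟨P, i⟩ * ε' ⟨P, i⟩) * (ψ z (B' ⟨P, i⟩) * b (B' ⟨P, i⟩)) := by rw [h2, one_mul]
      _ = _ := by simp only [b']; ring
  have hconst : ∀ (P : T) (s : ℕ) (hs : s < ℓ P), b' ⟨P, ⟨s, hs⟩⟩ - ζ ⟨P, ⟨s, hs⟩⟩ =
      b' ⟨P, ⟨0, hpos P⟩⟩ - ζ ⟨P, ⟨0, hpos P⟩⟩ := by
    intro P s
    induction s with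
    | zero => intro _; rfl
    | succ s ih =>
      intro hs
      rw [← ih (by omega)]
      have h1 := hbb ⟨rt ℓ P s hs, rt_mem P.2 s hs⟩
      rw [hdot, pr_rt P.2 s hs] at h1
      simp only [map_zero, add_zero] at h1
      rw [rt_dot] at h1
      have h2 : ∑ P' : T, ∑ i : Fin (ℓ P'), rt ℓ P s hs ⟨P', i⟩ * b' ⟨P', i⟩ =
          b' ⟨P, ⟨s, Nat.lt_of_succ_lt hs⟩⟩ - b' ⟨P, ⟨s + 1, hs⟩⟩ := by
        rw [sum_eq_single P]
        · simp only [rt_apply, if_true, sub_mul, ite_mul, one_mul, zero_mul]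
          rw [sum_sub_distrib, sum_eq_single (⟨s, Nat.lt_of_succ_lt hs⟩ : Fin (ℓ P)),
            sum_eq_single (⟨s + 1, hs⟩ : Fin (ℓ P))]
          · simp
          · intro j _ hj
            rw [if_neg]
            intro h'; exact hj (Fin.ext h')
          · intro h'; exact absurd (mem_univ _) h'
          · intro j _ hj
            rw [if_neg]
            intro h'; exact hj (Fin.ext h')
          · intro h'; exact absurd (mem_univ _) h'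
        · intro P' _ hP'
          refine sum_eq_zero fun i _ => ?_
          rw [rt_apply, if_neg (fun h => hP' (Subtype.ext h)), zero_mul]
        · intro h'; exact absurd (mem_univ _) h'
      rw [h2] at h1
      linarith
  let η : E → ℤ := fun e => if h : e ∈ T then b' ⟨⟨e, h⟩, ⟨0, hpos e⟩⟩ - ζ ⟨e, ⟨0, hpos e⟩⟩ else 0
  have hη : ∀ (P : T) (i : Fin (ℓ P)), b' ⟨P, i⟩ = η P + ζ ⟨P, i⟩ := by
    intro P i
    have h1 := hconst P i i.2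
    have h2 : η P = b' ⟨P, ⟨0, hpos P⟩⟩ - ζ ⟨P, ⟨0, hpos P⟩⟩ := dif_pos P.2
    rw [h2, ← h1]
    simp only [Fin.eta]
    ring
  refine ⟨η, fun y => ?_⟩
  set z := sec F T ℓ hpos y with hz
  have hpr : pr F T ℓ hpos z = y := pr_sec y
  have h1 := hbb z
  rw [hdot, dot_split hST', hpr] at h1
  have e1 : ∑ e ∈ S, ∑ i : Fin (ℓ e), (z : (Σ e, Fin (ℓ e)) → ℤ) ⟨e, i⟩ * ζ ⟨e, i⟩ =
      (y : E → ℤ) e₀ := by
    rw [sum_congr rfl fun e _ => hsum e (fun i => (z : (Σ e, Fin (ℓ e)) → ℤ) ⟨e, i⟩),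
      sum_eq_single e₀]
    · rw [hkS e₀ he₀, if_pos rfl, mul_one, pr_out (hpos := hpos) z hT0, hpr]
    · intro e he hne
      rw [hkS e he, if_neg hne, mul_zero]
    · intro h'; exact absurd he₀ h'
  rw [e1] at h1
  have e2 : ∑ P : T, ∑ i : Fin (ℓ P),
      ((z : (Σ e, Fin (ℓ e)) → ℤ) ⟨P, i⟩ + d P y) * b' ⟨P, i⟩ =
      ∑ P : T, (η P * (y : E → ℤ) P + (β P + ℓ P * η P) * d P y) +
      ∑ P : T, ∑ i : Fin (ℓ P), (z : (Σ e, Fin (ℓ e)) → ℤ) ⟨P, i⟩ * ζ ⟨P, i⟩ := by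
    rw [← sum_add_distrib]
    refine sum_congr rfl fun P _ => ?_
    have h3 : ∀ i : Fin (ℓ P), ((z : (Σ e, Fin (ℓ e)) → ℤ) ⟨P, i⟩ + d P y) * b' ⟨P, i⟩ =
        η P * (z : (Σ e, Fin (ℓ e)) → ℤ) ⟨P, i⟩ + d P y * ζ ⟨P, i⟩ + d P y * η P +
        (z : (Σ e, Fin (ℓ e)) → ℤ) ⟨P, i⟩ * ζ ⟨P, i⟩ := fun i => by rw [hη]; ring
    rw [sum_congr rfl fun i _ => h3 i, sum_add_distrib, sum_add_distrib, sum_add_distrib,
      ← mul_sum, ← mul_sum, hζs, hkT P P.2, pr_in (hpos := hpos) z P.2, hpr, sum_const,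
      card_univ, Fintype.card_fin, nsmul_eq_mul]
    ring
  rw [e2] at h1
  rw [← sum_coe_sort T fun P => (η P * (y : E → ℤ) P + (β P + ℓ P * η P) * d P y)]
  linarith

end Pool.Agent.H758.TR
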