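import Pool.Agent.H758.TR.Graph
import Pool.Agent.H758.TR.Glue
import Pool.Agent.H762.MX.Conv

/-!
The functionals of the two embeddings are inverse to each other.
-/

set_option autoImplicit false
set_option linter.unusedSectionVars false
set_option maxHeartbeats 400000

namespace Pool.Agent.H758.TR

open Finset Matrix
open Pool.Agent.H762.TG (Multigraph IsUnit')
open Pool.Agent.H762.MX

variable {E : Type} [Fintype E] [DecidableEq E]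

/-- the terms of the form -/
theorem term_ge {ℓ c u : ℤ} (hℓ : 3 ≤ ℓ) (hu : u = 0 ∨ u = 1 ∨ u = -1) :
    |c| ≤ ℓ * c ^ 2 + 2 * u * c := by
  have h1 : |c| ≤ c ^ 2 := by
    have := abs_le_sq c
    rwa [sq]
  have h2 : 3 * c ^ 2 ≤ ℓ * c ^ 2 := mul_le_mul_of_nonneg_right hℓ (sq_nonneg _)
  have h3 : -|c| ≤ u * c := by
    have h4 := neg_abs_le c
    have h5 := le_abs_self c
    have h6 := abs_nonneg c
    rcases hu with h | h | h <;> rw [h] <;> linarith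
  nlinarith

/-- the bound for unit vectors -/
theorem unit_term {L : Submodule ℤ (E → ℤ)} {S T : Finset E} {ℓ : E → ℕ} (hℓ : ∀ e, 3 ≤ ℓ e)
    {c : E → L →ₗ[ℤ] ℤ}
    (h1 : ∀ x : L, ∑ P ∈ T, (ℓ P : ℤ) * (x : E → ℤ) P ^ 2 =
      ∑ e ∈ S, ((ℓ e : ℤ) * c e x ^ 2 + 2 * (x : E → ℤ) e * c e x))
    {u : L} (hu : IsUnit' (u : E → ℤ)) {e : E} (he : e ∈ S) :
    (ℓ e : ℤ) * c e u ^ 2 + 2 * (u : E → ℤ) e * c e u ≤
      ∑ P ∈ T, (ℓ P : ℤ) * (u : E → ℤ) P ^ 2 := by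
  rw [h1]
  exact single_le_sum (f := fun f => (ℓ f : ℤ) * c f u ^ 2 + 2 * (u : E → ℤ) f * c f u)
    (fun f _ => (abs_nonneg _).trans (term_ge (by exact_mod_cast hℓ f) (hu f))) he

theorem unit_ge {L : Submodule ℤ (E → ℤ)} {S T : Finset E} {ℓ : E → ℕ} (hℓ : ∀ e, 3 ≤ ℓ e)
    {c : E → L →ₗ[ℤ] ℤ}
    (h1 : ∀ x : L, ∑ P ∈ T, (ℓ P : ℤ) * (x : E → ℤ) P ^ 2 =
      ∑ e ∈ S, ((ℓ e : ℤ) * c e x ^ 2 + 2 * (x : E → ℤ) e * c e x))
    {u : L} (hu : IsUnit' (u : E → ℤ)) {e : E} (he : e ∈ S) :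
    |c e u| ≤ ∑ P ∈ T, (ℓ P : ℤ) * (u : E → ℤ) P ^ 2 :=
  (term_ge (by exact_mod_cast hℓ e) (hu e)).trans (unit_term hℓ h1 hu he)

theorem kill_gen {L : Submodule ℤ (E → ℤ)} {S T : Finset E} {ℓ : E → ℕ} (hℓ : ∀ e, 3 ≤ ℓ e)
    {c : E → L →ₗ[ℤ] ℤ}
    (hspan : ∀ x ∈ L, x ∈ Submodule.span ℤ {d | d ∈ L ∧ IsUnit' d ∧ ∀ f, x f = 0 → d f = 0})
    (h1 : ∀ x : L, ∑ P ∈ T, (ℓ P : ℤ) * (x : E → ℤ) P ^ 2 =
      ∑ e ∈ S, ((ℓ e : ℤ) * c e x ^ 2 + 2 * (x : E → ℤ) e * c e x))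
    {x : L} (hx : ∀ P ∈ T, (x : E → ℤ) P = 0) {e : E} (he : e ∈ S) : c e x = 0 := by
  have hle : Submodule.span ℤ {d | d ∈ L ∧ IsUnit' d ∧ ∀ f, (x : E → ℤ) f = 0 → d f = 0} ≤
      (LinearMap.ker (c e)).map L.subtype := by
    rw [Submodule.span_le]
    rintro d ⟨hd, hdu, hd0⟩
    refine ⟨⟨d, hd⟩, ?_, rfl⟩
    rw [SetLike.mem_coe, LinearMap.mem_ker]
    have h2 := unit_ge hℓ h1 (u := ⟨d, hd⟩) hdu he
    have h3 : ∑ P ∈ T, (ℓ P : ℤ) * (((⟨d, hd⟩ : L) : E → ℤ)) P ^ 2 = 0 := by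
      apply sum_eq_zero
      intro P hP
      change (ℓ P : ℤ) * d P ^ 2 = 0
      rw [hd0 P (hx P hP)]
      ring
    rw [h3] at h2
    have h4 := abs_nonneg (c e ⟨d, hd⟩)
    exact abs_eq_zero.1 (by omega)
  obtain ⟨y, hy, hyx⟩ := hle (hspan x x.2)
  have : y = x := Subtype.ext hyx
  rw [← this]
  exact hy

theorem polar_gen {L : Submodule ℤ (E → ℤ)} {S T : Finset E} {ℓ : E → ℕ}
    {c : E → L →ₗ[ℤ] ℤ}
    (h1 : ∀ x : L, ∑ P ∈ T, (ℓ P : ℤ) * (x : E → ℤ) P ^ 2 =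
      ∑ e ∈ S, ((ℓ e : ℤ) * c e x ^ 2 + 2 * (x : E → ℤ) e * c e x)) (x x' : L) :
    ∑ P ∈ T, (ℓ P : ℤ) * ((x : E → ℤ) P * (x' : E → ℤ) P) =
      ∑ e ∈ S, ((ℓ e : ℤ) * (c e x * c e x') + (x : E → ℤ) e * c e x' +
        (x' : E → ℤ) e * c e x) := by
  have h2 := h1 (x + x')
  have h3 := h1 x
  have h4 := h1 x'
  have e1 : ∑ P ∈ T, (ℓ P : ℤ) * ((x + x' : L) : E → ℤ) P ^ 2 =
      ∑ P ∈ T, (ℓ P : ℤ) * (x : E → ℤ) P ^ 2 + ∑ P ∈ T, (ℓ P : ℤ) * (x' : E → ℤ) P ^ 2 +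
      2 * ∑ P ∈ T, (ℓ P : ℤ) * ((x : E → ℤ) P * (x' : E → ℤ) P) := by
    rw [mul_sum, ← sum_add_distrib, ← sum_add_distrib]
    refine sum_congr rfl fun P _ => ?_
    rw [Submodule.coe_add, Pi.add_apply]
    ring
  have e2 : ∑ e ∈ S, ((ℓ e : ℤ) * c e (x + x') ^ 2 +
        2 * ((x + x' : L) : E → ℤ) e * c e (x + x')) =
      ∑ e ∈ S, ((ℓ e : ℤ) * c e x ^ 2 + 2 * (x : E → ℤ) e * c e x) +
      ∑ e ∈ S, ((ℓ e : ℤ) * c e x' ^ 2 + 2 * (x' : E → ℤ) e * c e x') +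
      2 * ∑ e ∈ S, ((ℓ e : ℤ) * (c e x * c e x') + (x : E → ℤ) e * c e x' +
        (x' : E → ℤ) e * c e x) := by
    rw [mul_sum, ← sum_add_distrib, ← sum_add_distrib]
    refine sum_congr rfl fun P _ => ?_
    rw [Submodule.coe_add, Pi.add_apply, map_add]
    ring
  rw [e1, e2] at h2
  linarith

/-- the full rank of the embedding -/
theorem full_gen {L : Submodule ℤ (E → ℤ)} {S T : Finset E} (hST : ∀ e, e ∈ T ↔ e ∉ S)
    {ℓ : E → ℕ} (hℓ : ∀ e, 3 ≤ ℓ e) {c : E → L →ₗ[ℤ] ℤ}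
    (h1 : ∀ x : L, ∑ P ∈ T, (ℓ P : ℤ) * (x : E → ℤ) P ^ 2 =
      ∑ e ∈ S, ((ℓ e : ℤ) * c e x ^ 2 + 2 * (x : E → ℤ) e * c e x))
    (hr : Module.finrank ℤ L = S.card) (v : E → ℤ) :
    ∃ k : ℤ, k ≠ 0 ∧ ∃ x : L, ∀ e ∈ S, (x : E → ℤ) e + ℓ e * c e x = k * v e := by
  let Φ : L →ₗ[ℤ] (S → ℤ) := LinearMap.pi fun e => ev L e + (ℓ e : ℤ) • c e
  have hΦ : ∀ x (e : S), Φ x e = (x : E → ℤ) e + ℓ e * c e x := fun x e => rfl
  have hinj : Function.Injective Φ := by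
    rw [← LinearMap.ker_eq_bot, LinearMap.ker_eq_bot']
    intro x hx
    have h2 := kill_aux (ℓ := fun e => (ℓ e : ℤ)) hST h1 (fun e => by
      have := hℓ e
      omega) (v := 0) (fun _ _ => rfl) (k := 0) (x := x)
      (by simp) (by
        intro e he
        have h3 := congrFun hx ⟨e, he⟩
        rw [hΦ] at h3
        simp only [Pi.zero_apply] at h3
        simp only [Pi.zero_apply]
        linarith)
    rw [zero_smul] at h2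
    exact Subtype.ext h2
  obtain ⟨k, hk, x, hx⟩ := full_rank Φ hinj (by rw [hr, Module.finrank_pi, Fintype.card_coe])
    (fun e => v e : S → ℤ)
  refine ⟨k, hk, x, fun e he => ?_⟩
  have h3 := congrFun hx ⟨e, he⟩
  rw [hΦ, Pi.smul_apply, smul_eq_mul] at h3
  exact h3

variable {V : Type} [Fintype V] [DecidableEq V]

/-- The functionals of two glued embeddings. -/
structure Data (G : Multigraph V E) (S T : Finset E) (ℓ : E → ℕ) (c : E → G.cuts →ₗ[ℤ] ℤ)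
    (d : E → G.flows →ₗ[ℤ] ℤ) : Prop where
  hST : ∀ e, e ∈ T ↔ e ∉ S
  three : ∀ e, 3 ≤ ℓ e
  q1 : ∀ x : G.cuts, ∑ P ∈ T, (ℓ P : ℤ) * (x : E → ℤ) P ^ 2 =
    ∑ e ∈ S, ((ℓ e : ℤ) * c e x ^ 2 + 2 * (x : E → ℤ) e * c e x)
  q2 : ∀ y : G.flows, ∑ e ∈ S, (ℓ e : ℤ) * (y : E → ℤ) e ^ 2 =
    ∑ P ∈ T, ((ℓ P : ℤ) * d P y ^ 2 + 2 * (y : E → ℤ) P * d P y)
  r1 : Module.finrank ℤ G.cuts = S.card
  r2 : Module.finrank ℤ G.flows = T.card
  glue : ∀ e₀ ∈ S, ∀ β : E → ℤ, (∀ e, e ∉ T → β e = 0) →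
    (∀ x : G.cuts, c e₀ x = (x : E → ℤ) ⬝ᵥ β) → ∃ η : E → ℤ, ∀ y : G.flows,
      ∑ P ∈ T, (η P * (y : E → ℤ) P + (β P + ℓ P * η P) * d P y) = (y : E → ℤ) e₀

variable {G : Multigraph V E} {S T : Finset E} {ℓ : E → ℕ} {c : E → G.cuts →ₗ[ℤ] ℤ}
    {d : E → G.flows →ₗ[ℤ] ℤ}

theorem Data.hST' (h : Data G S T ℓ c d) (e : E) : e ∈ S ↔ e ∉ T := by rw [h.hST, not_not]

theorem Data.kill1 (h : Data G S T ℓ c d) {x : G.cuts} (hx : ∀ P ∈ T, (x : E → ℤ) P = 0) {e : E}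
    (he : e ∈ S) : c e x = 0 := kill_gen h.three (fun _ hx => G.cut_mem_span hx) h.q1 hx he

theorem flow_span (G : Multigraph V E) : ∀ x ∈ G.flows, x ∈ Submodule.span ℤ
    {d | d ∈ G.flows ∧ IsUnit' d ∧ ∀ f, x f = 0 → d f = 0} := fun x hx =>
  G.flow_mem_span _ x hx le_rfl

theorem Data.kill2 (h : Data G S T ℓ c d) {y : G.flows} (hy : ∀ e ∈ S, (y : E → ℤ) e = 0) {P : E}
    (hP : P ∈ T) : d P y = 0 := by
  have h1 := flow_span G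
  exact kill_gen h.three h1 h.q2 hy hP

theorem Data.split (h : Data G S T ℓ c d) (f : E → ℤ) :
    ∑ e, f e = ∑ e ∈ S, f e + ∑ e ∈ T, f e := sum_split h.hST f

/-- cuts and flows are orthogonal -/
theorem Data.orth (h : Data G S T ℓ c d) (x : G.cuts) (y : G.flows) :
    ∑ e ∈ S, (x : E → ℤ) e * (y : E → ℤ) e + ∑ P ∈ T, (x : E → ℤ) P * (y : E → ℤ) P = 0 := by
  rw [← h.split fun e => (x : E → ℤ) e * (y : E → ℤ) e]
  exact G.cuts_dot_flows x.2 y.2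

/-- the flow of a cut -/
theorem Data.flow_of (h : Data G S T ℓ c d) (x : G.cuts) :
    ∃ z : G.flows, ∀ e ∈ S, (z : E → ℤ) e = c e x := by
  obtain ⟨z, hz, hz'⟩ := exists_flow G T (fun e => if e ∈ S then c e x else 0) fun x' hx' h0 => by
    have h1 := polar_gen h.q1 x ⟨x', hx'⟩
    rw [dotProduct, h.split, sum_eq_zero (s := T) (fun P hP => by
      rw [if_neg ((h.hST P).1 hP), mul_zero]), add_zero]
    rw [sum_eq_zero fun P hP => by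
      change (ℓ P : ℤ) * ((x : E → ℤ) P * x' P) = 0
      rw [h0 P hP]; ring] at h1
    rw [h1]
    refine sum_congr rfl fun e he => ?_
    have h2 : c e ⟨x', hx'⟩ = 0 := h.kill1 (x := ⟨x', hx'⟩) h0 he
    rw [if_pos he, h2]
    change _ = (ℓ e : ℤ) * (c e x * 0) + (x : E → ℤ) e * 0 + x' e * c e x
    ring
  refine ⟨⟨z, hz⟩, fun e he => ?_⟩
  change z e = _
  rw [hz' e ((h.hST' e).1 he), if_pos he]

/-- the cut of a flow -/
theorem Data.cut_of (h : Data G S T ℓ c d) (y : G.flows) :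
    ∃ g : G.cuts, ∀ P ∈ T, (g : E → ℤ) P = d P y := by
  obtain ⟨g, hg, hg'⟩ := exists_cut G T (fun P => d P y) fun z hz h0 => by
    have h0' : ∀ e ∈ S, z e = 0 := fun e he => h0 e ((h.hST' e).1 he)
    have h1 := polar_gen h.q2 y ⟨z, hz⟩
    rw [dotProduct, h.split, sum_eq_zero (s := S) (fun e he => by
      rw [h0' e he, mul_zero]), zero_add]
    rw [sum_eq_zero fun e he => by
      change (ℓ e : ℤ) * ((y : E → ℤ) e * z e) = 0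
      rw [h0' e he]; ring] at h1
    rw [h1]
    refine sum_congr rfl fun P hP => ?_
    have h2 : d P ⟨z, hz⟩ = 0 := h.kill2 (y := ⟨z, hz⟩) h0' hP
    rw [h2]
    change _ = (ℓ P : ℤ) * (d P y * 0) + (y : E → ℤ) P * 0 + z P * d P y
    ring
  exact ⟨⟨g, hg⟩, hg'⟩

/-- all coordinates -/
def co (G : Multigraph V E) (e : E) : G.cuts →+ ℤ := (ev G.cuts e).toAddMonoidHom

theorem co_apply (e : E) (x : G.cuts) : co G e x = (x : E → ℤ) e := rfl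

theorem regular_co : Regular (co G) := by
  rintro ⟨x, hx⟩ ⟨e, he⟩
  obtain ⟨u, hu, hux, hue⟩ := exists_conf_cut G hx he
  refine ⟨⟨u, hu⟩, ⟨e, ?_⟩, fun f => hux f⟩
  change u e ≠ 0
  rw [hue]
  exact fun h => he (Int.sign_eq_zero_iff_zero.1 h)

/-- a quadratic function is nonnegative on unit cuts -/
theorem Data.unit_nonneg (h : Data G S T ℓ c d) {u : G.cuts} (hu : IsUnit' (u : E → ℤ)) {e : E}
    (he : e ∈ S) : 0 ≤ ∑ P ∈ T, (ℓ P : ℤ) * (u : E → ℤ) P ^ 2 + 2 * c e u ∧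
    (∑ P ∈ T, (ℓ P : ℤ) * (u : E → ℤ) P ^ 2 + 2 * c e u = 0 → ∀ P ∈ T, (u : E → ℤ) P = 0) := by
  by_cases h0 : ∀ P ∈ T, (u : E → ℤ) P = 0
  · have h1 : c e u = 0 := h.kill1 h0 he
    have h2 : 0 ≤ ∑ P ∈ T, (ℓ P : ℤ) * (u : E → ℤ) P ^ 2 :=
      sum_nonneg fun P _ => by positivity
    exact ⟨by rw [h1]; linarith, fun _ => h0⟩
  · push Not at h0
    obtain ⟨P, hP, hPu⟩ := h0
    have h3 : 3 ≤ ∑ P ∈ T, (ℓ P : ℤ) * (u : E → ℤ) P ^ 2 := by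
      have h4 : (ℓ P : ℤ) * (u : E → ℤ) P ^ 2 ≤ ∑ P ∈ T, (ℓ P : ℤ) * (u : E → ℤ) P ^ 2 :=
        single_le_sum (f := fun P => (ℓ P : ℤ) * (u : E → ℤ) P ^ 2) (fun P _ => by positivity) hP
      have h5 : (1 : ℤ) ≤ (u : E → ℤ) P ^ 2 := by
        rcases hu P with h6 | h6 | h6
        · exact absurd h6 hPu
        · rw [h6]; norm_num
        · rw [h6]; norm_num
      have h6 : (3 : ℤ) ≤ ℓ P := by exact_mod_cast h.three P
      nlinarith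
    have h4 := unit_term h.three h.q1 hu he
    have h5 : (3 : ℤ) ≤ ℓ e := by exact_mod_cast h.three e
    have h6 : 0 < ∑ P ∈ T, (ℓ P : ℤ) * (u : E → ℤ) P ^ 2 + 2 * c e u := by
      by_cases h7 : -1 ≤ c e u
      · linarith
      · have h8 : 3 * c e u ^ 2 ≤ (ℓ e : ℤ) * c e u ^ 2 :=
          mul_le_mul_of_nonneg_right h5 (sq_nonneg _)
        have h9 : 2 * c e u ≤ 2 * (u : E → ℤ) e * c e u := by
          rcases hu e with h10 | h10 | h10 <;> rw [h10] <;> linarith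
        nlinarith
    exact ⟨h6.le, fun h7 => absurd h7 h6.ne'⟩

/-- the function vanishes only on cuts which vanish on `T` -/
theorem Data.zero_of (h : Data G S T ℓ c d) (x : G.cuts) {e : E} (he : e ∈ S)
    (h0 : ∑ P ∈ T, (ℓ P : ℤ) * (x : E → ℤ) P ^ 2 + 2 * c e x = 0) :
    ∀ P ∈ T, (x : E → ℤ) P = 0 := by
  obtain ⟨n, b, hb⟩ := exists_dec (regular_co (G := G)) x
  have hx : x = ∑ i, b i := by
    apply Subtype.ext
    funext f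
    have h1 := hb.2 f
    simp only [co_apply] at h1
    rw [← h1, Submodule.coe_sum, Finset.sum_apply]
  have hunit : ∀ i, IsUnit' (b i : E → ℤ) := fun i f => by
    have h1 := abs_le.1 ((hb.1 i).1.2.1 f)
    rw [co_apply] at h1
    omega
  have hsum : ∑ i, (∑ P ∈ T, (ℓ P : ℤ) * (b i : E → ℤ) P ^ 2 + 2 * c e (b i)) =
      ∑ P ∈ T, (ℓ P : ℤ) * |(x : E → ℤ) P| + 2 * c e x := by
    rw [sum_add_distrib, ← mul_sum, ← map_sum, ← hx, sum_comm]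
    congr 1
    refine sum_congr rfl fun P _ => ?_
    rw [← mul_sum]
    have h1 := hb.sum_sq P
    simp only [co_apply] at h1
    rw [← h1]
    simp only [sq]
  have hle : ∑ P ∈ T, (ℓ P : ℤ) * |(x : E → ℤ) P| ≤ ∑ P ∈ T, (ℓ P : ℤ) * (x : E → ℤ) P ^ 2 :=
    sum_le_sum fun P _ => mul_le_mul_of_nonneg_left (by
      have := abs_le_sq ((x : E → ℤ) P)
      rwa [sq]) (by positivity)
  have h1 : ∑ i, (∑ P ∈ T, (ℓ P : ℤ) * (b i : E → ℤ) P ^ 2 + 2 * c e (b i)) = 0 :=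
    le_antisymm (by rw [hsum]; linarith) (sum_nonneg fun i _ => (h.unit_nonneg (hunit i) he).1)
  have h2 := (sum_eq_zero_iff_of_nonneg fun i _ => (h.unit_nonneg (hunit i) he).1).1 h1
  intro P hP
  rw [hx, Submodule.coe_sum, Finset.sum_apply]
  exact sum_eq_zero fun i _ => (h.unit_nonneg (hunit i) he).2 (h2 i (mem_univ i)) P hP

end Pool.Agent.H758.TR
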