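import Pool.Agent.H758.TR.Elem

/-!
Two families of functionals whose quadratic forms nearly agree.
-/

set_option autoImplicit false
set_option linter.unusedSectionVars false

namespace Pool.Agent.H758.TR

open Finset

variable {Λ : Type} [AddCommGroup Λ] {J I : Type} [Fintype J] [Fintype I]

/-- The two families and the form relating them. -/
structure Sys (p : J → ℤ) (q : I → ℤ) (f : J → Λ →+ ℤ) (g : I → Λ →+ ℤ) (B : Λ → Λ → ℤ) : Prop where
  ker : ∀ a, (∀ j, f j a = 0) ↔ ∀ i, g i a = 0
  regf : Regular f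
  regg : Regular g
  addl : ∀ a b c, B (a + b) c = B a c + B b c
  addr : ∀ a b c, B a (b + c) = B a b + B a c
  zerol : ∀ a b, (∀ i, g i a = 0) → B a b = 0
  zeror : ∀ a b, (∀ j, f j b = 0) → B a b = 0
  quad : ∀ a, ip p f a a = ip q g a a + 2 * B a a
  bound : ∀ a b, Elem g a → Elem f b → |B a b| ≤ 1
  p3 : ∀ j, 3 ≤ p j
  q3 : ∀ i, 3 ≤ q i

variable {p : J → ℤ} {q : I → ℤ} {f : J → Λ →+ ℤ} {g : I → Λ →+ ℤ} {B : Λ → Λ → ℤ}

theorem Sys.swap (h : Sys p q f g B) : Sys q p g f (fun a b => - B b a) where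
  ker a := (h.ker a).symm
  regf := h.regg
  regg := h.regf
  addl a b c := by rw [h.addr]; ring
  addr a b c := by rw [h.addl]; ring
  zerol a b hb := by rw [h.zeror b a hb, neg_zero]
  zeror a b hb := by rw [h.zerol b a hb, neg_zero]
  quad a := by rw [h.quad]; ring
  bound a b ha hb := by rw [abs_neg]; exact h.bound b a hb ha
  p3 := h.q3
  q3 := h.p3

theorem Sys.ex_iff (h : Sys p q f g B) (a : Λ) : (∃ j, f j a ≠ 0) ↔ ∃ i, g i a ≠ 0 := by
  have := h.ker a
  constructor
  · rintro ⟨j, hj⟩
    by_contra hcon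
    push Not at hcon
    exact hj (this.2 hcon j)
  · rintro ⟨j, hj⟩
    by_contra hcon
    push Not at hcon
    exact hj (this.1 hcon j)

theorem Sys.sum_left (h : Sys p q f g B) {n : ℕ} (b : Fin n → Λ) {a : Λ}
    (hb : ∀ i, ∑ k, g i (b k) = g i a) (c : Λ) : B a c = ∑ k, B (b k) c := by
  let φ : Λ →+ ℤ := AddMonoidHom.mk' (fun x => B x c) fun x y => h.addl x y c
  have h1 : φ (a - ∑ k, b k) = 0 := h.zerol _ _ fun i => by
    rw [map_sub, map_sum, hb, sub_self]
  rw [map_sub, map_sum, sub_eq_zero] at h1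
  exact h1

theorem Sys.sum_right (h : Sys p q f g B) {n : ℕ} (b : Fin n → Λ) {a : Λ}
    (hb : ∀ i, ∑ k, f i (b k) = f i a) (c : Λ) : B c a = ∑ k, B c (b k) := by
  let φ : Λ →+ ℤ := AddMonoidHom.mk' (fun x => B c x) fun x y => h.addr c x y
  have h1 : φ (a - ∑ k, b k) = 0 := h.zeror _ _ fun i => by
    rw [map_sub, map_sum, hb, sub_self]
  rw [map_sub, map_sum, sub_eq_zero] at h1
  exact h1

/-- polarization -/
theorem Sys.polar (h : Sys p q f g B) (a b : Λ) :
    ip p f a b = ip q g a b + (B a b + B b a) := by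
  have h1 := h.quad (a + b)
  have h2 := h.quad a
  have h3 := h.quad b
  have e1 : ip p f (a + b) (a + b) = ip p f a a + ip p f b b + 2 * ip p f a b := by
    rw [ip_add, ip_comm p f a, ip_comm p f b, ip_add, ip_add, ip_comm p f b a]
    ring
  have e2 : ip q g (a + b) (a + b) = ip q g a a + ip q g b b + 2 * ip q g a b := by
    rw [ip_add, ip_comm q g a, ip_comm q g b, ip_add, ip_add, ip_comm q g b a]
    ring
  rw [e1, e2, h.addl, h.addr, h.addr] at h1
  linarith

/-- sums of values agree for the other family, too -/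
theorem Sys.transfer (h : Sys p q f g B) {n : ℕ} (b : Fin n → Λ) {a : Λ}
    (hb : ∀ i, ∑ k, g i (b k) = g i a) (j : J) : ∑ k, f j (b k) = f j a := by
  have h1 := (h.ker (∑ k, b k - a)).2 (fun i => by rw [map_sub, map_sum, hb, sub_self]) j
  rw [map_sub, map_sum, sub_eq_zero] at h1
  exact h1

/-- the products of a part with the rest -/
theorem bad_nonpos {f : J → Λ →+ ℤ} {a : Λ} (h2 : ∀ j, |f j a| ≤ 1) (c : Λ) (j : J) :
    f j c * f j (a - c) ≤ 0 := by
  rw [map_sub]
  have h4 := abs_le.1 (h2 j)
  rcases lt_trichotomy (f j c) 0 with h5 | h5 | h5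
  · have : 0 ≤ f j a - f j c := by omega
    exact mul_nonpos_of_nonpos_of_nonneg h5.le this
  · rw [h5]; simp
  · have : f j a - f j c ≤ 0 := by omega
    exact mul_nonpos_of_nonneg_of_nonpos h5.le this

theorem exists_bad {f : J → Λ →+ ℤ} {a c : Λ} (ha : Elem f a)
    (hc : ∃ j, f j c ≠ 0) (hac : ∃ j, f j (a - c) ≠ 0) : ∃ j, f j c * f j (a - c) ≠ 0 := by
  obtain ⟨h1, h2, h3⟩ := ha
  by_contra hcon
  push Not at hcon
  have hsub : ∀ j, f j a = 0 → f j c = 0 := by
    intro j hj
    have h4 := hcon j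
    rw [map_sub, hj, zero_sub] at h4
    have : f j c * f j c = 0 := by linarith
    exact mul_self_eq_zero.1 this
  obtain ⟨j, hj⟩ := hac
  have h4 := hcon j
  rcases mul_eq_zero.1 h4 with h5 | h5
  · have h6 := h3 c hc hsub j h5
    apply hj
    rw [map_sub, h5, h6, sub_zero]
  · exact hj h5

theorem unit_cases {x : ℤ} (h : |x| ≤ 1) : x = 0 ∨ x = 1 ∨ x = -1 := by
  have := abs_le.1 h
  omega

/-- Elementary vectors all of whose parts are elementary. -/
theorem Sys.all_good (h : Sys p q f g B) {a : Λ} (ha : Elem f a) {n : ℕ} {b : Fin n → Λ}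
    (hb : IsDec g a b) (hn : 2 ≤ n) (hgood : ∀ k, Elem f (b k)) : False := by
  classical
  have hf := h.transfer b hb.2
  have hua : ∀ j, f j a = 0 ∨ f j a = 1 ∨ f j a = -1 := fun j => unit_cases (ha.2.1 j)
  have hub : ∀ k j, f j (b k) = 0 ∨ f j (b k) = 1 ∨ f j (b k) = -1 := fun k j =>
    unit_cases ((hgood k).2.1 j)
  let w : Fin n → J → ℤ := fun k j => f j (b k) * f j (b k) - f j a * f j (b k)
  have hw : ∀ k j, w k j = f j (b k) * f j (b k) - f j a * f j (b k) := fun k j => rfl
  have hw0 : ∀ k j, 0 ≤ w k j := by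
    intro k j
    rw [hw]
    rcases hua j with h1 | h1 | h1 <;> rcases hub k j with h2 | h2 | h2 <;> rw [h1, h2] <;>
      norm_num
  let act : J → Prop := fun j => ∃ k, 0 < w k j
  let s : Fin n → J → ℤ := fun k j => (if 0 < w k j then 1 else 0) +
    (if act j ∧ f j (b k) ≠ 0 then 1 else 0)
  have hs : ∀ k j, s k j = (if 0 < w k j then 1 else 0) +
    (if act j ∧ f j (b k) ≠ 0 then 1 else 0) := fun k j => rfl
  have hs0 : ∀ k j, 0 ≤ s k j := by
    intro k j
    rw [hs]
    split_ifs <;> norm_num
  -- the total norm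
  have hA : ∑ k, ∑ j, p j * w k j ≤ 4 * n := by
    have h1 : ∀ k, ∑ j, p j * w k j = ip p f (b k) (b k) - ip p f (b k) a := by
      intro k
      rw [ip, ip, ← sum_sub_distrib]
      exact sum_congr rfl fun j _ => by rw [hw]; ring
    have h2 : ∀ k, ip p f (b k) (b k) - ip p f (b k) a ≤ 2 + (- B (b k) a - B a (b k)) := by
      intro k
      have e1 := h.polar (b k) (b k)
      have e2 := h.polar (b k) a
      have e3 := (abs_le.1 (h.bound _ _ (hb.1 k).1 (hgood k))).2
      have e4 : ip q g (b k) (b k) ≤ ip q g (b k) a := by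
        rw [ip, ip]
        refine sum_le_sum fun i _ => mul_le_mul_of_nonneg_left ?_ (by linarith [h.q3 i])
        rw [← hb.2 i, mul_sum]
        exact single_le_sum (f := fun l => g i (b k) * g i (b l))
          (fun l _ => hb.prod_nonneg k l i) (mem_univ k)
      linarith
    have h3 : ∑ k, B (b k) a = B a a := (h.sum_left b hb.2 a).symm
    have h4 : ∑ k, B a (b k) = B a a := (h.sum_right b hf a).symm
    have h5 : -(n : ℤ) ≤ B a a := by
      rw [← h3]
      calc -(n : ℤ) = ∑ _k : Fin n, (-1 : ℤ) := by simp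
        _ ≤ ∑ k, B (b k) a := sum_le_sum fun k _ => (abs_le.1 (h.bound _ _ (hb.1 k).1 ha)).1
    calc ∑ k, ∑ j, p j * w k j ≤ ∑ k, (2 + (- B (b k) a - B a (b k))) :=
          sum_le_sum fun k _ => by rw [h1]; exact h2 k
      _ = 2 * n - 2 * B a a := by
          rw [sum_add_distrib, sum_sub_distrib, sum_neg_distrib, h3, h4]
          simp
          ring
      _ ≤ 4 * n := by linarith
  -- the local inequality
  have hB : ∀ j, ∑ k, s k j ≤ 2 * ∑ k, w k j := by
    intro j
    by_cases hj : act j
    · have e1 : ∑ k, s k j = ∑ k, (if 0 < w k j then (1 : ℤ) else 0) +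
          ∑ k, f j (b k) * f j (b k) := by
        rw [← sum_add_distrib]
        refine sum_congr rfl fun k _ => ?_
        rw [hs]
        congr 1
        rcases hub k j with h2 | h2 | h2 <;> rw [h2] <;> simp [hj]
      have e2 : ∑ k, f j (b k) * f j (b k) = ∑ k, w k j + f j a * f j a := by
        have : ∑ k, w k j = ∑ k, f j (b k) * f j (b k) - f j a * ∑ k, f j (b k) := by
          rw [mul_sum, ← sum_sub_distrib]
        rw [this, hf]
        ring
      have e3 : 0 < ∑ k, w k j := by
        obtain ⟨k, hk⟩ := hj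
        exact sum_pos' (fun k _ => hw0 k j) ⟨k, mem_univ k, hk⟩
      rcases eq_or_ne (f j a) 0 with ha0 | ha0
      · have e4 : ∑ k, (if 0 < w k j then (1 : ℤ) else 0) = ∑ k, w k j := by
          refine sum_congr rfl fun k _ => ?_
          rw [hw, ha0]
          rcases hub k j with h2 | h2 | h2 <;> rw [h2] <;> norm_num
        rw [e1, e2, e4, ha0]
        linarith
      · have e4 : 2 * ∑ k, (if 0 < w k j then (1 : ℤ) else 0) = ∑ k, w k j := by
          rw [mul_sum]
          refine sum_congr rfl fun k _ => ?_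
          rw [hw]
          rcases hua j with h1 | h1 | h1
          · exact absurd h1 ha0
          · rw [h1]; rcases hub k j with h2 | h2 | h2 <;> rw [h2] <;> norm_num
          · rw [h1]; rcases hub k j with h2 | h2 | h2 <;> rw [h2] <;> norm_num
        have e5 : f j a * f j a = 1 := by
          rcases hua j with h1 | h1 | h1
          · exact absurd h1 ha0
          · rw [h1]; norm_num
          · rw [h1]; norm_num
        rw [e1, e2, e5]
        omega
    · have e1 : ∑ k, s k j = 0 := by
        refine sum_eq_zero fun k _ => ?_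
        rw [hs, if_neg fun h' => hj ⟨k, h'⟩, if_neg fun h' => hj h'.1, add_zero]
      rw [e1]
      have := sum_nonneg fun k (_ : k ∈ univ) => hw0 k j
      linarith
  -- at least three incidences for each part
  have hC : ∀ k, 3 ≤ ∑ j, s k j := by
    intro k
    obtain ⟨j₁, hj₁⟩ := exists_bad ha (hgood k).1 ((h.ex_iff _).2 (hb.rest hn k))
    have hneg := bad_nonpos ha.2.1 (b k) j₁
    have hw1 : 0 < w k j₁ := by
      rw [hw]
      rw [map_sub] at hj₁ hneg
      have : f j₁ (b k) * (f j₁ a - f j₁ (b k)) < 0 := lt_of_le_of_ne hneg hj₁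
      linarith
    have hbk : f j₁ (b k) ≠ 0 := fun h' => hj₁ (by rw [h', zero_mul])
    -- a part with the opposite sign
    obtain ⟨l, hlk, hl⟩ : ∃ l, l ≠ k ∧ f j₁ (b k) * f j₁ (b l) < 0 := by
      by_contra hcon
      push Not at hcon
      have h1 : 0 ≤ ∑ l ∈ univ.erase k, f j₁ (b k) * f j₁ (b l) :=
        sum_nonneg fun l hl => hcon l (mem_erase.1 hl).1
      have h2 : f j₁ (b k) * f j₁ a = f j₁ (b k) * f j₁ (b k) +
          ∑ l ∈ univ.erase k, f j₁ (b k) * f j₁ (b l) := by
        rw [← hf j₁, mul_sum]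
        exact (add_sum_erase univ _ (mem_univ k)).symm
      rw [hw] at hw1
      linarith
    have hpol := h.polar (b k) (b l)
    have hg0 : 0 ≤ ip q g (b k) (b l) := sum_nonneg fun i _ =>
      mul_nonneg (by linarith [h.q3 i]) (hb.prod_nonneg k l i)
    have hb1 := (abs_le.1 (h.bound _ _ (hb.1 k).1 (hgood l))).1
    have hb2 := (abs_le.1 (h.bound _ _ (hb.1 l).1 (hgood k))).1
    obtain ⟨j₂, hj₂⟩ : ∃ j, 0 < f j (b k) * f j (b l) := by
      by_contra hcon
      push Not at hcon
      have h1 : ip p f (b k) (b l) ≤ p j₁ * (f j₁ (b k) * f j₁ (b l)) := by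
        rw [ip, ← add_sum_erase univ _ (mem_univ j₁)]
        have : ∑ j ∈ univ.erase j₁, p j * (f j (b k) * f j (b l)) ≤ 0 :=
          sum_nonpos fun j _ => mul_nonpos_of_nonneg_of_nonpos (by linarith [h.p3 j]) (hcon j)
        linarith
      have h2 : f j₁ (b k) * f j₁ (b l) ≤ -1 := by omega
      have h3 := h.p3 j₁
      nlinarith
    have hne : j₂ ≠ j₁ := by
      intro h'
      rw [h'] at hj₂
      linarith
    have hbk2 : f j₂ (b k) ≠ 0 := fun h' => by rw [h', zero_mul] at hj₂; exact lt_irrefl _ hj₂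
    have hact2 : act j₂ := by
      by_contra hcon
      have h0 : ∀ m, w m j₂ = 0 := fun m => le_antisymm (not_lt.1 fun h' => hcon ⟨m, h'⟩) (hw0 m j₂)
      -- all values are `0` or `f j₂ a`
      have h1 : ∀ m, f j₂ (b m) = 0 ∨ f j₂ (b m) = f j₂ a := by
        intro m
        have := h0 m
        rw [hw, ← sub_mul] at this
        rcases mul_eq_zero.1 this with h' | h'
        · right; linarith
        · left; exact h'
      have h2 : f j₂ (b k) = f j₂ a := (h1 k).resolve_left hbk2
      have h3 : f j₂ (b l) = f j₂ a := (h1 l).resolve_left fun h' => by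
        rw [h', mul_zero] at hj₂; exact lt_irrefl _ hj₂
      have h4 : ∀ m, 0 ≤ f j₂ a * f j₂ (b m) := by
        intro m
        rcases h1 m with h' | h' <;> rw [h']
        · rw [mul_zero]
        · exact mul_self_nonneg _
      have h5 : f j₂ a * f j₂ a = ∑ m, f j₂ a * f j₂ (b m) := by rw [← mul_sum, hf]
      rw [← add_sum_erase univ _ (mem_univ k),
        ← add_sum_erase (univ.erase k) _ (mem_erase.2 ⟨hlk, mem_univ l⟩), h2, h3] at h5
      have h6 : 0 ≤ ∑ m ∈ (univ.erase k).erase l, f j₂ a * f j₂ (b m) :=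
        sum_nonneg fun m _ => h4 m
      have h7 : 0 < f j₂ a * f j₂ a := by
        rw [h2, h3] at hj₂
        exact hj₂
      linarith
    have e1 : 2 ≤ s k j₁ := by
      rw [hs, if_pos hw1, if_pos ⟨⟨k, hw1⟩, hbk⟩]
      norm_num
    have e2 : 1 ≤ s k j₂ := by
      rw [hs, if_pos (⟨hact2, hbk2⟩ : act j₂ ∧ f j₂ (b k) ≠ 0)]
      split_ifs <;> norm_num
    rw [← add_sum_erase univ _ (mem_univ j₁),
      ← add_sum_erase (univ.erase j₁) _ (mem_erase.2 ⟨hne, mem_univ j₂⟩)]
    have e3 : 0 ≤ ∑ j ∈ (univ.erase j₁).erase j₂, s k j := sum_nonneg fun j _ => hs0 k j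
    linarith
  -- the contradiction
  have t1 : 3 * (n : ℤ) ≤ ∑ k, ∑ j, s k j := by
    calc 3 * (n : ℤ) = ∑ _k : Fin n, (3 : ℤ) := by simp; ring
      _ ≤ _ := sum_le_sum fun k _ => hC k
  have t2 : ∑ k, ∑ j, s k j ≤ 2 * ∑ k, ∑ j, w k j := by
    rw [sum_comm, sum_comm (f := fun k j => w k j), mul_sum]
    exact sum_le_sum fun j _ => hB j
  have t3 : 3 * ∑ k, ∑ j, w k j ≤ ∑ k, ∑ j, p j * w k j := by
    rw [mul_sum]
    refine sum_le_sum fun k _ => ?_
    rw [mul_sum]
    exact sum_le_sum fun j _ => mul_le_mul_of_nonneg_right (h.p3 j) (hw0 k j)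
  have hn' : (2 : ℤ) ≤ n := by exact_mod_cast hn
  linarith

/-- two elementary vectors with overlapping supports, one of which has a single element -/
theorem eq_of_single {f : J → Λ →+ ℤ} {a d : Λ} {j₀ : J} (ha1 : ∀ j, j ≠ j₀ → f j a = 0)
    (ha : |f j₀ a| ≤ 1) (ha0 : f j₀ a ≠ 0) (hd : Elem f d) (hs : 0 < f j₀ a * f j₀ d) :
    ∀ j, f j d = f j a := by
  have hd0 : f j₀ d ≠ 0 := fun h => by rw [h, mul_zero] at hs; exact lt_irrefl _ hs
  have h1 := hd.2.2 a ⟨j₀, ha0⟩ (fun k hk => ha1 k fun h => hd0 (by rw [← h]; exact hk))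
  intro j
  by_cases hj : j = j₀
  · subst hj
    rcases unit_cases ha with h2 | h2 | h2 <;> rcases unit_cases (hd.2.1 j) with h3 | h3 | h3 <;>
      rw [h2, h3] at hs ⊢ <;> norm_num at hs
  · rw [ha1 j hj, h1 j (ha1 j hj)]

/-- The inductive step. -/
theorem Sys.main_step (h : Sys p q f g B) {N : ℤ}
    (ih1 : ∀ x, Elem f x → ip p f x x < N → Elem g x)
    (ih2 : ∀ x, Elem g x → ip q g x x < N → Elem f x) {a : Λ} (ha : Elem f a)
    (hN : ip p f a a = N) : Elem g a := by
  classical
  by_contra hna
  obtain ⟨n, b, hb⟩ := exists_dec h.regg a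
  have hga : ∃ i, g i a ≠ 0 := (h.ex_iff a).1 ha.1
  have hn := hb.two_le hga hna
  have hf := h.transfer b hb.2
  have hn' : (2 : ℤ) ≤ n := by exact_mod_cast hn
  have hN3 : 3 ≤ N := by rw [← hN]; exact ip_pos h.p3 ha.1
  -- elements with small opposite norm are good
  have F4 : ∀ x, Elem g x → ip p f x x ≤ N + 2 → Elem f x := by
    intro x hx hxN
    by_contra hnx
    obtain ⟨m, d, hd⟩ := exists_dec h.regf x
    have hm := hd.two_le ((h.ex_iff x).2 hx.1) hnx
    refine h.swap.all_good hx hd hm fun k => ih1 _ (hd.1 k).1 ?_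
    have h1 := hd.norm_part h.p3 k
    have h2 : (2 : ℤ) ≤ m := by exact_mod_cast hm
    linarith
  have hBka : ∀ k, -1 ≤ B (b k) a := fun k => (abs_le.1 (h.bound _ _ (hb.1 k).1 ha)).1
  have hBka' : ∀ k, B (b k) a ≤ 1 := fun k => (abs_le.1 (h.bound _ _ (hb.1 k).1 ha)).2
  have hBaa : B a a = ∑ k, B (b k) a := h.sum_left b hb.2 a
  have hquad := h.quad a
  rw [hN] at hquad
  -- some part is bad
  obtain ⟨k₁, hk₁⟩ : ∃ k, ¬ Elem f (b k) := by
    by_contra hcon
    push Not at hcon
    exact h.all_good ha hb hn hcon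
  have hbadN : ∀ k, ¬ Elem f (b k) → N ≤ ip q g (b k) (b k) := fun k hk =>
    not_lt.1 fun h' => hk (ih2 _ (hb.1 k).1 h')
  -- lower bounds for sums of the `B (b k) a`
  have hsum : ∀ k, B (b k) a - ((n : ℤ) - 1) ≤ B a a := by
    intro k
    rw [hBaa, ← add_sum_erase univ _ (mem_univ k)]
    have : ∑ _l ∈ (univ : Finset (Fin n)).erase k, (-1 : ℤ) ≤ ∑ l ∈ univ.erase k, B (b l) a :=
      sum_le_sum fun l _ => hBka l
    rw [sum_const, card_erase_of_mem (mem_univ k), card_univ, Fintype.card_fin,
      nsmul_eq_mul, Nat.cast_sub (by omega)] at this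
    push_cast at this
    linarith
  have hn3 : (n : ℤ) ≤ 3 := by
    have h1 := hb.norm_part h.q3 k₁
    have h2 := hbadN k₁ hk₁
    have h3 := hsum k₁
    have h4 := hBka k₁
    linarith
  by_cases h2 : ∃ k₂, k₂ ≠ k₁ ∧ ¬ Elem f (b k₂)
  · -- two bad parts
    obtain ⟨k₂, hne, hk₂⟩ := h2
    have hN4 : N ≤ 4 := by
      have h1 := hb.norm_two h.q3 hne
      have h2 := hbadN k₁ hk₁
      have h3 := hbadN k₂ hk₂
      have h4 := hsum k₁
      have h5 := hBka k₁
      linarith
    obtain ⟨j₀, hj₀⟩ := ha.1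
    have hsingle : ∀ j, j ≠ j₀ → f j a = 0 := by
      intro j hj
      by_contra hj0
      have h1 : p j₀ * (f j₀ a * f j₀ a) + p j * (f j a * f j a) ≤ N := by
        rw [← hN, ip, ← add_sum_erase univ _ (mem_univ j₀),
          ← add_sum_erase (univ.erase j₀) _ (mem_erase.2 ⟨hj, mem_univ j⟩)]
        have : 0 ≤ ∑ k ∈ (univ.erase j₀).erase j, p k * (f k a * f k a) :=
          sum_nonneg fun k _ => mul_nonneg (by linarith [h.p3 k]) (mul_self_nonneg _)
        linarith
      have h2 : 1 ≤ f j₀ a * f j₀ a := by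
        rcases unit_cases (ha.2.1 j₀) with h | h | h
        · exact absurd h hj₀
        · rw [h]; norm_num
        · rw [h]; norm_num
      have h3 : 1 ≤ f j a * f j a := by
        rcases unit_cases (ha.2.1 j) with h | h | h
        · exact absurd h hj0
        · rw [h]; norm_num
        · rw [h]; norm_num
      have h4 := h.p3 j₀
      have h5 := h.p3 j
      nlinarith
    -- a part with the sign of `a`
    obtain ⟨k₀, hk₀⟩ : ∃ k, 0 < f j₀ a * f j₀ (b k) := by
      by_contra hcon
      push Not at hcon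
      have h1 : f j₀ a * f j₀ a ≤ 0 := by
        conv_lhs => rw [← hf j₀, sum_mul]
        refine sum_nonpos fun k _ => ?_
        have := hcon k
        rw [hf]
        linarith
      have h2 := mul_self_pos.2 hj₀
      linarith
    by_cases hk₀g : Elem f (b k₀)
    · have h1 := eq_of_single hsingle (ha.2.1 j₀) hj₀ hk₀g hk₀
      apply hna
      have h2 : ∀ i, g i (b k₀ - a) = 0 := (h.ker _).1 fun j => by rw [map_sub, h1, sub_self]
      exact elem_congr (fun i => by
        have := h2 i
        rw [map_sub] at this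
        linarith) (hb.1 k₀).1
    · -- another bad part
      obtain ⟨k', hk'ne, hk'⟩ : ∃ k', k₀ ≠ k' ∧ ¬ Elem f (b k') := by
        by_cases h1 : k₀ = k₁
        · exact ⟨k₂, by rw [h1]; exact hne.symm, hk₂⟩
        · exact ⟨k₁, h1, hk₁⟩
      obtain ⟨m, d, hd⟩ := exists_dec h.regf (b k₀)
      have hm := hd.two_le ((h.ex_iff _).2 (hb.1 k₀).1.1) hk₀g
      have hm' : (2 : ℤ) ≤ m := by exact_mod_cast hm
      obtain ⟨l, hl⟩ : ∃ l, 0 < f j₀ a * f j₀ (d l) := by
        by_contra hcon
        push Not at hcon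
        have h1 : f j₀ a * f j₀ (b k₀) ≤ 0 := by
          rw [← hd.2 j₀, mul_sum]
          exact sum_nonpos fun k _ => hcon k
        linarith
      have hdl := eq_of_single hsingle (ha.2.1 j₀) hj₀ (hd.1 l).1 hl
      have hBd : B (b k₀) (d l) = B (b k₀) a := by
        have h1 := h.zeror (b k₀) (d l - a) fun j => by rw [map_sub, hdl, sub_self]
        have h2 := h.addr (b k₀) (d l - a) a
        rw [sub_add_cancel, h1, zero_add] at h2
        exact h2
      have hnd : ip p f (d l) (d l) = N := by
        rw [← hN, ip, ip]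
        exact sum_congr rfl fun j _ => by rw [hdl]
      have e1 := hd.norm_part h.p3 l
      have e2 : B (b k₀) (b k₀) ≤ B (b k₀) a + ((m : ℤ) - 1) := by
        rw [h.sum_right d hd.2, ← add_sum_erase univ _ (mem_univ l), hBd]
        have : ∑ k ∈ univ.erase l, B (b k₀) (d k) ≤
            ∑ _k ∈ (univ : Finset (Fin m)).erase l, (1 : ℤ) :=
          sum_le_sum fun k _ => (abs_le.1 (h.bound _ _ (hb.1 k₀).1 (hd.1 k).1)).2
        rw [sum_const, card_erase_of_mem (mem_univ l), card_univ, Fintype.card_fin,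
          nsmul_eq_mul, Nat.cast_sub (by omega)] at this
        push_cast at this
        linarith
      have e3 := h.quad (b k₀)
      have e4 := hb.norm_two h.q3 hk'ne
      have e5 := hbadN k' hk'
      have e6 := hsum k₀
      linarith
  · -- only one bad part
    push Not at h2
    apply hk₁
    apply F4 _ (hb.1 k₁).1
    have e1 := h.quad (b k₁)
    have e2 := hb.norm_part h.q3 k₁
    have e3 : B (b k₁) a = ∑ l, B (b k₁) (b l) := h.sum_right b hf (b k₁)
    rw [← add_sum_erase univ _ (mem_univ k₁)] at e3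
    have e4 : ∑ _l ∈ (univ : Finset (Fin n)).erase k₁, (-1 : ℤ) ≤
        ∑ l ∈ univ.erase k₁, B (b k₁) (b l) := sum_le_sum fun l hl =>
      (abs_le.1 (h.bound _ _ (hb.1 k₁).1 (h2 l (mem_erase.1 hl).1))).1
    rw [sum_const, card_erase_of_mem (mem_univ k₁), card_univ, Fintype.card_fin,
      nsmul_eq_mul, Nat.cast_sub (by omega)] at e4
    push_cast at e4
    have e5 := hsum k₁
    linarith

theorem Sys.elem_aux (n : ℕ) : ∀ {J I : Type} [Fintype J] [Fintype I] {p : J → ℤ} {q : I → ℤ}
    {f : J → Λ →+ ℤ} {g : I → Λ →+ ℤ} {B : Λ → Λ → ℤ}, Sys p q f g B →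
    ∀ a, Elem f a → ip p f a a ≤ n → Elem g a := by
  induction n using Nat.strong_induction_on with
  | _ n ih =>
    intro J I _ _ p q f g B h a ha hn
    have h0 := ip_nonneg h.p3 f a
    refine h.main_step (N := ip p f a a) (fun x hx hxN => ?_) (fun x hx hxN => ?_) ha rfl
    · have h1 := ip_nonneg h.p3 f x
      exact ih (ip p f x x).toNat (by omega) h x hx (by omega)
    · have h1 := ip_nonneg h.q3 g x
      exact ih (ip q g x x).toNat (by omega) h.swap x hx (by omega)

/-- **Elementary vectors correspond to elementary vectors.** -/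
theorem Sys.elem_iff (h : Sys p q f g B) (a : Λ) : Elem f a ↔ Elem g a :=
  ⟨fun ha => Sys.elem_aux (ip p f a a).toNat h a ha (Int.self_le_toNat _),
    fun ha => Sys.elem_aux (ip q g a a).toNat h.swap a ha (Int.self_le_toNat _)⟩

/-- the sizes of the support of a vector with a bad value -/
theorem Sys.unit_aux (h : Sys p q f g B) (i₀ : I) : ∀ (m : ℕ) (a : Λ), (∀ j, |f j a| ≤ 1) →
    2 ≤ g i₀ a → (supp f a).card ≤ m → False := by
  classical
  intro m
  induction m with
  | zero =>
    intro a ha hga hm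
    have h0 : ∀ j, f j a = 0 := by
      intro j
      by_contra hj
      have : supp f a = ∅ := card_eq_zero.1 (by omega)
      have h1 : j ∈ supp f a := mem_supp.2 hj
      rw [this] at h1
      exact absurd h1 (notMem_empty j)
    have := (h.ker a).1 h0 i₀
    omega
  | succ m ih =>
    intro a ha hga hm
    -- removing a conformal part
    have hrem : ∀ c, (∃ j, f j c ≠ 0) → Conf f c a → ¬ (2 ≤ g i₀ (a - c)) := by
      rintro c ⟨j₀, hj₀⟩ hc h2
      refine ih (a - c) (fun j => ?_) h2 ?_
      · rw [map_sub]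
        have h3 := abs_le.1 (ha j)
        rcases hc j with h4 | h4
        · rw [h4, sub_zero]; exact ha j
        · rw [h4]
          rcases sign_trich (f j a) with h5 | h5 | h5 <;> rw [h5.2, abs_le] <;> omega
      · have hlt : (supp f (a - c)).card < (supp f a).card := by
          apply card_lt_card
          rw [ssubset_iff_of_subset]
          · refine ⟨j₀, ?_, ?_⟩
            · rw [mem_supp]
              intro h4
              rcases hc j₀ with h5 | h5
              · exact hj₀ h5
              · rw [h4] at h5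
                exact hj₀ (by rw [h5]; rfl)
            · rw [mem_supp, not_not, map_sub]
              have h3 := abs_le.1 (ha j₀)
              rcases hc j₀ with h4 | h4
              · exact absurd h4 hj₀
              · rw [h4]
                rcases sign_trich (f j₀ a) with h5 | h5 | h5 <;> rw [h5.2] <;> omega
          · intro j hj
            rw [mem_supp] at hj ⊢
            intro h4
            apply hj
            rw [map_sub, h4]
            rcases hc j with h5 | h5
            · rw [h5]; rfl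
            · rw [h5, h4]; rfl
        omega
    -- the decomposition for `f`
    obtain ⟨n, b, hb⟩ := exists_dec h.regf a
    have hg := h.swap.transfer b hb.2
    have hb1 : ∀ k, Elem g (b k) := fun k => (h.elem_iff _).1 (hb.1 k).1
    have hgb : ∀ k, g i₀ (b k) = 1 := by
      intro k
      have h1 := hrem (b k) (hb.1 k).1.1 (hb.1 k).2
      rw [map_sub] at h1
      have h2 := abs_le.1 ((hb1 k).2.1 i₀)
      omega
    have hn : (n : ℤ) = g i₀ a := by
      rw [← hg i₀]
      simp [hgb]
    have hn2 : n = 2 := by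
      have hn0 : 0 < n := by omega
      have h1 := hrem (b ⟨0, hn0⟩) (hb.1 _).1.1 (hb.1 _).2
      rw [map_sub, hgb] at h1
      omega
    subst hn2
    clear hn
    set w := b 0 with hw
    set w' := b 1 with hw'
    have hfw : ∀ j, f j a = f j w + f j w' := fun j => by rw [← hb.2 j, Fin.sum_univ_two]
    have hgw : ∀ i, g i a = g i w + g i w' := fun i => by rw [← hg i, Fin.sum_univ_two]
    have hEw : Elem f w := (hb.1 0).1
    have hEw' : Elem f w' := (hb.1 1).1
    have hGw : Elem g w := hb1 0
    have hGw' : Elem g w' := hb1 1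
    have hw1 : g i₀ w = 1 := hgb 0
    have hw1' : g i₀ w' = 1 := hgb 1
    -- the supports are disjoint
    have hdisj : ip p f w w' = 0 := by
      apply sum_eq_zero
      intro j _
      have h1 : f j w * f j w' = 0 := by
        have h3 := abs_le.1 (ha j)
        have h4 := hfw j
        rcases (hb.1 0).2 j with h5 | h5
        · rw [← hw] at h5
          rw [h5, zero_mul]
        · rcases (hb.1 1).2 j with h6 | h6
          · rw [← hw'] at h6
            rw [h6, mul_zero]
          · rw [← hw] at h5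
            rw [← hw'] at h6
            rcases sign_trich (f j a) with h7 | h7 | h7
            · rw [h5, h7.2, zero_mul]
            · exfalso; omega
            · exfalso; omega
      rw [h1, mul_zero]
    have hD := h.polar w w'
    rw [hdisj] at hD
    have b1 := abs_le.1 (h.bound _ _ hGw hEw')
    have b2 := abs_le.1 (h.bound _ _ hGw' hEw)
    have b3 := abs_le.1 (h.bound _ _ hGw hEw)
    have b4 := abs_le.1 (h.bound _ _ hGw' hEw')
    -- the agreeing and the opposing elements
    let A : ℤ := ∑ i, q i * (if g i w * g i w' = 1 then 1 else 0)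
    let O : ℤ := ∑ i, q i * (if g i w * g i w' = -1 then 1 else 0)
    have hprod : ∀ i, g i w * g i w' = 0 ∨ g i w * g i w' = 1 ∨ g i w * g i w' = -1 := by
      intro i
      have h1 := abs_le.1 (hGw.2.1 i)
      have h2 := abs_le.1 (hGw'.2.1 i)
      have h3 : g i w = 0 ∨ g i w = 1 ∨ g i w = -1 := by omega
      have h4 : g i w' = 0 ∨ g i w' = 1 ∨ g i w' = -1 := by omega
      rcases h3 with h3 | h3 | h3 <;> rcases h4 with h4 | h4 | h4 <;> rw [h3, h4] <;> simp
    have hAO : ip q g w w' = A - O := by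
      simp only [ip, A, O]
      rw [← sum_sub_distrib]
      refine sum_congr rfl fun i _ => ?_
      rcases hprod i with h1 | h1 | h1 <;> rw [h1] <;> norm_num
    have hq0 : ∀ i, 0 ≤ q i := fun i => by have := h.q3 i; omega
    have hp0 : ∀ j, 0 ≤ p j := fun j => by have := h.p3 j; omega
    have hA3 : 3 ≤ A := by
      have h1 : q i₀ * (if g i₀ w * g i₀ w' = 1 then 1 else 0) ≤ A :=
        single_le_sum (f := fun i => q i * (if g i w * g i w' = 1 then (1 : ℤ) else 0))
          (fun i _ => mul_nonneg (hq0 i) (by split_ifs <;> norm_num)) (mem_univ i₀)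
      rw [hw1, hw1', if_pos (by norm_num)] at h1
      have := h.q3 i₀
      linarith
    have hO : O = 0 ∨ 3 ≤ O := by
      by_cases hex : ∃ i, g i w * g i w' = -1
      · right
        obtain ⟨i, hi⟩ := hex
        have h1 : q i * (if g i w * g i w' = -1 then 1 else 0) ≤ O :=
          single_le_sum (f := fun i => q i * (if g i w * g i w' = -1 then (1 : ℤ) else 0))
            (fun i _ => mul_nonneg (hq0 i) (by split_ifs <;> norm_num)) (mem_univ i)
        rw [if_pos hi] at h1
        have := h.q3 i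
        linarith
      · left
        push Not at hex
        exact sum_eq_zero fun i _ => by rw [if_neg (hex i), mul_zero]
    -- the decomposition for `g`
    obtain ⟨n, c, hc⟩ := exists_dec h.regg a
    have hfc := h.transfer c hc.2
    have hc1 : ∀ k, Elem f (c k) := fun k => (h.elem_iff _).2 (hc.1 k).1
    have hci : ∀ k, g i₀ (c k) = 0 ∨ g i₀ (c k) = 1 := by
      intro k
      rcases (hc.1 k).2 i₀ with h1 | h1
      · left; exact h1
      · right
        rw [h1]
        exact Int.sign_eq_one_of_pos (by omega)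
    have hga2 : g i₀ a = 2 := by rw [hgw, hw1, hw1']; norm_num
    -- the terms
    have hterm : ∀ k j, f j (c k) * f j (a - c k) ≤ 0 := fun k j => bad_nonpos ha (c k) j
    have hone : ∀ k j, ip p f (c k) (a - c k) ≤ p j * (f j (c k) * f j (a - c k)) := by
      intro k j
      rw [ip, ← add_sum_erase univ _ (mem_univ j)]
      have : ∑ l ∈ univ.erase j, p l * (f l (c k) * f l (a - c k)) ≤ 0 :=
        sum_nonpos fun l _ => mul_nonpos_of_nonneg_of_nonpos (hp0 l) (hterm k l)
      linarith
    have hs : ∀ k, ip p f (c k) (a - c k) ≤ -3 * (1 - g i₀ (c k)) := by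
      intro k
      have hle : ip p f (c k) (a - c k) ≤ 0 := sum_nonpos fun j _ =>
        mul_nonpos_of_nonneg_of_nonpos (hp0 j) (hterm k j)
      rcases hci k with h1 | h1
      · rw [h1]
        -- not conformal
        have hnc : ¬ Conf f (c k) a := by
          intro hcf
          apply hrem _ (hc1 k).1 hcf
          rw [map_sub, h1]
          omega
        unfold Conf at hnc
        push Not at hnc
        obtain ⟨j, hj1, hj2⟩ := hnc
        have h4 := hone k j
        have h5 : f j (c k) * f j (a - c k) ≠ 0 := by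
          intro h6
          rcases mul_eq_zero.1 h6 with h7 | h7
          · exact hj1 h7
          · rw [map_sub, sub_eq_zero] at h7
            apply hj2
            have h3 := abs_le.1 (ha j)
            rcases sign_trich (f j a) with h8 | h8 | h8 <;> rw [h8.2] <;> omega
        have h6 : f j (c k) * f j (a - c k) ≤ -1 := by
          have := hterm k j
          omega
        have h7 := h.p3 j
        nlinarith
      · rw [h1]
        linarith
    -- a part with a larger defect
    obtain ⟨k₃, hk₃⟩ : ∃ k, ip p f (c k) (a - c k) ≤ -3 * (1 - g i₀ (c k)) - 3 := by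
      by_contra hcon
      push Not at hcon
      have hx0 : ∀ k, g i₀ (c k) = 1 → ∀ j, f j (c k) = 0 ∨ f j (c k) = f j a := by
        intro k hk j
        have h0 : f j (c k) * f j (a - c k) = 0 := by
          by_contra hne
          have h1 := hterm k j
          have h2 : f j (c k) * f j (a - c k) ≤ -1 := by omega
          have h3 := hone k j
          have h4 := hcon k
          rw [hk] at h4
          have h5 := h.p3 j
          nlinarith
        rcases mul_eq_zero.1 h0 with h1 | h1
        · left; exact h1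
        · right
          rw [map_sub] at h1
          linarith
      obtain ⟨k₁, k₂, hne, hk₁, hk₂⟩ : ∃ k₁ k₂, k₁ ≠ k₂ ∧ g i₀ (c k₁) = 1 ∧ g i₀ (c k₂) = 1 := by
        have h1 : (((univ.filter fun k => g i₀ (c k) = 1).card : ℕ) : ℤ) = 2 := by
          rw [← hga2, ← hc.2 i₀, card_filter]
          push_cast
          refine sum_congr rfl fun k _ => ?_
          rcases hci k with h1 | h1 <;> rw [h1] <;> norm_num
        obtain ⟨k₁, h2, k₂, h3, h4⟩ := one_lt_card.1
          (show 1 < (univ.filter fun k => g i₀ (c k) = 1).card by omega)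
        exact ⟨k₁, k₂, h4, (mem_filter.1 h2).2, (mem_filter.1 h3).2⟩
      -- a common element
      have hgip : 3 ≤ ip q g (c k₁) (c k₂) := by
        have h1 : q i₀ * (g i₀ (c k₁) * g i₀ (c k₂)) ≤ ip q g (c k₁) (c k₂) :=
          single_le_sum (f := fun i => q i * (g i (c k₁) * g i (c k₂)))
            (fun i _ => mul_nonneg (hq0 i) (hc.prod_nonneg k₁ k₂ i)) (mem_univ i₀)
        rw [hk₁, hk₂] at h1
        have := h.q3 i₀
        linarith
      have hpol := h.polar (c k₁) (c k₂)
      have hb1 := (abs_le.1 (h.bound _ _ (hc.1 k₁).1 (hc1 k₂))).1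
      have hb2 := (abs_le.1 (h.bound _ _ (hc.1 k₂).1 (hc1 k₁))).1
      obtain ⟨j, hj⟩ : ∃ j, 0 < f j (c k₁) * f j (c k₂) := by
        by_contra hcon2
        push Not at hcon2
        have h1 : ip p f (c k₁) (c k₂) ≤ 0 := sum_nonpos fun j _ =>
          mul_nonpos_of_nonneg_of_nonpos (hp0 j) (hcon2 j)
        linarith
      have hv1 : f j (c k₁) = f j a := (hx0 k₁ hk₁ j).resolve_left fun h' => by
        rw [h', zero_mul] at hj; exact lt_irrefl _ hj
      have hv2 : f j (c k₂) = f j a := (hx0 k₂ hk₂ j).resolve_left fun h' => by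
        rw [h', mul_zero] at hj; exact lt_irrefl _ hj
      rw [hv1, hv2] at hj
      obtain ⟨k₃, hk₃⟩ : ∃ k, f j a * f j (c k) < 0 := by
        by_contra hcon2
        push Not at hcon2
        have h5 : f j a * f j a = ∑ m, f j a * f j (c m) := by rw [← mul_sum, hfc]
        rw [← add_sum_erase univ _ (mem_univ k₁),
          ← add_sum_erase (univ.erase k₁) _ (mem_erase.2 ⟨hne.symm, mem_univ k₂⟩), hv1, hv2] at h5
        have h6 : 0 ≤ ∑ m ∈ (univ.erase k₁).erase k₂, f j a * f j (c m) :=
          sum_nonneg fun m _ => hcon2 m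
        linarith
      have h1 := hone k₃ j
      have h2 := hcon k₃
      have h3 := h.p3 j
      have h4 : f j (c k₃) * f j (a - c k₃) = -2 := by
        rw [map_sub]
        rcases unit_cases (ha j) with h5 | h5 | h5 <;>
          rcases unit_cases ((hc1 k₃).2.1 j) with h6 | h6 | h6 <;> rw [h5, h6] at hk₃ ⊢ <;>
          first | (exfalso; linarith) | norm_num
      rw [h4] at h1
      rcases hci k₃ with h5 | h5 <;> rw [h5] at h2 <;> linarith
    have e1 : ∑ k, ip p f (c k) a = ip p f a a := by
      simp only [ip]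
      rw [sum_comm]
      refine sum_congr rfl fun j _ => ?_
      rw [← mul_sum, ← sum_mul, hfc]
    have t1 : ip p f a a - ∑ k, ip p f (c k) (c k) ≤ -3 * (n - 2) - 3 := by
      rw [← e1, ← sum_sub_distrib]
      have h1 : ∑ k, (ip p f (c k) a - ip p f (c k) (c k)) = ∑ k, ip p f (c k) (a - c k) :=
        sum_congr rfl fun k _ => (ip_sub _ _ _ _ _).symm
      have h2 : ∑ k, -3 * (1 - g i₀ (c k)) = -3 * ((n : ℤ) - 2) := by
        rw [← mul_sum, sum_sub_distrib, hc.2, hga2]
        simp
      have h3 : ∑ k ∈ univ.erase k₃, ip p f (c k) (a - c k) ≤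
          ∑ k ∈ univ.erase k₃, -3 * (1 - g i₀ (c k)) := sum_le_sum fun k _ => hs k
      rw [← add_sum_erase univ _ (mem_univ k₃)] at h2
      rw [h1, ← add_sum_erase univ _ (mem_univ k₃)]
      linarith
    have t2 : ip q g a a - ∑ k, ip q g (c k) (c k) = 2 * A := by
      rw [hc.norm]
      simp only [A]
      rw [mul_sum]
      refine sum_congr rfl fun i _ => ?_
      have h1 := abs_le.1 (hGw.2.1 i)
      have h2 := abs_le.1 (hGw'.2.1 i)
      have h3 : g i w = 0 ∨ g i w = 1 ∨ g i w = -1 := by omega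
      have h4 : g i w' = 0 ∨ g i w' = 1 ∨ g i w' = -1 := by omega
      rw [hgw i]
      rcases h3 with h3 | h3 | h3 <;> rcases h4 with h4 | h4 | h4 <;> rw [h3, h4] <;> norm_num <;>
        ring
    have t3 : B a a = B w w + B w' w' + (B w w' + B w' w) := by
      rw [h.sum_left b hg a, Fin.sum_univ_two, h.sum_right b hb.2, h.sum_right b hb.2,
        Fin.sum_univ_two, Fin.sum_univ_two]
      ring
    have t4 : ∑ k, ip p f (c k) (c k) = ∑ k, ip q g (c k) (c k) + 2 * ∑ k, B (c k) (c k) := by
      rw [mul_sum, ← sum_add_distrib]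
      exact sum_congr rfl fun k _ => h.quad _
    have t5 : ∑ k, B (c k) (c k) ≤ n := by
      calc ∑ k, B (c k) (c k) ≤ ∑ _k : Fin n, (1 : ℤ) := sum_le_sum fun k _ =>
            (abs_le.1 (h.bound _ _ (hc.1 k).1 (hc1 k))).2
        _ = n := by simp
    have t6 := h.quad a
    have hnn : (2 : ℤ) ≤ n := by
      calc (2 : ℤ) = ∑ k, g i₀ (c k) := by rw [hc.2, hga2]
        _ ≤ ∑ _k : Fin n, (1 : ℤ) := sum_le_sum fun k _ => by
            rcases hci k with h1 | h1 <;> rw [h1]; norm_num
        _ = n := by simp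
    rw [hAO] at hD
    rcases hO with h0 | h0 <;> omega

/-- **Unit vectors correspond to unit vectors.** -/
theorem Sys.unit (h : Sys p q f g B) {a : Λ} (ha : ∀ j, |f j a| ≤ 1) (i : I) : |g i a| ≤ 1 := by
  rw [abs_le]
  constructor
  · by_contra hcon
    refine h.unit_aux i _ (-a) (fun j => ?_) ?_ le_rfl
    · rw [map_neg, abs_neg]; exact ha j
    · rw [map_neg]; omega
  · by_contra hcon
    exact h.unit_aux i _ a ha (by omega) le_rfl

end Pool.Agent.H758.TR
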