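import Pool.Agent.H758.TR.D2
import Pool.Agent.H758.TR.Sys
import Pool.Agent.H758.TR.Conv

/-!
The pairing of the twist regions.
-/

set_option autoImplicit false
set_option linter.unusedSectionVars false
set_option maxHeartbeats 400000

namespace Pool.Agent.H758.TR

open Finset Matrix
open Pool.Agent.H762.TG (Multigraph IsUnit')
open Pool.Agent.H762.MX

variable {V E : Type} [Fintype E] [DecidableEq E] [Fintype V] [DecidableEq V]
  {G : Multigraph V E} {S T : Finset E} {ℓ : E → ℕ} {c : E → G.cuts →ₗ[ℤ] ℤ}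
  {d : E → G.flows →ₗ[ℤ] ℤ}

theorem Data.lift (h : Data G S T ℓ c d) (y : G.flows) :
    ∃ x : G.cuts, ∀ e ∈ S, c e x = (y : E → ℤ) e := by
  obtain ⟨x, hx⟩ := h.cut_of y
  exact ⟨x, fun e he => h.d2 y x hx he⟩

/-- the coordinates in `T` -/
def fam (G : Multigraph V E) (T : Finset E) (P : T) : G.cuts →+ ℤ := co G P

/-- the functionals of the embedding -/
def fam' (S : Finset E) (c : E → G.cuts →ₗ[ℤ] ℤ) (e : S) : G.cuts →+ ℤ := (c e).toAddMonoidHom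

/-- the form relating them -/
def Bf (S : Finset E) (c : E → G.cuts →ₗ[ℤ] ℤ) (a b : G.cuts) : ℤ :=
  ∑ e ∈ S, c e a * (b : E → ℤ) e

theorem fam_apply (P : T) (x : G.cuts) : fam G T P x = (x : E → ℤ) P := rfl

theorem fam'_apply (e : S) (x : G.cuts) : fam' S c e x = c e x := rfl

theorem Data.Bf_eq (h : Data G S T ℓ c d) {a : G.cuts} (b : G.cuts) {z : G.flows}
    (hz : ∀ e ∈ S, (z : E → ℤ) e = c e a) :
    Bf S c a b = - ∑ P ∈ T, (b : E → ℤ) P * (z : E → ℤ) P := by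
  have h1 := h.orth b z
  have h2 : Bf S c a b = ∑ e ∈ S, (b : E → ℤ) e * (z : E → ℤ) e :=
    sum_congr rfl fun e he => by rw [hz e he]; ring
  rw [h2]
  linarith

theorem Data.zeror (h : Data G S T ℓ c d) (a : G.cuts) {b : G.cuts}
    (hb : ∀ P ∈ T, (b : E → ℤ) P = 0) : Bf S c a b = 0 := by
  obtain ⟨z, hz⟩ := h.flow_of a
  rw [h.Bf_eq b hz, sum_eq_zero, neg_zero]
  intro P hP
  rw [hb P hP, zero_mul]

theorem Data.Bf_bound (h : Data G S T ℓ c d) {a b : G.cuts} (ha : Elem (fam' S c) a)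
    (hb : Elem (fam G T) b) : |Bf S c a b| ≤ 1 := by
  classical
  obtain ⟨⟨P₀, hP₀⟩, hb0⟩ := hb.1
  replace hb0 : (b : E → ℤ) P₀ ≠ 0 := hb0
  have hbu : ∀ P ∈ T, |(b : E → ℤ) P| ≤ 1 := fun P hP => hb.2.1 ⟨P, hP⟩
  obtain ⟨z, hz, hz'⟩ := exists_flow G (T.filter fun P => (b : E → ℤ) P = 0 ∨ P = P₀)
    (fun e => if e ∈ S then c e a else 0) (by
    intro x hx h0
    have hxT : ∀ P ∈ T, x P = 0 := by
      by_contra hcon
      push Not at hcon
      obtain ⟨P, hP, hxP⟩ := hcon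
      have h1 := hb.2.2 ⟨x, hx⟩ ⟨⟨P, hP⟩, hxP⟩ (fun k hk =>
        h0 k (mem_filter.2 ⟨k.2, Or.inl hk⟩)) ⟨P₀, hP₀⟩
        (h0 P₀ (mem_filter.2 ⟨hP₀, Or.inr rfl⟩))
      exact hb0 h1
    have h1 := h.zeror a (b := ⟨x, hx⟩) hxT
    rw [dotProduct, h.split, sum_eq_zero (s := T) (fun P hP => by
      rw [hxT P hP, zero_mul]), add_zero, ← h1]
    refine sum_congr rfl fun e he => ?_
    rw [if_pos he]
    exact mul_comm _ _)
  have hzS : ∀ e ∈ S, z e = c e a := by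
    intro e he
    rw [hz' e (fun h' => (h.hST' e).1 he (mem_filter.1 h').1), if_pos he]
  have hzT : ∀ P ∈ T, (b : E → ℤ) P ≠ 0 → P ≠ P₀ → z P = 0 := by
    intro P hP h1 h2
    rw [hz' P (fun h' => by
      rcases (mem_filter.1 h').2 with h3 | h3
      · exact h1 h3
      · exact h2 h3), if_neg ((h.hST P).1 hP)]
  -- flows of this kind
  have hflow : ∀ u : G.flows, (∀ P ∈ T, (b : E → ℤ) P ≠ 0 → P ≠ P₀ → (u : E → ℤ) P = 0) →
      ∑ P ∈ T, (b : E → ℤ) P * (u : E → ℤ) P = (b : E → ℤ) P₀ * (u : E → ℤ) P₀ := by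
    intro u hu
    rw [sum_eq_single_of_mem P₀ hP₀]
    intro P hP hne
    by_cases h1 : (b : E → ℤ) P = 0
    · rw [h1, zero_mul]
    · rw [hu P hP h1 hne, mul_zero]
  rw [h.Bf_eq b (z := ⟨z, hz⟩) hzS, hflow ⟨z, hz⟩ hzT, abs_neg, abs_mul]
  have hb1 : |(b : E → ℤ) P₀| = 1 := by
    have h1 := hbu P₀ hP₀
    have h2 := Int.one_le_abs hb0
    omega
  rw [hb1, one_mul]
  change |z P₀| ≤ 1
  by_cases hz0 : z P₀ = 0
  · rw [hz0]; norm_num
  obtain ⟨u, hu, huz, hu0⟩ := G.exists_conf hz hz0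
  have huT : ∀ P ∈ T, (b : E → ℤ) P ≠ 0 → P ≠ P₀ → u P = 0 := by
    intro P hP h1 h2
    rcases huz P with h3 | h3
    · exact h3
    · rw [h3, hzT P hP h1 h2]; rfl
  have hsg : (z P₀).sign = 1 ∨ (z P₀).sign = -1 := by
    rcases sign_trich (z P₀) with h1 | h1 | h1
    · exact absurd h1.1 hz0
    · left; exact h1.2
    · right; exact h1.2
  have hu1 : u P₀ ≠ 0 := by
    rw [hu0]
    rcases hsg with h1 | h1 <;> rw [h1] <;> norm_num
  obtain ⟨x, hx⟩ := h.lift ⟨u, hu⟩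
  have hx' : ∀ e ∈ S, c e x = u e := hx
  -- `u` does not vanish on `S`
  have huS : ∃ e ∈ S, u e ≠ 0 := by
    by_contra hcon
    push Not at hcon
    have h1 := h.orth b ⟨u, hu⟩
    rw [hflow ⟨u, hu⟩ huT, sum_eq_zero (fun e he => by
      change (b : E → ℤ) e * u e = 0
      rw [hcon e he, mul_zero]), zero_add] at h1
    rcases mul_eq_zero.1 h1 with h2 | h2
    · exact hb0 h2
    · exact hu1 h2
  obtain ⟨e₁, he₁, hue₁⟩ := huS
  have hel := ha.2.2 x ⟨⟨e₁, he₁⟩, by rw [fam'_apply]; rw [hx' e₁ he₁]; exact hue₁⟩ (by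
    rintro ⟨e, he⟩ hk
    rw [fam'_apply] at hk ⊢
    simp only at hk ⊢
    rw [hx' e he]
    rcases huz e with h3 | h3
    · exact h3
    · rw [h3, hzS e he, hk]; rfl)
  have huc : ∀ e ∈ S, u e = z e := by
    intro e he
    have h1 := abs_le.1 (ha.2.1 ⟨e, he⟩)
    rw [fam'_apply] at h1
    simp only at h1
    rw [hzS e he]
    rcases huz e with h3 | h3
    · have h4 := hel ⟨e, he⟩ (by rw [fam'_apply]; rw [hx' e he]; exact h3)
      rw [fam'_apply] at h4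
      simp only at h4
      rw [h3, h4]
    · rw [h3, hzS e he]
      rcases sign_trich (c e a) with h4 | h4 | h4 <;> omega
  have h1 := h.orth b ⟨z, hz⟩
  have h2 := h.orth b ⟨u, hu⟩
  rw [hflow ⟨z, hz⟩ hzT] at h1
  rw [hflow ⟨u, hu⟩ huT] at h2
  have h3 : ∑ e ∈ S, (b : E → ℤ) e * (((⟨u, hu⟩ : G.flows) : E → ℤ)) e =
      ∑ e ∈ S, (b : E → ℤ) e * (((⟨z, hz⟩ : G.flows) : E → ℤ)) e :=
    sum_congr rfl fun e he => by
      change (b : E → ℤ) e * u e = (b : E → ℤ) e * z e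
      rw [huc e he]
  have h4 : (b : E → ℤ) P₀ * (z P₀ - u P₀) = 0 := by
    rw [h3] at h2
    change _ + (b : E → ℤ) P₀ * z P₀ = 0 at h1
    change _ + (b : E → ℤ) P₀ * u P₀ = 0 at h2
    linarith
  rcases mul_eq_zero.1 h4 with h5 | h5
  · exact absurd h5 hb0
  · have h6 : z P₀ = (z P₀).sign := by rw [← hu0]; linarith
    rw [h6]
    rcases hsg with h7 | h7 <;> rw [h7] <;> norm_num

theorem Data.sys (h : Data G S T ℓ c d) : Sys (fun P : T => (ℓ P : ℤ)) (fun e : S => (ℓ e : ℤ))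
    (fam G T) (fam' S c) (Bf S c) where
  ker a := by
    constructor
    · intro h0 e
      exact h.kill1 (fun P hP => h0 ⟨P, hP⟩) e.2
    · intro h0 P
      have h1 := h.q1 a
      have h0' : ∀ e ∈ S, c e a = 0 := fun e he => h0 ⟨e, he⟩
      rw [sum_eq_zero (s := S) (fun e he => by rw [h0' e he]; ring)] at h1
      have h2 := (sum_eq_zero_iff_of_nonneg fun P _ => by positivity).1 h1 P P.2
      rcases mul_eq_zero.1 h2 with h3 | h3
      · have := h.three P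
        omega
      · exact pow_eq_zero_iff (two_ne_zero) |>.1 h3
  regf := by
    rintro ⟨x, hx⟩ ⟨⟨P, hP⟩, h1⟩
    obtain ⟨u, hu, hux, hue⟩ := exists_conf_cut G hx h1
    refine ⟨⟨u, hu⟩, ⟨⟨P, hP⟩, ?_⟩, fun k => hux k⟩
    change u P ≠ 0
    rw [hue]
    exact fun h => h1 (Int.sign_eq_zero_iff_zero.1 h)
  regg := by
    rintro a ⟨⟨e, he⟩, h1⟩
    rw [fam'_apply] at h1
    simp only at h1
    obtain ⟨z, hz⟩ := h.flow_of a
    have hze : (z : E → ℤ) e ≠ 0 := by rw [hz e he]; exact h1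
    obtain ⟨u, hu, huz, hue⟩ := G.exists_conf z.2 hze
    obtain ⟨x, hx⟩ := h.lift ⟨u, hu⟩
    have hx' : ∀ e ∈ S, c e x = u e := hx
    refine ⟨x, ⟨⟨e, he⟩, ?_⟩, ?_⟩
    · rw [fam'_apply]
      simp only
      rw [hx' e he, hue]
      exact fun h => hze (Int.sign_eq_zero_iff_zero.1 h)
    · rintro ⟨f, hf⟩
      rw [fam'_apply, fam'_apply]
      simp only
      rw [hx' f hf, ← hz f hf]
      exact huz f
  addl a b z := by
    simp only [Bf, map_add, add_mul, sum_add_distrib]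
  addr a b z := by
    simp only [Bf, Submodule.coe_add, Pi.add_apply, mul_add, sum_add_distrib]
  zerol a b h0 := by
    apply sum_eq_zero
    intro e he
    have h1 : c e a = 0 := h0 ⟨e, he⟩
    rw [h1, zero_mul]
  zeror a b h0 := h.zeror a fun P hP => h0 ⟨P, hP⟩
  quad a := by
    have h1 := h.q1 a
    have e1 : ip (fun P : T => (ℓ P : ℤ)) (fam G T) a a =
        ∑ P ∈ T, (ℓ P : ℤ) * (a : E → ℤ) P ^ 2 := by
      rw [ip, ← sum_coe_sort T fun P => (ℓ P : ℤ) * (a : E → ℤ) P ^ 2]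
      refine sum_congr rfl fun P _ => ?_
      rw [fam_apply]
      ring
    have e2 : ip (fun e : S => (ℓ e : ℤ)) (fam' S c) a a = ∑ e ∈ S, (ℓ e : ℤ) * c e a ^ 2 := by
      rw [ip, ← sum_coe_sort S fun e => (ℓ e : ℤ) * c e a ^ 2]
      refine sum_congr rfl fun P _ => ?_
      rw [fam'_apply]
      ring
    rw [e1, e2, h1, Bf, mul_sum, ← sum_add_distrib]
    exact sum_congr rfl fun e _ => by ring
  bound a b ha hb := h.Bf_bound ha hb
  p3 P := by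
    have := h.three P
    omega
  q3 e := by
    have := h.three e
    omega

/-- Two cuts meeting in `T` only in the edge `P₀`. -/
theorem Data.two_cuts (h : Data G S T ℓ c d)
    (hne : ∀ e ∈ T, ∃ x ∈ G.cuts, x e ≠ 0)
    (hpar : ∀ e ∈ T, ∀ f ∈ T, Parallel G e f → e = f) {P₀ : E} (hP₀ : P₀ ∈ T) :
    ∃ b b' : G.cuts, (b : E → ℤ) P₀ = 1 ∧ (b' : E → ℤ) P₀ = 1 ∧
      (∀ P ∈ T, P ≠ P₀ → (b : E → ℤ) P * (b' : E → ℤ) P = 0) ∧
      |(ℓ P₀ : ℤ) - ∑ e : S, (ℓ e : ℤ) * (c e b * c e b')| ≤ 2 := by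
  classical
  have hs := h.sys
  -- no loops and no parallel edges
  have hloop : G.src P₀ ≠ G.tgt P₀ := by
    intro h'
    obtain ⟨x, ⟨y, hy⟩, hx⟩ := hne P₀ hP₀
    apply hx
    rw [hy, h', sub_self]
  obtain ⟨w, w', hw, hw', hwu, hwu', hw1, hw1', hdis⟩ := exists_two_cuts G T hloop (by
    intro P hP hPne hpp
    apply hPne
    apply hpar P hP P₀ hP₀
    rintro x ⟨y, hy⟩
    rw [hy, hy]
    rcases hpp with ⟨h1, h2⟩ | ⟨h1, h2⟩
    · rw [h1, h2]
    · rw [h1, h2]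
      constructor <;> intro h3 <;> linarith)
  -- elementary parts through `P₀`
  have hpart : ∀ x : G.cuts, (x : E → ℤ) P₀ = 1 → ∃ b : G.cuts, Elem (fam G T) b ∧
      Conf (fam G T) b x ∧ (b : E → ℤ) P₀ = 1 := by
    intro x hx
    obtain ⟨n, b, hb⟩ := exists_dec hs.regf x
    obtain ⟨i, hi⟩ : ∃ i, (b i : E → ℤ) P₀ ≠ 0 := by
      by_contra hcon
      push Not at hcon
      have h1 := hb.2 ⟨P₀, hP₀⟩
      rw [fam_apply, hx, sum_eq_zero (fun i _ => by rw [fam_apply]; exact hcon i)] at h1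
      omega
    refine ⟨b i, (hb.1 i).1, (hb.1 i).2, ?_⟩
    rcases (hb.1 i).2 ⟨P₀, hP₀⟩ with h1 | h1
    · exact absurd h1 hi
    · rw [fam_apply, fam_apply, hx] at h1
      exact h1
  obtain ⟨b, hb, hbw, hb1⟩ := hpart ⟨w, hw⟩ hw1
  obtain ⟨b', hb', hbw', hb1'⟩ := hpart ⟨w', hw'⟩ hw1'
  have hbb : ∀ P ∈ T, P ≠ P₀ → (b : E → ℤ) P * (b' : E → ℤ) P = 0 := by
    intro P hP hPne
    rcases hdis P hP hPne with h1 | h1
    · rcases hbw ⟨P, hP⟩ with h2 | h2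
      · rw [fam_apply] at h2
        simp only at h2
        rw [h2, zero_mul]
      · rw [fam_apply, fam_apply] at h2
        change (b : E → ℤ) P = (w P).sign at h2
        rw [h2, h1]
        simp
    · rcases hbw' ⟨P, hP⟩ with h2 | h2
      · rw [fam_apply] at h2
        simp only at h2
        rw [h2, mul_zero]
      · rw [fam_apply, fam_apply] at h2
        change (b' : E → ℤ) P = (w' P).sign at h2
        rw [h2, h1]
        simp
  refine ⟨b, b', hb1, hb1', hbb, ?_⟩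
  have e1 : ip (fun P : T => (ℓ P : ℤ)) (fam G T) b b' = ℓ P₀ := by
    rw [ip, sum_eq_single (⟨P₀, hP₀⟩ : T)]
    · rw [fam_apply, fam_apply]
      simp only
      rw [hb1, hb1']
      ring
    · intro P _ hPne
      rw [fam_apply, fam_apply, hbb P P.2 (fun h' => hPne (Subtype.ext h')), mul_zero]
    · intro h'
      exact absurd (mem_univ _) h'
  have e2 : ip (fun e : S => (ℓ e : ℤ)) (fam' S c) b b' =
      ∑ e : S, (ℓ e : ℤ) * (c e b * c e b') := rfl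
  have h1 := hs.polar b b'
  rw [e1, e2] at h1
  have h2 := abs_le.1 (h.Bf_bound ((hs.elem_iff b).1 hb) hb')
  have h3 := abs_le.1 (h.Bf_bound ((hs.elem_iff b').1 hb') hb)
  rw [abs_le]
  omega

/-- **The pairing of the twist regions.** -/
theorem Data.pairing (h : Data G S T ℓ c d)
    (hne : ∀ e ∈ T, ∃ x ∈ G.cuts, x e ≠ 0) (hne' : ∀ e ∈ S, ∃ y ∈ G.flows, y e ≠ 0)
    (hser : ∀ e ∈ S, ∀ f ∈ S, G.Series e f → e = f)
    (hpar : ∀ e ∈ T, ∀ f ∈ T, Parallel G e f → e = f) :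
    ∃ (π : S ≃ T) (η : S → ℤˣ), (∀ e, ℓ (π e) ≤ ℓ e + 2 ∧ ℓ e ≤ ℓ (π e) + 2) ∧
      FormZero G.cuts ℓ π η := by
  classical
  have hs := h.sys
  -- each functional is a coordinate
  have hex : ∀ e ∈ S, ∃ P ∈ T, ∃ s : ℤˣ, ∀ x : G.cuts, c e x = s * (x : E → ℤ) P := by
    intro e he
    have hce : c e ≠ 0 := by
      obtain ⟨y, hy, hye⟩ := hne' e he
      obtain ⟨x, hx⟩ := h.lift ⟨y, hy⟩
      intro h0
      apply hye
      have h1 := hx e he
      rw [h0, LinearMap.zero_apply] at h1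
      exact h1.symm
    obtain ⟨P, hP, h1⟩ := functional_edge G T (c e) hce fun x hx =>
      hs.unit (a := x) (fun P => hx P P.2) ⟨e, he⟩
    refine ⟨P, hP, ?_⟩
    rcases h1 with h1 | h1
    · exact ⟨1, fun x => by rw [h1]; simp⟩
    · exact ⟨-1, fun x => by rw [h1]; simp⟩
  choose π0 hπT s hs' using hex
  let π1 : S → T := fun e => ⟨π0 e e.2, hπT e e.2⟩
  have hπ1 : ∀ e, ((π1 e : T) : E) = π0 e e.2 := fun e => rfl
  have hinj : Function.Injective π1 := by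
    rintro ⟨e, he⟩ ⟨f, hf⟩ hef
    have hef' : π0 e he = π0 f hf := congrArg Subtype.val hef
    apply Subtype.ext
    apply hser e he f hf
    intro y hy
    obtain ⟨x, hx⟩ := h.lift ⟨y, hy⟩
    have h1 : c e x = y e := hx e he
    have h2 : c f x = y f := hx f hf
    rw [hs' e he] at h1
    rw [hs' f hf, ← hef'] at h2
    rcases Int.units_eq_one_or (s e he) with h3 | h3 <;>
      rcases Int.units_eq_one_or (s f hf) with h4 | h4 <;> rw [h3] at h1 <;> rw [h4] at h2 <;>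
      push_cast at h1 h2 <;> constructor <;> intro h5 <;> linarith
  have hprod : ∀ (e : S) (b b' : G.cuts), (ℓ e : ℤ) * (c e b * c e b') =
      (ℓ e : ℤ) * ((b : E → ℤ) (π1 e) * (b' : E → ℤ) (π1 e)) := by
    intro e b b'
    rw [hs' e e.2, hs' e e.2, hπ1]
    have h3 := unit_sq (s e e.2)
    calc (ℓ e : ℤ) * ((s e e.2 : ℤ) * (b : E → ℤ) (π0 e e.2) *
        ((s e e.2 : ℤ) * (b' : E → ℤ) (π0 e e.2))) =
        (ℓ e : ℤ) * (((s e e.2 : ℤ) * (s e e.2 : ℤ)) *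
        ((b : E → ℤ) (π0 e e.2) * (b' : E → ℤ) (π0 e e.2))) := by ring
      _ = _ := by rw [h3, one_mul]
  have hsurj : Function.Surjective π1 := by
    rintro ⟨P₀, hP₀⟩
    by_contra hcon
    push Not at hcon
    obtain ⟨b, b', hb, hb', hbb, h2⟩ := h.two_cuts hne hpar hP₀
    rw [sum_eq_zero (fun e _ => by
      rw [hprod, hbb (π1 e) (π1 e).2 (fun h' => hcon e (Subtype.ext h')), mul_zero]),
      sub_zero, abs_le] at h2
    have h4 := h.three P₀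
    omega
  refine ⟨Equiv.ofBijective π1 ⟨hinj, hsurj⟩, fun e => s e e.2, fun e => ?_, fun x hx => ?_⟩
  · change ℓ (π1 e) ≤ ℓ e + 2 ∧ ℓ e ≤ ℓ (π1 e) + 2
    obtain ⟨b, b', hb, hb', hbb, h2⟩ := h.two_cuts hne hpar (π1 e).2
    rw [sum_eq_single e (fun f _ hf => by
      rw [hprod, hbb (π1 f) (π1 f).2 (fun h' => hf (hinj (Subtype.ext h'))), mul_zero])
      (fun h' => absurd (mem_univ _) h'), hprod, hb, hb', mul_one, mul_one, abs_le] at h2
    omega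
  have h2 := h.q1 ⟨x, hx⟩
  have h3 : ∑ P ∈ T, (ℓ P : ℤ) * x P ^ 2 = ∑ e : S, (ℓ (π1 e) : ℤ) * x (π1 e) ^ 2 := by
    rw [← sum_coe_sort T fun P => (ℓ P : ℤ) * x P ^ 2]
    exact (Equiv.sum_comp (Equiv.ofBijective π1 ⟨hinj, hsurj⟩)
      fun P : T => (ℓ P : ℤ) * x P ^ 2).symm
  have h4 : ∑ e ∈ S, ((ℓ e : ℤ) * c e ⟨x, hx⟩ ^ 2 + 2 * x e * c e ⟨x, hx⟩) =
      ∑ e : S, ((ℓ e : ℤ) * x (π1 e) ^ 2 + 2 * (s e e.2 * x e * x (π1 e))) := by
    rw [← sum_coe_sort S fun e => (ℓ e : ℤ) * c e ⟨x, hx⟩ ^ 2 + 2 * x e * c e ⟨x, hx⟩]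
    apply sum_congr rfl
    intro e _
    rw [hs' e e.2]
    have h3 := unit_sq (s e e.2)
    change (ℓ e : ℤ) * ((s e e.2 : ℤˣ) * x (π1 e)) ^ 2 +
      2 * x e * ((s e e.2 : ℤˣ) * x (π1 e)) = _
    calc (ℓ e : ℤ) * ((s e e.2 : ℤˣ) * x (π1 e)) ^ 2 + 2 * x e * ((s e e.2 : ℤˣ) * x (π1 e))
        = (ℓ e : ℤ) * (((s e e.2 : ℤˣ) : ℤ) * (s e e.2 : ℤˣ)) * x (π1 e) ^ 2 +
          2 * ((s e e.2 : ℤˣ) * x e * x (π1 e)) := by ring
      _ = _ := by rw [h3, mul_one]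
  change ∑ P ∈ T, (ℓ P : ℤ) * x P ^ 2 = _ at h2
  rw [h3] at h2
  have h5 : ∑ e : S, (ℓ (π1 e) : ℤ) * x (π1 e) ^ 2 =
      ∑ e : S, ((ℓ e : ℤ) * x (π1 e) ^ 2 + 2 * (s e e.2 * x e * x (π1 e))) := h2.trans h4
  rw [← sub_eq_zero, ← sum_sub_distrib] at h5
  rw [← h5]
  apply sum_congr rfl
  intro e _
  change ((ℓ (π1 e) : ℤ) - ℓ e) * x (π1 e) ^ 2 - 2 * (s e e.2 * x e * x (π1 e)) = _
  ring

end Pool.Agent.H758.TR
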