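import Pool.Agent.H758.TR.Twist

/-!
Sums of diagrams.
-/

set_option autoImplicit false
set_option linter.unusedSectionVars false
set_option maxHeartbeats 400000

namespace Pool.Agent.H758.TR

open Finset Matrix
open Pool.Agent.H762.TG (Multigraph IsUnit')
open Pool.Agent.H762.MX
open Pool.Agent.H758.SR (rank IsIsometry Extends)

variable {n : ℕ} {V E : Fin n → Type} [∀ i, Fintype (V i)] [∀ i, DecidableEq (V i)]
  [∀ i, Fintype (E i)] [∀ i, DecidableEq (E i)] (D : ∀ i, Diagram (V i) (E i))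

/-- extension by zero -/
noncomputable def ext (i : Fin n) (x : E i → ℤ) : (Σ i, E i) → ℤ :=
  Function.extend (Sigma.mk i) x 0

theorem ext_same (i : Fin n) (x : E i → ℤ) (e : E i) : ext i x ⟨i, e⟩ = x e :=
  sigma_mk_injective.extend_apply x 0 e

theorem ext_ne {i j : Fin n} (x : E i → ℤ) (e : E j) (h : j ≠ i) : ext i x ⟨j, e⟩ = 0 := by
  rw [ext, Function.extend_apply']
  · rfl
  · rintro ⟨a, ha⟩
    exact h (congrArg Sigma.fst ha).symm

theorem ext_of_ne {i : Fin n} (x : E i → ℤ) (p : Σ i, E i) (h : p.1 ≠ i) : ext i x p = 0 :=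
  ext_ne x p.2 h

theorem mem_cuts_sum (x : (Σ i, E i) → ℤ) : x ∈ (Diagram.sum D).graph.cuts ↔
    ∀ i, (fun e => x ⟨i, e⟩) ∈ (D i).graph.cuts := by
  constructor
  · rintro ⟨y, hy⟩ i
    exact ⟨fun v => y ⟨i, v⟩, fun e => hy ⟨i, e⟩⟩
  · intro h
    choose y hy using h
    exact ⟨fun v => y v.1 v.2, fun e => hy e.1 e.2⟩

theorem dot_sum (x y : (Σ i, E i) → ℤ) :
    x ⬝ᵥ y = ∑ i, (fun e => x ⟨i, e⟩) ⬝ᵥ (fun e => y ⟨i, e⟩) := by
  rw [dotProduct, Fintype.sum_sigma]
  rfl

theorem ext_dot (i : Fin n) (x : E i → ℤ) (y : (Σ i, E i) → ℤ) :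
    ext i x ⬝ᵥ y = x ⬝ᵥ (fun e => y ⟨i, e⟩) := by
  rw [dot_sum, sum_eq_single i]
  · congr 1
    funext e
    exact ext_same i x e
  · intro j _ hj
    rw [dotProduct]
    exact sum_eq_zero fun e _ => by rw [ext_ne x e hj, zero_mul]
  · intro h; exact absurd (mem_univ _) h

theorem ext_mem_cuts {i : Fin n} {x : E i → ℤ} :
    ext i x ∈ (Diagram.sum D).graph.cuts ↔ x ∈ (D i).graph.cuts := by
  rw [mem_cuts_sum]
  constructor
  · intro h
    have h1 := h i
    have h2 : (fun e => ext i x ⟨i, e⟩) = x := funext fun e => ext_same i x e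
    rwa [h2] at h1
  · intro h j
    by_cases hj : j = i
    · subst hj
      have h2 : (fun e => ext j x ⟨j, e⟩) = x := funext fun e => ext_same j x e
      rwa [h2]
    · have h2 : (fun e : E j => ext i x ⟨j, e⟩) = 0 := funext fun e => ext_ne x e hj
      rw [h2]
      exact (D j).graph.cuts.zero_mem

theorem mem_flows_sum (x : (Σ i, E i) → ℤ) : x ∈ (Diagram.sum D).graph.flows ↔
    ∀ i, (fun e => x ⟨i, e⟩) ∈ (D i).graph.flows := by
  constructor
  · intro h i
    apply (D i).graph.isFlow_of_dot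
    intro z hz
    rw [← ext_dot]
    exact (Diagram.sum D).graph.cuts_dot_flows ((ext_mem_cuts D).2 hz) h
  · intro h
    apply (Diagram.sum D).graph.isFlow_of_dot
    intro z hz
    rw [dot_sum]
    exact sum_eq_zero fun i _ => (D i).graph.cuts_dot_flows ((mem_cuts_sum D z).1 hz i) (h i)

theorem ext_mem_flows {i : Fin n} {x : E i → ℤ} :
    ext i x ∈ (Diagram.sum D).graph.flows ↔ x ∈ (D i).graph.flows := by
  rw [mem_flows_sum]
  constructor
  · intro h
    have h1 := h i
    have h2 : (fun e => ext i x ⟨i, e⟩) = x := funext fun e => ext_same i x e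
    rwa [h2] at h1
  · intro h j
    by_cases hj : j = i
    · subst hj
      have h2 : (fun e => ext j x ⟨j, e⟩) = x := funext fun e => ext_same j x e
      rwa [h2]
    · have h2 : (fun e : E j => ext i x ⟨j, e⟩) = 0 := funext fun e => ext_ne x e hj
      rw [h2]
      exact (D j).graph.flows.zero_mem

theorem mem_first_sum (p : Σ i, E i) : p ∈ (Diagram.sum D).first ↔ p.2 ∈ (D p.1).first := by
  simp [Diagram.sum]

theorem three_sum (h : ∀ i, (D i).Three) : (Diagram.sum D).Three where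
  flow := by
    rintro ⟨i, e⟩ he
    rw [mem_first_sum] at he
    obtain ⟨y, hy, hye⟩ := (h i).flow e he
    exact ⟨ext i y, (ext_mem_flows D).2 hy, by rw [ext_same]; exact hye⟩
  cut := by
    rintro ⟨i, e⟩ he
    rw [mem_first_sum] at he
    obtain ⟨y, hy, hye⟩ := (h i).cut e he
    exact ⟨ext i y, (ext_mem_cuts D).2 hy, by rw [ext_same]; exact hye⟩
  series := by
    rintro ⟨i, e⟩ he ⟨j, f⟩ hf hs
    rw [mem_first_sum] at he hf
    by_cases hij : i = j
    · subst hij
      have : e = f := (h i).series e he f hf fun x hx => by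
        have h1 := hs (ext i x) ((ext_mem_flows D).2 hx)
        rwa [ext_same, ext_same] at h1
      rw [this]
    · obtain ⟨y, hy, hye⟩ := (h i).flow e he
      exfalso
      apply hye
      have h1 := hs (ext i y) ((ext_mem_flows D).2 hy)
      rw [ext_same] at h1
      exact h1.2 (ext_ne y f (Ne.symm hij))
  parallel := by
    rintro ⟨i, e⟩ he ⟨j, f⟩ hf hs
    rw [mem_first_sum] at he hf
    by_cases hij : i = j
    · subst hij
      have : e = f := (h i).parallel e he f hf fun x hx => by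
        have h1 := hs (ext i x) ((ext_mem_cuts D).2 hx)
        rwa [ext_same, ext_same] at h1
      rw [this]
    · obtain ⟨y, hy, hye⟩ := (h i).cut e he
      exfalso
      apply hye
      have h1 := hs (ext i y) ((ext_mem_cuts D).2 hy)
      rw [ext_same] at h1
      exact h1.2 (ext_ne y f (Ne.symm hij))
  three e := (h e.1).three e.2
  four := by
    rintro ⟨i, e⟩ he
    obtain ⟨⟨x, hx, hxe⟩, ⟨y, hy, hye⟩⟩ := (h i).four e he
    exact ⟨⟨ext i x, (ext_mem_cuts D).2 hx, by rw [ext_same]; exact hxe⟩,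
      ⟨ext i y, (ext_mem_flows D).2 hy, by rw [ext_same]; exact hye⟩⟩

variable {D}

/-- the restriction to a summand -/
theorem restr_mem_flows {u : (Σ i, E i) → ℤ} (hu : u ∈ (Diagram.sum D).graph.flows)
    (j : Fin n) : (fun p : Σ i, E i => if p.1 = j then u p else 0) ∈
      (Diagram.sum D).graph.flows := by
  rw [mem_flows_sum] at hu ⊢
  intro i
  by_cases hij : i = j
  · have h1 : (fun e : E i => if i = j then u ⟨i, e⟩ else 0) = fun e => u ⟨i, e⟩ :=
      funext fun e => if_pos hij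
    rw [h1]
    exact hu i
  · have h1 : (fun e : E i => if i = j then u ⟨i, e⟩ else 0) = 0 := funext fun e => if_neg hij
    rw [h1]
    exact (D i).graph.flows.zero_mem

section

variable {τ : (Σ i, E i) → Σ i, E i} {η : (Σ i, E i) → ℤˣ}

/-- the edges of a summand with partner in another summand form a separator -/
theorem separator (hsw : Swap (Diagram.sum D).first (Diagram.sum D).num τ η)
    (hx : ∀ x, x ∈ (Diagram.sum D).graph.cuts ↔
      tw (Diagram.sum D).first (Diagram.sum D).num τ η x ∈ (Diagram.sum D).graph.flows)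
    (i j : Fin n) {x : E i → ℤ} (hxL : x ∈ (D i).graph.cuts) :
    (fun e => if (τ ⟨i, e⟩).1 = j then x e else 0) ∈ (D i).graph.cuts := by
  set S := (Diagram.sum D).first with hS
  set ℓ := (Diagram.sum D).num with hℓ
  set X := ext i x with hX
  have hXL : X ∈ (Diagram.sum D).graph.cuts := (ext_mem_cuts D).2 hxL
  set u := tw S ℓ τ η X with hu
  have huF : u ∈ (Diagram.sum D).graph.flows := (hx X).1 hXL
  have hq := restr_mem_flows huF j
  set q : (Σ i, E i) → ℤ := fun p => if p.1 = j then u p else 0 with hqd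
  have hz : wt S ℓ τ η q ∈ (Diagram.sum D).graph.cuts := by
    rw [hx, hsw.tw_wt]
    exact hq
  have hzi := (mem_cuts_sum D _).1 hz i
  have heq : (fun e => wt S ℓ τ η q ⟨i, e⟩) = fun e => if (τ ⟨i, e⟩).1 = j then x e else 0 := by
    funext e
    have hq' : ∀ p, q p = if p.1 = j then u p else 0 := fun p => rfl
    have hη := unit_sq (η ⟨i, e⟩)
    have hXe : X ⟨i, e⟩ = x e := ext_same i x e
    by_cases he : (⟨i, e⟩ : Σ i, E i) ∈ S
    · have hτ : τ ⟨i, e⟩ ∉ S := fun h' => (hsw.mem _).1 h' he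
      rw [wt_in _ he, hq', hq', hu, tw_in _ he, tw_out _ hτ, hsw.inv, hsw.sgn, hXe]
      by_cases h1 : (τ ⟨i, e⟩).1 = i
      · by_cases h2 : i = j
        · rw [if_pos (h1.trans h2), if_pos h2, if_pos (h1.trans h2)]
          calc (η ⟨i, e⟩ : ℤ) * (η ⟨i, e⟩ * x e - ((ℓ (τ ⟨i, e⟩) : ℤ) - ℓ ⟨i, e⟩) *
              X (τ ⟨i, e⟩)) + ((ℓ (τ ⟨i, e⟩) : ℤ) - ℓ ⟨i, e⟩) * (η ⟨i, e⟩ * X (τ ⟨i, e⟩)) =
              ((η ⟨i, e⟩ : ℤ) * η ⟨i, e⟩) * x e := by ring
            _ = x e := by rw [hη, one_mul]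
        · rw [if_neg (fun h3 => h2 (h1.symm.trans h3)), if_neg h2,
            if_neg (fun h3 => h2 (h1.symm.trans h3))]
          ring
      · have hX0 : X (τ ⟨i, e⟩) = 0 := ext_of_ne x _ h1
        rw [hX0]
        simp only [mul_zero, ite_self, add_zero, sub_zero]
        by_cases h2 : (τ ⟨i, e⟩).1 = j
        · rw [if_pos h2, if_pos h2, ← mul_assoc, hη, one_mul]
        · rw [if_neg h2, if_neg h2, mul_zero]
    · have hτ : τ ⟨i, e⟩ ∈ S := (hsw.mem _).2 he
      rw [wt_out _ he, hq', hu, tw_in _ hτ, hsw.inv, hsw.sgn, hXe]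
      split_ifs with h2
      · calc (η ⟨i, e⟩ : ℤ) * (η ⟨i, e⟩ * x e) = ((η ⟨i, e⟩ : ℤ) * η ⟨i, e⟩) * x e := by ring
          _ = x e := by rw [hη, one_mul]
      · ring
  rw [heq] at hzi
  exact hzi

/-- **The summands are permuted.** -/
theorem exists_perm (hP : ∀ i, (D i).Prime)
    (hsw : Swap (Diagram.sum D).first (Diagram.sum D).num τ η)
    (hx : ∀ x, x ∈ (Diagram.sum D).graph.cuts ↔
      tw (Diagram.sum D).first (Diagram.sum D).num τ η x ∈ (Diagram.sum D).graph.flows) :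
    ∃ σ : Fin n → Fin n, (∀ i, σ (σ i) = i) ∧ ∀ p, (τ p).1 = σ p.1 := by
  classical
  have hne : ∀ i, Nonempty (E i) := fun i => (hP i).1
  let σ : Fin n → Fin n := fun i => (τ ⟨i, (hne i).some⟩).1
  have h1 : ∀ p, (τ p).1 = σ p.1 := by
    rintro ⟨i, e⟩
    have h2 := (hP i).2 (univ.filter fun e => (τ ⟨i, e⟩).1 = σ i) fun x hxL => by
      have h3 := separator hsw hx i (σ i) hxL
      simpa using h3
    rcases h2 with h2 | h2
    · have h3 : (hne i).some ∈ (univ.filter fun e => (τ ⟨i, e⟩).1 = σ i) :=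
        mem_filter.2 ⟨mem_univ _, rfl⟩
      rw [h2] at h3
      exact absurd h3 (notMem_empty _)
    · have h3 : e ∈ (univ.filter fun e => (τ ⟨i, e⟩).1 = σ i) := by rw [h2]; exact mem_univ _
      exact (mem_filter.1 h3).2
  refine ⟨σ, fun i => ?_, h1⟩
  have h2 := h1 (τ ⟨i, (hne i).some⟩)
  rw [hsw.inv, h1] at h2
  exact h2.symm

end

end Pool.Agent.H758.TR
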