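import Pool.Agent.H758.TR.SumA

/-!
The summands of a twisted self-mirror sum.
-/

set_option autoImplicit false
set_option linter.unusedSectionVars false
set_option maxHeartbeats 400000

namespace Pool.Agent.H758.TR

open Finset Matrix
open Pool.Agent.H762.TG (Multigraph IsUnit')
open Pool.Agent.H762.MX
open Pool.Agent.H758.SR (rank IsIsometry Extends)

variable {n : ℕ} {V E : Fin n → Type} [∀ i, Fintype (V i)] [∀ i, DecidableEq (V i)]
  [∀ i, Fintype (E i)] [∀ i, DecidableEq (E i)] {D : ∀ i, Diagram (V i) (E i)}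
  {τ : (Σ i, E i) → Σ i, E i} {η : (Σ i, E i) → ℤˣ} {σ : Fin n → Fin n}

theorem exists_snd (h : ∀ p, (τ p).1 = σ p.1) {i k : Fin n} (hk : σ i = k) (e : E i) :
    ∃ f : E k, τ ⟨i, e⟩ = ⟨k, f⟩ := by
  have h1 := h ⟨i, e⟩
  rcases hτ : τ ⟨i, e⟩ with ⟨j, f⟩
  rw [hτ] at h1
  simp only at h1
  subst hk
  subst h1
  exact ⟨f, rfl⟩

/-- summands which are preserved -/
theorem self_of_fixed (hsw : Swap (Diagram.sum D).first (Diagram.sum D).num τ η)
    (hle : ∀ p, (Diagram.sum D).num (τ p) ≤ (Diagram.sum D).num p + 2)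
    (hx : ∀ x, x ∈ (Diagram.sum D).graph.cuts ↔
      tw (Diagram.sum D).first (Diagram.sum D).num τ η x ∈ (Diagram.sum D).graph.flows)
    (hσ : ∀ i, σ (σ i) = i) (h : ∀ p, (τ p).1 = σ p.1) {i : Fin n} (hi : σ i = i) :
    (D i).SelfMirror := by
  rw [selfMirror_iff]
  choose t ht using fun e => exists_snd h hi e
  have hinv : ∀ e, t (t e) = e := by
    intro e
    have h1 := hsw.inv ⟨i, e⟩
    rw [ht, ht] at h1
    exact sigma_mk_injective h1
  have hmem : ∀ e, t e ∈ (D i).first ↔ e ∉ (D i).first := by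
    intro e
    have h1 := hsw.mem ⟨i, e⟩
    rw [ht, mem_first_sum, mem_first_sum] at h1
    exact h1
  refine ⟨t, fun e => η ⟨i, e⟩, ⟨hinv, hmem, fun e => ?_⟩, fun e => ?_, fun x => ?_⟩
  · rw [← ht]
    exact hsw.sgn _
  · have h1 := hle ⟨i, e⟩
    rw [ht] at h1
    exact h1
  · rw [← ext_mem_cuts D, hx, ← ext_mem_flows D]
    have heq : tw (Diagram.sum D).first (Diagram.sum D).num τ η (ext i x) =
        ext i (tw (D i).first (D i).num t (fun e => η ⟨i, e⟩) x) := by
      funext p
      obtain ⟨j, e⟩ := p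
      by_cases hj : j = i
      · subst hj
        rw [ext_same, tw_apply, tw_apply, ht, ext_same, ext_same]
        simp only [mem_first_sum]
        rfl
      · have h1 : (τ ⟨j, e⟩).1 ≠ i := by
          rw [h]
          intro h2
          apply hj
          change σ j = i at h2
          rw [← hσ j, h2, hi]
        rw [tw_apply, ext_of_ne x _ h1, ext_ne x e hj, ext_ne _ e hj]
        simp
    rw [heq]

/-- summands which are exchanged -/
theorem mirror_of_moved (hF : ∀ i, (D i).Three)
    (hsw : Swap (Diagram.sum D).first (Diagram.sum D).num τ η)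
    (hx : ∀ x, x ∈ (Diagram.sum D).graph.cuts ↔
      tw (Diagram.sum D).first (Diagram.sum D).num τ η x ∈ (Diagram.sum D).graph.flows)
    (hσ : ∀ i, σ (σ i) = i) (h : ∀ p, (τ p).1 = σ p.1) {i : Fin n} (hi : σ i ≠ i) :
    (D i).Mirror (D (σ i)) := by
  choose a ha using fun (i : Fin n) (e : E i) => exists_snd h (rfl : σ i = σ i) e
  have hsi : σ (σ i) = i := hσ i
  choose b hb using fun e => exists_snd h hsi e
  have hba : ∀ e, b (a i e) = e := by
    intro e
    have h1 := hsw.inv ⟨i, e⟩
    rw [ha i e, hb] at h1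
    exact sigma_mk_injective h1
  have hab : ∀ f, a i (b f) = f := by
    intro f
    have h1 := hsw.inv ⟨σ i, f⟩
    rw [hb f, ha] at h1
    exact sigma_mk_injective h1
  -- the numbers of the regions of the second type agree
  have key : ∀ (j : Fin n), σ j ≠ j → ∀ e ∉ (D j).first, (D (σ j)).num (a j e) = (D j).num e := by
    intro j hj e he
    have hloop : (D j).graph.src e ≠ (D j).graph.tgt e := by
      intro h'
      obtain ⟨x, ⟨y, hy⟩, hx⟩ := (hF j).cut e he
      apply hx
      rw [hy, h', sub_self]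
    obtain ⟨w, w', hw, hw', -, -, hw1, hw1', hdis⟩ := exists_two_cuts (D j).graph
      (univ.filter fun f => f ∉ (D j).first) hloop (by
      intro P hP hPne hpp
      apply hPne
      apply (hF j).parallel P (mem_filter.1 hP).2 e he
      rintro x ⟨y, hy⟩
      rw [hy, hy]
      rcases hpp with ⟨h1, h2⟩ | ⟨h1, h2⟩
      · rw [h1, h2]
      · rw [h1, h2]
        constructor <;> intro h3 <;> linarith)
    have h1 := (Diagram.sum D).graph.cuts_dot_flows ((ext_mem_cuts D).2 hw)
      ((hx _).1 ((ext_mem_cuts D).2 hw'))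
    rw [ext_dot, dotProduct, sum_eq_single e] at h1
    · rw [hw1, one_mul, tw_apply, if_neg (by rw [mem_first_sum]; exact he), ext_same, hw1',
        mul_one, ext_of_ne w' _ (by rw [h]; exact hj), mul_zero, zero_sub, neg_eq_zero,
        sub_eq_zero, ha] at h1
      have h2 : (Diagram.sum D).num ⟨j, e⟩ = (Diagram.sum D).num ⟨σ j, a j e⟩ := by
        exact_mod_cast h1
      exact h2.symm
    · intro f _ hf
      rw [tw_apply, ext_of_ne w' _ (by rw [h]; exact hj), ext_same, mul_zero, zero_sub]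
      split_ifs with hf1
      · rw [neg_zero, mul_zero]
      · have hf2 : f ∈ (univ.filter fun f => f ∉ (D j).first) := by
          rw [mem_filter]
          refine ⟨mem_univ _, fun h' => hf1 ?_⟩
          rw [mem_first_sum]
          exact h'
        rcases hdis f hf2 hf with h2 | h2
        · rw [h2, zero_mul]
        · rw [h2, mul_zero, neg_zero, mul_zero]
    · intro h'; exact absurd (mem_univ _) h'
  have hmem : ∀ e, a i e ∈ (D (σ i)).first ↔ e ∉ (D i).first := by
    intro e
    have h1 := hsw.mem ⟨i, e⟩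
    rw [ha, mem_first_sum, mem_first_sum] at h1
    exact h1
  refine ⟨⟨a i, b, hba, hab⟩, fun e => η ⟨i, e⟩, hmem, fun e => ?_, fun x => ?_⟩
  · change (D (σ i)).num (a i e) = (D i).num e
    by_cases he : e ∈ (D i).first
    · have h1 : a i e ∉ (D (σ i)).first := fun h' => (hmem e).1 h' he
      have h2 := key (σ i) (by rw [hσ]; exact Ne.symm hi) (a i e) h1
      have h3 : (⟨σ (σ i), a (σ i) (a i e)⟩ : Σ i, E i) = ⟨i, e⟩ := by
        rw [← ha (σ i), ← ha i, hsw.inv]
      have h4 : (D (σ (σ i))).num (a (σ i) (a i e)) = (D i).num e :=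
        congrArg (fun p : Σ i, E i => (D p.1).num p.2) h3
      rw [← h2, h4]
    · exact key i hi e he
  · change x ∈ (D (σ i)).graph.cuts ↔ (fun e => (η ⟨i, e⟩ : ℤ) * x (a i e)) ∈ (D i).graph.flows
    constructor
    · intro hxc
      have h1 := (mem_flows_sum D _).1 ((hx _).1 ((ext_mem_cuts D).2 hxc)) i
      have h2 : (fun e => tw (Diagram.sum D).first (Diagram.sum D).num τ η (ext (σ i) x) ⟨i, e⟩) =
          fun e => (η ⟨i, e⟩ : ℤ) * x (a i e) := by
        funext e
        rw [tw_apply, ha, ext_same, ext_ne x e (Ne.symm hi)]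
        simp
      rwa [h2] at h1
    · intro hy
      set y : E i → ℤ := fun e => (η ⟨i, e⟩ : ℤ) * x (a i e) with hyd
      have h1 : wt (Diagram.sum D).first (Diagram.sum D).num τ η (ext i y) ∈
          (Diagram.sum D).graph.cuts := by
        rw [hx, hsw.tw_wt]
        exact (ext_mem_flows D).2 hy
      have h2 := (mem_cuts_sum D _).1 h1 (σ i)
      have h3 : (fun f => wt (Diagram.sum D).first (Diagram.sum D).num τ η (ext i y) ⟨σ i, f⟩) =
          x := by
        funext f
        rw [wt_apply, hb, ext_same, ext_ne y f hi]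
        simp only [mul_zero, ite_self, add_zero, hyd]
        rw [hab]
        have h4 : η ⟨i, b f⟩ = η ⟨σ i, f⟩ := by rw [← hb]; exact hsw.sgn _
        rw [h4, ← mul_assoc, unit_sq, one_mul]
      rwa [h3] at h2

/-- **A twisted self-mirror sum.** -/
theorem sum_forward (hF : ∀ i, (D i).Three) (hP : ∀ i, (D i).Prime)
    (h : (Diagram.sum D).SelfMirror) : ∃ σ : Fin n → Fin n, ∀ i, σ (σ i) = i ∧
      (σ i = i → (D i).SelfMirror) ∧ (σ i ≠ i → (D i).Mirror (D (σ i))) := by
  rw [selfMirror_iff] at h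
  obtain ⟨τ, η, hsw, hle, hx⟩ := h
  obtain ⟨σ, hσ, h1⟩ := exists_perm hP hsw hx
  exact ⟨σ, fun i => ⟨hσ i, fun hi => self_of_fixed hsw hle hx hσ h1 hi,
    fun hi => mirror_of_moved hF hsw hx hσ h1 hi⟩⟩

end Pool.Agent.H758.TR
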