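import Pool.Agent.H758.TR.SumB

/-!
Sums of self-mirror diagrams and of pairs of mirror diagrams.
-/

set_option autoImplicit false
set_option linter.unusedSectionVars false
set_option maxHeartbeats 400000

namespace Pool.Agent.H758.TR

open Finset Matrix
open Pool.Agent.H762.TG (Multigraph IsUnit')
open Pool.Agent.H762.MX
open Pool.Agent.H758.SR (rank IsIsometry Extends)

/-- the dual form of the mirror condition -/
theorem mirror_dual {V E V' E' : Type} [Fintype V] [DecidableEq V] [Fintype E] [DecidableEq E]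
    [Fintype V'] [DecidableEq V'] [Fintype E'] [DecidableEq E'] {G : Multigraph V E}
    {G' : Multigraph V' E'} {φ : E ≃ E'} {ε : E → ℤˣ}
    (h : ∀ x : E' → ℤ, x ∈ G'.cuts ↔ (fun e => (ε e : ℤ) * x (φ e)) ∈ G.flows) (x : E → ℤ) :
    x ∈ G.cuts ↔ (fun f => (ε (φ.symm f) : ℤ) * x (φ.symm f)) ∈ G'.flows := by
  constructor
  · intro hx
    apply G'.isFlow_of_dot
    intro z hz
    rw [dotProduct, ← Equiv.sum_comp φ, ← G.cuts_dot_flows hx ((h z).1 hz), dotProduct]
    refine sum_congr rfl fun e _ => ?_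
    rw [Equiv.symm_apply_apply]
    ring
  · intro hy
    apply G.mem_cuts_of_dot
    intro z hz
    have h1 : (fun f => (ε (φ.symm f) : ℤ) * z (φ.symm f)) ∈ G'.cuts := by
      rw [h]
      have : (fun e => (ε e : ℤ) * ((ε (φ.symm (φ e)) : ℤ) * z (φ.symm (φ e)))) = z := by
        funext e
        rw [Equiv.symm_apply_apply, ← mul_assoc, unit_sq, one_mul]
      rw [this]
      exact hz
    rw [← G'.cuts_dot_flows h1 hy, dotProduct, dotProduct, ← Equiv.sum_comp φ]
    refine sum_congr rfl fun e _ => ?_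
    rw [Equiv.symm_apply_apply]
    calc x e * z e = ((ε e : ℤ) * ε e) * (x e * z e) := by rw [unit_sq, one_mul]
      _ = _ := by ring

variable {n : ℕ} {V E : Fin n → Type} [∀ i, Fintype (V i)] [∀ i, DecidableEq (V i)]
  [∀ i, Fintype (E i)] [∀ i, DecidableEq (E i)] {D : ∀ i, Diagram (V i) (E i)}

/-- **The sum is twisted self-mirror.** -/
theorem sum_backward {σ : Fin n → Fin n} (hσ : ∀ i, σ (σ i) = i)
    (h1 : ∀ i, σ i = i → (D i).SelfMirror) (h2 : ∀ i, σ i ≠ i → (D i).Mirror (D (σ i))) :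
    (Diagram.sum D).SelfMirror := by
  classical
  have h1' := fun i hi => (selfMirror_iff (D i)).1 (h1 i hi)
  choose τ0 η0 a1 a2 a3 using h1'
  choose φ0 ε0 b1 b2 b3 using h2
  have hinj : ∀ i j, σ i = σ j → i = j := fun i j hij => by rw [← hσ i, ← hσ j, hij]
  let R : (Σ i, E i) → (Σ i, E i) → Prop := fun p q =>
    (∃ h : σ p.1 = p.1, q = ⟨p.1, τ0 p.1 h p.2⟩) ∨
    (∃ h : σ p.1 ≠ p.1, p.1 < σ p.1 ∧ q = ⟨σ p.1, φ0 p.1 h p.2⟩) ∨
    (∃ h : σ q.1 ≠ q.1, q.1 < σ q.1 ∧ p = ⟨σ q.1, φ0 q.1 h q.2⟩)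
  have hex : ∀ p, ∃ q, R p q := by
    rintro ⟨i, f⟩
    rcases lt_trichotomy i (σ i) with hi | hi | hi
    · exact ⟨_, Or.inr (Or.inl ⟨hi.ne', hi, rfl⟩)⟩
    · exact ⟨_, Or.inl ⟨hi.symm, rfl⟩⟩
    · obtain ⟨j, hj⟩ : ∃ j, σ j = i := ⟨σ i, hσ i⟩
      subst hj
      rw [hσ] at hi
      refine ⟨⟨j, (φ0 j hi.ne').symm f⟩, Or.inr (Or.inr ⟨hi.ne', hi, ?_⟩)⟩
      simp only [Equiv.apply_symm_apply]
  have hsymm : ∀ p q, R p q → R q p := by
    rintro p q (⟨h, rfl⟩ | ⟨h, hlt, hq⟩ | ⟨h, hlt, hp⟩)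
    · refine Or.inl ⟨h, ?_⟩
      simp only [(a1 p.1 h).inv]
    · exact Or.inr (Or.inr ⟨h, hlt, hq⟩)
    · exact Or.inr (Or.inl ⟨h, hlt, hp⟩)
  have huniq : ∀ p q q', R p q → R p q' → q = q' := by
    rintro p q q' (⟨h, rfl⟩ | ⟨h, hlt, rfl⟩ | ⟨h, hlt, hp⟩) (⟨h', rfl⟩ | ⟨h', hlt', rfl⟩ |
      ⟨h', hlt', hp'⟩)
    · rfl
    · exact absurd h h'
    · have e1 : p.1 = σ q'.1 := congrArg Sigma.fst hp'
      rw [e1, hσ] at h
      exact absurd h.symm h'
    · exact absurd h' h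
    · rfl
    · have e1 : p.1 = σ q'.1 := congrArg Sigma.fst hp'
      rw [e1, hσ] at hlt
      exact absurd hlt (not_lt.2 hlt'.le)
    · have e1 : p.1 = σ q.1 := congrArg Sigma.fst hp
      rw [e1, hσ] at h'
      exact absurd h'.symm h
    · have e1 : p.1 = σ q.1 := congrArg Sigma.fst hp
      rw [e1, hσ] at hlt'
      exact absurd hlt' (not_lt.2 hlt.le)
    · obtain ⟨j, g⟩ := q
      obtain ⟨j', g'⟩ := q'
      have e1 : p.1 = σ j := congrArg Sigma.fst hp
      have e2 : p.1 = σ j' := congrArg Sigma.fst hp'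
      have e3 : j = j' := hinj _ _ (e1.symm.trans e2)
      subst e3
      have e4 := hp.symm.trans hp'
      simp only at e4
      have e5 := sigma_mk_injective e4
      rw [(φ0 j h).injective e5]
  choose τ hτ using hex
  have hR : ∀ {p q}, R p q → τ p = q := fun {p q} h => huniq p _ _ (hτ p) h
  have hinv : ∀ p, τ (τ p) = p := fun p => hR (hsymm _ _ (hτ p))
  -- the values of `τ`
  have τa : ∀ i (h : σ i = i) (f : E i), τ ⟨i, f⟩ = ⟨i, τ0 i h f⟩ := fun i h f =>
    hR (Or.inl ⟨h, rfl⟩)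
  have τb : ∀ i (h : σ i ≠ i) (_ : i < σ i) (f : E i), τ ⟨i, f⟩ = ⟨σ i, φ0 i h f⟩ :=
    fun i h hlt f => hR (Or.inr (Or.inl ⟨h, hlt, rfl⟩))
  have τc : ∀ i (h : σ i ≠ i) (_ : i < σ i) (f : E i), τ ⟨σ i, φ0 i h f⟩ = ⟨i, f⟩ :=
    fun i h hlt f => hR (Or.inr (Or.inr ⟨h, hlt, rfl⟩))
  let g : (Σ i, E i) → ℤˣ := fun p => if h : σ p.1 = p.1 then η0 p.1 h p.2 else ε0 p.1 h p.2
  let η : (Σ i, E i) → ℤˣ := fun p => if σ p.1 < p.1 then g (τ p) else g p
  have ηa : ∀ i (h : σ i = i) (f : E i), η ⟨i, f⟩ = η0 i h f := by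
    intro i h f
    have h1 : η ⟨i, f⟩ = g ⟨i, f⟩ := if_neg (by simp only; rw [h]; exact lt_irrefl _)
    rw [h1]
    exact dif_pos h
  have ηb : ∀ i (h : σ i ≠ i) (_ : i < σ i) (f : E i), η ⟨i, f⟩ = ε0 i h f := by
    intro i h hlt f
    have h1 : η ⟨i, f⟩ = g ⟨i, f⟩ := if_neg (not_lt.2 hlt.le)
    rw [h1]
    exact dif_neg h
  have ηc : ∀ i (h : σ i ≠ i) (_ : i < σ i) (f : E i), η ⟨σ i, φ0 i h f⟩ = ε0 i h f := by
    intro i h hlt f
    have h1 : η ⟨σ i, φ0 i h f⟩ = g (τ ⟨σ i, φ0 i h f⟩) :=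
      if_pos (by simp only; rw [hσ]; exact hlt)
    rw [h1, τc i h hlt]
    exact dif_neg h
  have hcase : ∀ P : (Σ i, E i) → Prop, (∀ i (_ : σ i = i) (f : E i), P ⟨i, f⟩) →
      (∀ i (_ : σ i ≠ i) (_ : i < σ i) (f : E i), P ⟨i, f⟩) →
      (∀ i (h : σ i ≠ i) (_ : i < σ i) (f : E i), P ⟨σ i, φ0 i h f⟩) → ∀ p, P p := by
    rintro P pa pb pc ⟨i, f⟩
    rcases lt_trichotomy i (σ i) with hi | hi | hi
    · exact pb i hi.ne' hi f
    · exact pa i hi.symm f
    · obtain ⟨j, hj⟩ : ∃ j, σ j = i := ⟨σ i, hσ i⟩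
      subst hj
      rw [hσ] at hi
      have := pc j hi.ne' hi ((φ0 j hi.ne').symm f)
      rwa [Equiv.apply_symm_apply] at this
  rw [selfMirror_iff]
  refine ⟨τ, η, ⟨hinv, ?_, ?_⟩, ?_, ?_⟩
  · refine hcase _ (fun i h f => ?_) (fun i h hlt f => ?_) (fun i h hlt f => ?_)
    · rw [τa i h, mem_first_sum, mem_first_sum]
      exact (a1 i h).mem f
    · rw [τb i h hlt, mem_first_sum, mem_first_sum]
      exact b1 i h f
    · rw [τc i h hlt, mem_first_sum, mem_first_sum]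
      have := b1 i h f
      simp only
      tauto
  · refine hcase _ (fun i h f => ?_) (fun i h hlt f => ?_) (fun i h hlt f => ?_)
    · rw [τa i h, ηa i h, ηa i h]
      exact (a1 i h).sgn f
    · rw [τb i h hlt, ηb i h hlt, ηc i h hlt]
    · rw [τc i h hlt, ηb i h hlt, ηc i h hlt]
  · refine hcase _ (fun i h f => ?_) (fun i h hlt f => ?_) (fun i h hlt f => ?_)
    · rw [τa i h]
      exact a2 i h f
    · rw [τb i h hlt]
      have := b2 i h f
      change (D (σ i)).num (φ0 i h f) ≤ (D i).num f + 2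
      omega
    · rw [τc i h hlt]
      have := b2 i h f
      change (D i).num f ≤ (D (σ i)).num (φ0 i h f) + 2
      omega
  · intro x
    rw [mem_cuts_sum, mem_flows_sum]
    let P : Fin n → Prop := fun k => (fun e => x ⟨k, e⟩) ∈ (D k).graph.cuts
    have key : ∀ i, (fun e => tw (Diagram.sum D).first (Diagram.sum D).num τ η x ⟨i, e⟩) ∈
        (D i).graph.flows ↔ P (σ i) := by
      intro i
      rcases lt_trichotomy i (σ i) with hi | hi | hi
      · -- the pair with the smaller index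
        change _ ↔ (fun e => x ⟨σ i, e⟩) ∈ (D (σ i)).graph.cuts
        rw [b3 i hi.ne']
        have h3 : (fun e => tw (Diagram.sum D).first (Diagram.sum D).num τ η x ⟨i, e⟩) =
            fun e => (ε0 i hi.ne' e : ℤ) * x ⟨σ i, φ0 i hi.ne' e⟩ := by
          funext e
          rw [tw_apply, τb i hi.ne' hi, ηb i hi.ne' hi]
          have h4 : (Diagram.sum D).num ⟨σ i, φ0 i hi.ne' e⟩ = (Diagram.sum D).num ⟨i, e⟩ :=
            b2 i hi.ne' e
          rw [h4, sub_self, zero_mul, ite_self, sub_zero]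
        rw [h3]
      · have h4 : P (σ i) = P i := congrArg P hi.symm
        rw [h4]
        change _ ↔ (fun e => x ⟨i, e⟩) ∈ (D i).graph.cuts
        rw [a3 i hi.symm]
        have h3 : (fun e => tw (Diagram.sum D).first (Diagram.sum D).num τ η x ⟨i, e⟩) =
            tw (D i).first (D i).num (τ0 i hi.symm) (η0 i hi.symm) (fun e => x ⟨i, e⟩) := by
          funext e
          rw [tw_apply, tw_apply, τa i hi.symm, ηa i hi.symm]
          simp only [mem_first_sum]
          rfl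
        rw [h3]
      · obtain ⟨j, hj⟩ : ∃ j, σ j = i := ⟨σ i, hσ i⟩
        subst hj
        rw [hσ] at hi
        have h4 : P (σ (σ j)) = P j := congrArg P (hσ j)
        rw [h4]
        change _ ↔ (fun e => x ⟨j, e⟩) ∈ (D j).graph.cuts
        rw [mirror_dual (b3 j hi.ne')]
        have h3 : (fun e => tw (Diagram.sum D).first (Diagram.sum D).num τ η x ⟨σ j, e⟩) =
            fun f => (ε0 j hi.ne' ((φ0 j hi.ne').symm f) : ℤ) *
              x ⟨j, (φ0 j hi.ne').symm f⟩ := by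
          funext e
          obtain ⟨f, rfl⟩ := (φ0 j hi.ne').surjective e
          rw [tw_apply, τc j hi.ne' hi, ηc j hi.ne' hi, Equiv.symm_apply_apply]
          have h4 : (Diagram.sum D).num ⟨σ j, φ0 j hi.ne' f⟩ = (Diagram.sum D).num ⟨j, f⟩ :=
            b2 j hi.ne' f
          rw [h4, sub_self, zero_mul, ite_self, sub_zero]
        rw [h3]
    constructor
    · intro h i
      exact (key i).2 (h (σ i))
    · intro h i
      have h3 := (key (σ i)).1 (h (σ i))
      have h4 : P (σ (σ i)) = P i := congrArg P (hσ i)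
      rw [h4] at h3
      exact h3

/-- **Slice sums of prime alternating knots.** -/
theorem slice_sum_iff (hF : ∀ i, (D i).Three) (hP : ∀ i, (D i).Prime) :
    (Diagram.sum D).LatticeSlice ↔ ∃ σ : Fin n → Fin n, ∀ i, σ (σ i) = i ∧
      (σ i = i → (D i).SelfMirror) ∧ (σ i ≠ i → (D i).Mirror (D (σ i))) := by
  rw [slice_iff (three_sum D hF)]
  constructor
  · exact sum_forward hF hP
  · rintro ⟨σ, h⟩
    exact sum_backward (fun i => (h i).1) (fun i => (h i).2.1) fun i => (h i).2.2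

end Pool.Agent.H758.TR
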