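import Pool.Agent.H758.TR.Pairs
import Pool.Agent.H758.TR.Dia

/-!
The pairing of the regions as a twisted self-duality.
-/

set_option autoImplicit false
set_option linter.unusedSectionVars false
set_option maxHeartbeats 400000

namespace Pool.Agent.H758.TR

open Finset Matrix
open Pool.Agent.H762.TG (Multigraph IsUnit')
open Pool.Agent.H762.MX
open Pool.Agent.H758.SR (rank IsIsometry Extends)

variable {V E : Type} [Fintype E] [DecidableEq E] [Fintype V] [DecidableEq V]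

/-- the map of the twisted self-duality -/
def tw (S : Finset E) (ℓ : E → ℕ) (τ : E → E) (η : E → ℤˣ) : (E → ℤ) →ₗ[ℤ] (E → ℤ) where
  toFun x e := η e * x (τ e) - if e ∈ S then 0 else ((ℓ e : ℤ) - ℓ (τ e)) * x e
  map_add' x y := by
    funext e
    simp only [Pi.add_apply]
    split_ifs <;> ring
  map_smul' c x := by
    funext e
    simp only [Pi.smul_apply, smul_eq_mul, RingHom.id_apply]
    split_ifs <;> ring

theorem tw_apply (S : Finset E) (ℓ : E → ℕ) (τ : E → E) (η : E → ℤˣ) (x : E → ℤ) (e : E) :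
    tw S ℓ τ η x e = η e * x (τ e) - if e ∈ S then 0 else ((ℓ e : ℤ) - ℓ (τ e)) * x e := rfl

theorem tw_in {S : Finset E} {ℓ : E → ℕ} {τ : E → E} {η : E → ℤˣ} (x : E → ℤ) {e : E}
    (he : e ∈ S) : tw S ℓ τ η x e = η e * x (τ e) := by
  rw [tw_apply, if_pos he, sub_zero]

theorem tw_out {S : Finset E} {ℓ : E → ℕ} {τ : E → E} {η : E → ℤˣ} (x : E → ℤ) {e : E}
    (he : e ∉ S) : tw S ℓ τ η x e = η e * x (τ e) - ((ℓ e : ℤ) - ℓ (τ e)) * x e := by
  rw [tw_apply, if_neg he]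

/-- the inverse map -/
def wt (S : Finset E) (ℓ : E → ℕ) (τ : E → E) (η : E → ℤˣ) : (E → ℤ) →ₗ[ℤ] (E → ℤ) where
  toFun y e := η e * y (τ e) + if e ∈ S then ((ℓ (τ e) : ℤ) - ℓ e) * y e else 0
  map_add' x y := by
    funext e
    simp only [Pi.add_apply]
    split_ifs <;> ring
  map_smul' c x := by
    funext e
    simp only [Pi.smul_apply, smul_eq_mul, RingHom.id_apply]
    split_ifs <;> ring

theorem wt_apply (S : Finset E) (ℓ : E → ℕ) (τ : E → E) (η : E → ℤˣ) (y : E → ℤ) (e : E) :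
    wt S ℓ τ η y e = η e * y (τ e) + if e ∈ S then ((ℓ (τ e) : ℤ) - ℓ e) * y e else 0 := rfl

theorem wt_in {S : Finset E} {ℓ : E → ℕ} {τ : E → E} {η : E → ℤˣ} (y : E → ℤ) {e : E}
    (he : e ∈ S) : wt S ℓ τ η y e = η e * y (τ e) + ((ℓ (τ e) : ℤ) - ℓ e) * y e := by
  rw [wt_apply, if_pos he]

theorem wt_out {S : Finset E} {ℓ : E → ℕ} {τ : E → E} {η : E → ℤˣ} (y : E → ℤ) {e : E}
    (he : e ∉ S) : wt S ℓ τ η y e = η e * y (τ e) := by
  rw [wt_apply, if_neg he, add_zero]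

/-- involutions exchanging the two types -/
structure Swap (S : Finset E) (ℓ : E → ℕ) (τ : E → E) (η : E → ℤˣ) : Prop where
  inv : ∀ e, τ (τ e) = e
  mem : ∀ e, τ e ∈ S ↔ e ∉ S
  sgn : ∀ e, η (τ e) = η e

theorem Swap.tw_wt {S : Finset E} {ℓ : E → ℕ} {τ : E → E} {η : E → ℤˣ} (h : Swap S ℓ τ η)
    (y : E → ℤ) : tw S ℓ τ η (wt S ℓ τ η y) = y := by
  funext e
  have hη := unit_sq (η e)
  by_cases he : e ∈ S
  · have hτ : τ e ∉ S := fun h' => (h.mem e).1 h' he
    rw [tw_in _ he, wt_out _ hτ, h.inv, h.sgn]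
    calc (η e : ℤ) * (η e * y e) = ((η e : ℤ) * η e) * y e := by ring
      _ = y e := by rw [hη, one_mul]
  · have hτ : τ e ∈ S := (h.mem e).2 he
    rw [tw_out _ he, wt_in _ hτ, wt_out _ he, h.inv, h.sgn]
    calc (η e : ℤ) * (η e * y e + ((ℓ e : ℤ) - ℓ (τ e)) * y (τ e)) -
        ((ℓ e : ℤ) - ℓ (τ e)) * (η e * y (τ e)) = ((η e : ℤ) * η e) * y e := by ring
      _ = y e := by rw [hη, one_mul]

theorem Swap.wt_tw {S : Finset E} {ℓ : E → ℕ} {τ : E → E} {η : E → ℤˣ} (h : Swap S ℓ τ η)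
    (x : E → ℤ) : wt S ℓ τ η (tw S ℓ τ η x) = x := by
  funext e
  have hη := unit_sq (η e)
  by_cases he : e ∈ S
  · have hτ : τ e ∉ S := fun h' => (h.mem e).1 h' he
    rw [wt_in _ he, tw_out _ hτ, tw_in _ he, h.inv, h.sgn]
    calc (η e : ℤ) * (η e * x e - ((ℓ (τ e) : ℤ) - ℓ e) * x (τ e)) +
        ((ℓ (τ e) : ℤ) - ℓ e) * (η e * x (τ e)) = ((η e : ℤ) * η e) * x e := by ring
      _ = x e := by rw [hη, one_mul]
  · have hτ : τ e ∈ S := (h.mem e).2 he
    rw [wt_out _ he, tw_in _ hτ, h.inv, h.sgn]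
    calc (η e : ℤ) * (η e * x e) = ((η e : ℤ) * η e) * x e := by ring
      _ = x e := by rw [hη, one_mul]

theorem sum_two {S T : Finset E} (hST : ∀ e, e ∈ T ↔ e ∉ S) (π : S ≃ T) (f : E → ℤ) :
    ∑ e, f e = ∑ e : S, (f e + f (π e)) := by
  rw [sum_split hST, ← sum_coe_sort S f, ← sum_coe_sort T f, ← Equiv.sum_comp π,
    ← sum_add_distrib]

/-- from the form to the self-duality -/
theorem tw_of_form (G : Multigraph V E) {S T : Finset E} (hST : ∀ e, e ∈ T ↔ e ∉ S) {ℓ : E → ℕ}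
    {π : S ≃ T} {η : S → ℤˣ} (hL : FormZero G.cuts ℓ π η)
    (hF : FormZero G.flows ℓ π.symm fun P => η (π.symm P)) :
    ∃ (τ : E → E) (η' : E → ℤˣ), Swap S ℓ τ η' ∧ (∀ e : S, τ e = π e) ∧
      ∀ x, x ∈ G.cuts ↔ tw S ℓ τ η' x ∈ G.flows := by
  classical
  let τ : E → E := fun e => if h : e ∈ S then π ⟨e, h⟩ else π.symm ⟨e, (hST e).2 h⟩
  let η' : E → ℤˣ := fun e => if h : e ∈ S then η ⟨e, h⟩ else η (π.symm ⟨e, (hST e).2 h⟩)
  have hT : ∀ e : S, ((π e : T) : E) ∉ S := fun e => (hST _).1 (π e).2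
  have h3 : ∀ e : S, (⟨((π e : T) : E), (hST _).2 (hT e)⟩ : T) = π e := fun e => Subtype.ext rfl
  have τ1 : ∀ e : S, τ e = π e := fun e => dif_pos e.2
  have τ2 : ∀ e : S, τ (π e) = e := fun e => by
    change dite _ _ _ = _
    rw [dif_neg (hT e), h3, Equiv.symm_apply_apply]
  have η1 : ∀ e : S, η' e = η e := fun e => dif_pos e.2
  have η2 : ∀ e : S, η' (π e) = η e := fun e => by
    change dite _ _ _ = _
    rw [dif_neg (hT e), h3, Equiv.symm_apply_apply]
  have hcase : ∀ p : E → Prop, (∀ e : S, p e) → (∀ e : S, p (π e)) → ∀ f, p f := by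
    intro p h1 h2 f
    by_cases hf : f ∈ S
    · exact h1 ⟨f, hf⟩
    · have := h2 (π.symm ⟨f, (hST f).2 hf⟩)
      rw [Equiv.apply_symm_apply] at this
      exact this
  have hsw : Swap S ℓ τ η' := by
    refine ⟨hcase _ (fun e => ?_) (fun e => ?_), hcase _ (fun e => ?_) (fun e => ?_),
      hcase _ (fun e => ?_) (fun e => ?_)⟩
    · rw [τ1, τ2]
    · rw [τ2, τ1]
    · rw [τ1]
      exact ⟨fun h => absurd h (hT e), fun h => absurd e.2 h⟩
    · rw [τ2]
      exact ⟨fun _ => hT e, fun _ => e.2⟩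
    · rw [τ1, η2, η1]
    · rw [τ2, η2, η1]
  refine ⟨τ, η', hsw, τ1, fun x => ⟨fun hx => ?_, fun hx => ?_⟩⟩
  · apply G.isFlow_of_dot
    intro x' hx'
    rw [dotProduct, sum_two hST π]
    have h1 := polar (ℓ := fun e => (ℓ e : ℤ)) hL hx hx'
    rw [← neg_eq_zero, ← sum_neg_distrib] at h1
    rw [← h1]
    refine sum_congr rfl fun e _ => ?_
    rw [tw_in _ e.2, tw_out _ (hT e), τ1, τ2, η1, η2]
    ring
  · apply G.mem_cuts_of_dot
    intro y hy
    rw [dotProduct, sum_two hST π]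
    have h1 := polar (ℓ := fun e => (ℓ e : ℤ)) hF hx hy
    rw [← Equiv.sum_comp π] at h1
    simp only [Equiv.symm_apply_apply] at h1
    rw [← neg_eq_zero, ← sum_neg_distrib] at h1
    rw [← h1]
    refine sum_congr rfl fun e _ => ?_
    rw [tw_in _ e.2, tw_out _ (hT e), τ1, τ2, η1, η2]
    have hη := unit_sq (η e)
    calc x e * y e + x (π e) * y (π e) = ((η e : ℤ) * η e) * (x e * y e) +
          ((η e : ℤ) * η e) * (x (π e) * y (π e)) := by rw [hη]; ring
      _ = _ := by ring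

/-- from the self-duality to the form -/
theorem form_of_tw (G : Multigraph V E) {S T : Finset E} (hST : ∀ e, e ∈ T ↔ e ∉ S) {ℓ : E → ℕ}
    {τ : E → E} {η : E → ℤˣ} (h : Swap S ℓ τ η)
    (hx : ∀ x, x ∈ G.cuts ↔ tw S ℓ τ η x ∈ G.flows) :
    Module.finrank ℤ G.cuts = S.card ∧ ∃ π : S ≃ T, (∀ e : S, τ e = π e) ∧
      FormZero G.cuts ℓ π fun e => η e := by
  let π : S ≃ T :=
    { toFun := fun e => ⟨τ e, (hST _).2 fun h' => (h.mem e).1 h' e.2⟩
      invFun := fun P => ⟨τ P, (h.mem P).2 ((hST _).1 P.2)⟩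
      left_inv := fun e => Subtype.ext (h.inv e)
      right_inv := fun e => Subtype.ext (h.inv e) }
  have hπ : ∀ e : S, ((π e : T) : E) = τ e := fun e => rfl
  have hT : ∀ e : S, τ e ∉ S := fun e h' => (h.mem e).1 h' e.2
  refine ⟨?_, π, fun e => (hπ e).symm, fun x hxL => ?_⟩
  · -- the ranks
    let J : G.cuts →ₗ[ℤ] G.flows := ((tw S ℓ τ η) ∘ₗ G.cuts.subtype).codRestrict G.flows
      fun x => (hx x).1 x.2
    have hJ : ∀ x : G.cuts, (J x : E → ℤ) = tw S ℓ τ η x := fun x => rfl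
    have hbij : Function.Bijective J := by
      constructor
      · intro x y hxy
        apply Subtype.ext
        rw [← h.wt_tw x, ← h.wt_tw y, ← hJ, ← hJ, hxy]
      · intro y
        refine ⟨⟨wt S ℓ τ η y, (hx _).2 ?_⟩, Subtype.ext ?_⟩
        · rw [h.tw_wt]; exact y.2
        · rw [hJ]; exact h.tw_wt y
    have h1 := (LinearEquiv.ofBijective J hbij).finrank_eq
    have h2 := G.finrank_add
    have h3 := Fintype.card_congr π
    rw [Fintype.card_coe, Fintype.card_coe] at h3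
    have h4 : S.card + T.card = Fintype.card E := by
      have : T = Sᶜ := by
        ext e
        rw [mem_compl]
        exact hST e
      rw [this]
      exact card_add_card_compl S
    omega
  · have h1 := G.cuts_dot_flows hxL ((hx x).1 hxL)
    rw [dotProduct, sum_two hST π] at h1
    rw [← neg_eq_zero, ← sum_neg_distrib, ← h1]
    refine sum_congr rfl fun e _ => ?_
    rw [hπ, tw_in _ e.2, tw_out _ (hT e), h.inv, h.sgn]
    ring

theorem selfMirror_iff (D : Diagram V E) : D.SelfMirror ↔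
    ∃ (τ : E → E) (η : E → ℤˣ), Swap D.first D.num τ η ∧ (∀ e, D.num (τ e) ≤ D.num e + 2) ∧
      ∀ x, x ∈ D.graph.cuts ↔ tw D.first D.num τ η x ∈ D.graph.flows := by
  constructor
  · rintro ⟨τ, η, h1, h2⟩
    exact ⟨τ, η, ⟨fun e => (h1 e).1, fun e => (h1 e).2.1, fun e => (h1 e).2.2.1⟩,
      fun e => (h1 e).2.2.2, h2⟩
  · rintro ⟨τ, η, h1, h3, h2⟩
    exact ⟨τ, η, fun e => ⟨h1.inv e, h1.mem e, h1.sgn e, h3 e⟩, h2⟩

theorem toLin' {ι κ : Type} [Fintype ι] [Fintype κ] {M : Submodule ℤ (ι → ℤ)}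
    {φ : (ι → ℤ) → κ → ℤ} (h : IsIsometry M φ) : ∃ f : M →ₗ[ℤ] (κ → ℤ),
    (∀ a : M, f a = φ a) ∧ ∀ a b, f a ⬝ᵥ f b = (a : ι → ℤ) ⬝ᵥ (b : ι → ℤ) :=
  ⟨(AddMonoidHom.mk' (fun x : M => φ x) fun x y => (h x x.2 y y.2).1).toIntLinearMap,
    fun _ => rfl, fun a b => (h a a.2 b b.2).2⟩

theorem odd_sign {a : ℤ} (h : a ≠ 0) : Odd a.sign := by
  rcases sign_trich a with h1 | h1 | h1
  · exact absurd h1.1 h
  · rw [h1.2]; exact odd_one
  · rw [h1.2]; exact odd_neg_one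

/-- **The slice condition is equivalent to the twisted self-duality.** -/
theorem slice_iff {D : Diagram V E} (h : D.Three) : D.LatticeSlice ↔ D.SelfMirror := by
  obtain ⟨G, S, ℓ⟩ := D
  rw [selfMirror_iff]
  have hST : ∀ e, e ∈ Sᶜ ↔ e ∉ S := fun e => mem_compl
  have hST' : ∀ e, e ∈ S ↔ e ∉ Sᶜ := fun e => by rw [mem_compl, not_not]
  have h5 : ∀ e, 3 ≤ ℓ e := h.three
  have hpos : ∀ e, 0 < ℓ e := fun e => by have := h5 e; omega
  have hperp : ∀ y, (∀ x ∈ G.cuts, x ⬝ᵥ y = 0) → y ∈ G.flows := fun y hy => G.isFlow_of_dot hy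
  have hperp' : ∀ x, (∀ y ∈ G.flows, y ⬝ᵥ x = 0) → x ∈ G.cuts := fun x hx =>
    G.mem_cuts_of_dot fun y hy => by
      rw [dotProduct_comm]
      exact hx y hy
  have hfr := G.finrank_add
  have hcard : S.card + (Sᶜ : Finset E).card = Fintype.card E := card_add_card_compl S
  constructor
  · rintro ⟨φ, ψ, hφ, hψ, hglue⟩
    change IsIsometry (blowup G.cuts S ℓ) φ at hφ
    change IsIsometry (blowup G.flows Sᶜ ℓ) ψ at hψ
    obtain ⟨f, hf, hf'⟩ := toLin' hφ
    obtain ⟨g, hg, hg'⟩ := toLin' hψ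
    have k1 := finrank_blowup G.cuts S ℓ hpos
    have k2 := finrank_blowup G.flows Sᶜ ℓ hpos
    have h4 : ∀ e ∈ S, ℓ e = 4 → ∃ x : G.cuts, Odd ((x : E → ℤ) e) := by
      intro e _ he
      obtain ⟨x, hx, hxe⟩ := (h.four e he).1
      obtain ⟨u, hu, _, hue⟩ := exists_conf_cut G hx hxe
      exact ⟨⟨u, hu⟩, by
        change Odd (u e)
        rw [hue]
        exact odd_sign hxe⟩
    have h4' : ∀ e ∈ (Sᶜ : Finset E), ℓ e = 4 → ∃ x : G.flows, Odd ((x : E → ℤ) e) := by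
      intro e _ he
      obtain ⟨x, hx, hxe⟩ := (h.four e he).2
      obtain ⟨u, hu, _, hue⟩ := G.exists_conf hx hxe
      exact ⟨⟨u, hu⟩, by
        change Odd (u e)
        rw [hue]
        exact odd_sign hxe⟩
    obtain ⟨a1, a2⟩ := exists_block hST h5 hpos h4 f hf'
    obtain ⟨b1, b2⟩ := exists_block hST' h5 hpos h4' g hg'
    rw [Fintype.card_fin] at a1 a2 b1 b2
    have e1 : SR.rank (Diagram.cuts ⟨G, S, ℓ⟩) = Module.finrank ℤ (blowup G.cuts S ℓ) := rfl
    have e2 : SR.rank (Diagram.flows ⟨G, S, ℓ⟩) = Module.finrank ℤ (blowup G.flows Sᶜ ℓ) := rfl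
    have hr : Module.finrank ℤ G.cuts = S.card := by omega
    have hr' : Module.finrank ℤ G.flows = (Sᶜ : Finset E).card := by omega
    obtain ⟨c, B, ε, hB⟩ := a2 (by omega)
    obtain ⟨d, B', ε', hB'⟩ := b2 (by omega)
    have hD : Data G S Sᶜ ℓ c d :=
      { hST := hST
        three := h5
        q1 := fun x => hB.quad hST hf' x
        q2 := fun x => hB'.quad hST' hg' x
        r1 := hr
        r2 := hr'
        glue := fun e₀ he₀ β hβ0 hβ => exists_eta hST hB hB' (fun ζ ⟨a, ha⟩ => by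
          obtain ⟨b, hb⟩ := (hglue ζ).1 ⟨a, fun x hx => by
            rw [← hf ⟨x, hx⟩]
            exact ha ⟨x, hx⟩⟩
          exact ⟨b, fun z => by
            rw [hg z]
            exact hb z z.2⟩) he₀ hβ0 hβ }
    obtain ⟨π, η, h2, hform⟩ := hD.pairing (fun e he => h.cut e ((hST e).1 he)) h.flow h.series
      fun e he f hf => h.parallel e ((hST e).1 he) f ((hST f).1 hf)
    have hSc : S.card = (Sᶜ : Finset E).card := by
      have := Fintype.card_congr π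
      rwa [Fintype.card_coe, Fintype.card_coe] at this
    obtain ⟨τ, η', hsw, hτ, hx⟩ := tw_of_form G hST hform (form_dual hST hperp (by omega) hform)
    refine ⟨τ, η', hsw, fun e => ?_, hx⟩
    change ℓ (τ e) ≤ ℓ e + 2
    by_cases he : e ∈ S
    · have h3 := h2 ⟨e, he⟩
      rw [← hτ ⟨e, he⟩] at h3
      exact h3.1
    · have hτe : τ e ∈ S := (hsw.mem e).2 he
      have h3 := h2 ⟨τ e, hτe⟩
      rw [← hτ ⟨τ e, hτe⟩] at h3
      simp only [hsw.inv] at h3
      exact h3.2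
  · rintro ⟨τ, η, hsw, hle, hx⟩
    obtain ⟨hr, π, hπ, hL⟩ := form_of_tw G hST hsw hx
    have hSc : S.card = (Sᶜ : Finset E).card := by
      have := Fintype.card_congr π
      rwa [Fintype.card_coe, Fintype.card_coe] at this
    change Module.finrank ℤ G.cuts = S.card at hr
    have hF := form_dual hST hperp (by omega) hL
    obtain ⟨θ, i1, i2⟩ := isometry_of_form hST hpos hr hL
    obtain ⟨θ', j1, j2⟩ := isometry_of_form hST' hpos (by omega) hF
    refine ⟨_, _, i1, j1, fun ζ => ?_⟩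
    exact ((i2 ζ).trans (glue_iff hST hpos hperp hperp' hL hF ζ)).trans (j2 ζ).symm

end Pool.Agent.H758.TR
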